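import Mathlib

set_option autoImplicit false

namespace Pool.Agent.Helper572.Adic

/-- The powers of a two-sided ideal: `idealPow I n = I ^ n` (with `I ^ 0 = R`). -/
def idealPow {R : Type*} [Ring R] (I : TwoSidedIdeal R) : ℕ → TwoSidedIdeal R
  | 0 => ⊤
  | n + 1 => TwoSidedIdeal.span {z | ∃ x ∈ I, ∃ y ∈ idealPow I n, z = x * y ∨ z = y * x}

/-- If `[u, w] = c` and `c` is annihilated by `u` and `w` on both sides, then
`(1 + u) ^ m (1 + w) ^ m = ((1 + u) (1 + w)) ^ m + (m choose 2) c`. -/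
theorem pow_comm_of_annihilate {S : Type*} [Ring S] (u w c : S) (hc : u * w - w * u = c)
    (huc : u * c = 0) (hcu : c * u = 0) (hwc : w * c = 0) (hcw : c * w = 0) (m : ℕ) :
    (1 + u) ^ m * (1 + w) ^ m = ((1 + u) * (1 + w)) ^ m + (m.choose 2) • c := by
  have hxc : (1 + u) * c = c := by rw [add_mul, one_mul, huc, add_zero]
  have hcx : c * (1 + u) = c := by rw [mul_add, mul_one, hcu, add_zero]
  have hyc : (1 + w) * c = c := by rw [add_mul, one_mul, hwc, add_zero]
  have hcy : c * (1 + w) = c := by rw [mul_add, mul_one, hcw, add_zero]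
  generalize hX : (1 + u) = X at *
  generalize hY : (1 + w) = Y at *
  have hXY : X * Y = Y * X + c := by
    rw [← hX, ← hY, ← hc]; noncomm_ring
  have hXmc : ∀ j : ℕ, X ^ j * c = c := by
    intro j
    induction j with
    | zero => simp
    | succ j ih => rw [pow_succ, mul_assoc, hxc, ih]
  have hcYm : ∀ j : ℕ, c * Y ^ j = c := by
    intro j
    induction j with
    | zero => simp
    | succ j ih => rw [pow_succ', ← mul_assoc, hcy, ih]
  have hXYc : ∀ j : ℕ, c * (X * Y) ^ j = c := by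
    intro j
    induction j with
    | zero => simp
    | succ j ih => rw [pow_succ, ← mul_assoc, ih, ← mul_assoc, hcx, hcy]
  -- `X ^ m * Y = Y * X ^ m + m c`
  have h1 : ∀ j : ℕ, X ^ j * Y = Y * X ^ j + j • c := by
    intro j
    induction j with
    | zero => simp
    | succ j ih =>
      rw [pow_succ, mul_assoc, hXY, mul_add, hXmc, ← mul_assoc, ih, add_mul, smul_mul_assoc, hcx,
        mul_assoc, ← pow_succ, succ_nsmul]
      abel
  induction m with
  | zero => simp
  | succ m ih =>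
    -- `X ^ (m+1) Y ^ (m+1) = X ^ m (X Y ^ m) Y` and `X Y ^ m = Y ^ m X + m c`
    have h2 : ∀ j : ℕ, X * Y ^ j = Y ^ j * X + j • c := by
      intro j
      induction j with
      | zero => simp
      | succ j ih =>
        rw [pow_succ, ← mul_assoc, ih, add_mul, smul_mul_assoc, hcy, mul_assoc, hXY, mul_add,
          ← mul_assoc]
        have : Y ^ j * c = c := by
          clear ih
          induction j with
          | zero => simp
          | succ j ih => rw [pow_succ, mul_assoc, hyc, ih]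
        rw [this, succ_nsmul]
        abel
    have h3 : X ^ (m + 1) * Y ^ (m + 1) = X ^ m * Y ^ m * (X * Y) + m • c := by
      have e1 : X ^ (m + 1) * Y ^ (m + 1) = X ^ m * (X * Y ^ m) * Y := by
        rw [pow_succ, pow_succ]; simp only [mul_assoc]
      rw [e1, h2, mul_add, mul_smul_comm, hXmc, add_mul, smul_mul_assoc, hcy]
      simp only [mul_assoc]
    rw [h3, ih, add_mul, smul_mul_assoc, ← mul_assoc c, hcx, hcy, ← pow_succ,
      Nat.choose_succ_succ' m 1, Nat.choose_one_right, add_smul, add_assoc, add_comm (m • c)]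

theorem comm_mem_pow {R : Type*} [Ring R] [Algebra ℚ R]
    (hP : ∀ x y : R, ∃ n : ℕ, 2 ≤ n ∧ (x * y) ^ n = x ^ n * y ^ n) (I : TwoSidedIdeal R)
    (u w : R) (hu : u ∈ I) (hw : w ∈ I) (n : ℕ) : u * w - w * u ∈ idealPow I n := by
  induction n with
  | zero =>
    show _ ∈ (⊤ : TwoSidedIdeal R)
    exact TwoSidedIdeal.mem_top R
  | succ n ih =>
    obtain ⟨m, hm, h⟩ := hP (1 + u) (1 + w)
    let J := idealPow I (n + 1)
    have hl : ∀ x ∈ I, ∀ y ∈ idealPow I n, x * y ∈ J := fun x hx y hy =>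
      TwoSidedIdeal.subset_span ⟨x, hx, y, hy, Or.inl rfl⟩
    have hr : ∀ x ∈ I, ∀ y ∈ idealPow I n, y * x ∈ J := fun x hx y hy =>
      TwoSidedIdeal.subset_span ⟨x, hx, y, hy, Or.inr rfl⟩
    let π : R →+* J.ringCon.Quotient := J.ringCon.mk'
    have hker : ∀ x : R, π x = 0 ↔ x ∈ J := by
      intro x
      rw [← TwoSidedIdeal.mem_ker, TwoSidedIdeal.ker_ringCon_mk']
    have key := pow_comm_of_annihilate (π u) (π w) (π (u * w - w * u))
      (by rw [map_sub, map_mul, map_mul])
      (by rw [← map_mul, hker]; exact hl u hu _ ih)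
      (by rw [← map_mul, hker]; exact hr u hu _ ih)
      (by rw [← map_mul, hker]; exact hl w hw _ ih)
      (by rw [← map_mul, hker]; exact hr w hw _ ih) m
    have h' := congrArg π h
    simp only [map_pow, map_mul, map_add, map_one] at h'
    rw [← h'] at key
    have h0 : (m.choose 2) • π (u * w - w * u) = 0 := by
      have := key
      exact (left_eq_add.mp this)
    rw [← map_nsmul, hker] at h0
    have hne : ((m.choose 2 : ℕ) : ℚ) ≠ 0 := by
      have : 0 < m.choose 2 := Nat.choose_pos hm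
      exact_mod_cast this.ne'
    have h5 : u * w - w * u =
        algebraMap ℚ R (((m.choose 2 : ℕ) : ℚ)⁻¹) * ((m.choose 2) • (u * w - w * u)) := by
      rw [nsmul_eq_mul, ← mul_assoc, ← map_natCast (algebraMap ℚ R), ← map_mul,
        inv_mul_cancel₀ hne, map_one, one_mul]
    rw [h5]
    exact TwoSidedIdeal.mul_mem_left _ _ _ h0

theorem adic_comm {R : Type*} [Ring R] [Algebra ℚ R]
    (hP : ∀ x y : R, ∃ n : ℕ, 2 ≤ n ∧ (x * y) ^ n = x ^ n * y ^ n) (I : TwoSidedIdeal R)
    (hI : ∀ r : R, (∀ n : ℕ, r ∈ idealPow I n) → r = 0) :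
    ∀ u ∈ I, ∀ w ∈ I, u * w = w * u := fun u hu w hw =>
  sub_eq_zero.mp (hI _ fun n => comm_mem_pow hP I u w hu hw n)

/-- a commutative ideal is annihilated by the commutators of its elements with the ring -/
theorem comm_annihilates {R : Type*} [Ring R] (I : TwoSidedIdeal R)
    (hI : ∀ u ∈ I, ∀ w ∈ I, u * w = w * u) (u : R) (hu : u ∈ I) (r w : R) (hw : w ∈ I) :
    (u * r - r * u) * w = 0 := by
  have h1 := hI u hu (r * w) (TwoSidedIdeal.mul_mem_left _ _ _ hw)
  rw [mul_assoc r w u, ← hI u hu w hw] at h1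
  rw [sub_mul, mul_assoc, mul_assoc, h1, sub_self]

/-- A commutative ideal is central if there are no ideals of square-zero elements. -/
theorem central_of {R : Type*} [Ring R] (I : TwoSidedIdeal R)
    (hI : ∀ u ∈ I, ∀ w ∈ I, u * w = w * u)
    (hnil : ∀ J : TwoSidedIdeal R, (∀ x ∈ J, x * x = 0) → ∀ x ∈ J, x = 0) :
    ∀ u ∈ I, ∀ r : R, u * r = r * u := by
  intro u hu r
  let K : TwoSidedIdeal R := TwoSidedIdeal.mk'
    {k : R | k ∈ I ∧ ∀ w ∈ I, k * w = 0}
    ⟨I.zero_mem, fun w _ => zero_mul w⟩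
    (by
      rintro a b ⟨ha, ha'⟩ ⟨hb, hb'⟩
      exact ⟨I.add_mem ha hb, fun w hw => by rw [add_mul, ha' w hw, hb' w hw, add_zero]⟩)
    (by
      rintro a ⟨ha, ha'⟩
      exact ⟨I.neg_mem ha, fun w hw => by rw [neg_mul, ha' w hw, neg_zero]⟩)
    (by
      rintro a b ⟨hb, hb'⟩
      exact ⟨I.mul_mem_left _ _ hb, fun w hw => by rw [mul_assoc, hb' w hw, mul_zero]⟩)
    (by
      rintro a b ⟨ha, ha'⟩
      exact ⟨I.mul_mem_right _ _ ha, fun w hw => by
        rw [mul_assoc, ha' _ (I.mul_mem_left _ _ hw)]⟩)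
  have hK : ∀ x : R, x ∈ K ↔ x ∈ I ∧ ∀ w ∈ I, x * w = 0 := by
    intro x
    simp only [K, TwoSidedIdeal.mem_mk', Set.mem_ofPred_eq]
  have h := hnil K (fun x hx => ((hK x).mp hx).2 x ((hK x).mp hx).1) (u * r - r * u)
    ((hK _).mpr ⟨I.sub_mem (I.mul_mem_right _ _ hu) (I.mul_mem_left _ _ hu),
      fun w hw => comm_annihilates I hI u hu r w hw⟩)
  exact sub_eq_zero.mp h

/-- A prime ring with a nonzero commutative ideal is commutative. -/
theorem prime_comm {R : Type*} [Ring R] (hprime : ∀ x y : R, (∀ r : R, x * r * y = 0) → x = 0 ∨ y = 0)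
    (I : TwoSidedIdeal R) (hI : ∀ u ∈ I, ∀ w ∈ I, u * w = w * u) (hne : I ≠ ⊥) :
    ∀ r s : R, r * s = s * r := by
  have hex : ∃ u ∈ I, u ≠ 0 := by
    by_contra hcon
    apply hne
    rw [eq_bot_iff]
    intro x hx
    rw [TwoSidedIdeal.mem_bot]
    by_contra hx0
    exact hcon ⟨x, hx, hx0⟩
  obtain ⟨u, hu, hu0⟩ := hex
  have hcen : ∀ v ∈ I, ∀ r : R, v * r = r * v := by
    intro v hv r
    have h := hprime (v * r - r * v) u (fun t => by
      rw [mul_assoc]
      exact comm_annihilates I hI v hv r (t * u) (I.mul_mem_left _ _ hu))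
    rcases h with h | h
    · exact sub_eq_zero.mp h
    · exact absurd h hu0
  intro r s
  have h1 : ∀ t : R, u * t * (r * s - s * r) = 0 := by
    intro t
    have e0 : u * t ∈ I := I.mul_mem_right _ _ hu
    have e1 := hcen (u * t * r) (I.mul_mem_right _ _ e0) s
    have e2 := hcen (u * t) e0 s
    calc u * t * (r * s - s * r) = u * t * r * s - (u * t * s) * r := by
          rw [mul_sub]; simp only [mul_assoc]
      _ = s * (u * t * r) - (s * (u * t)) * r := by rw [e1, e2]
      _ = 0 := by simp only [mul_assoc, sub_self]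
  rcases hprime u (r * s - s * r) h1 with h | h
  · exact absurd h hu0
  · exact sub_eq_zero.mp h

end Pool.Agent.Helper572.Adic
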