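import Pool.Agent.Helper572.TBasis
set_option autoImplicit false
open scoped Topology ENNReal
open Filter

namespace Pool.Agent.Helper572.TB

variable {E : Type} [NormedAddCommGroup E] [NormedSpace ℝ E]

/-- the span of the first `m` vectors -/
def P (x : ℕ → E) (m : ℕ) : Submodule ℝ E := Submodule.span ℝ (x '' Set.Iio m)

/-- `∑_{i<m} α i • x i` as an element of `P x m` -/
def psum (x : ℕ → E) (α : ℕ → ℝ) (m : ℕ) : P x m :=
  ⟨∑ i ∈ Finset.range m, α i • x i, Submodule.sum_mem _ (fun i hi =>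
    Submodule.smul_mem _ _ (Submodule.subset_span ⟨i, Finset.mem_range.mp hi, rfl⟩))⟩

/-- `lim_n lim_m u n m = y`: all inner limits exist and tend to `y` -/
def DoubleLim (u : ℕ → ℕ → E) (y : E) : Prop :=
  ∃ z : ℕ → E, (∀ n, Tendsto (u n) atTop (𝓝 (z n))) ∧ Tendsto z atTop (𝓝 y)

/-- complete sequences: the span is dense -/
def IsComplete (x : ℕ → E) : Prop := Dense (Submodule.span ℝ (Set.range x) : Set E)

/-- minimal sequences: no vector lies in the closed span of the others -/
def IsMinimal (x : ℕ → E) : Prop :=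
  ∀ n, x n ∉ closure (Submodule.span ℝ (x '' {n}ᶜ) : Set E)

/-- `f` is biorthogonal to `x` -/
def IsBiorth (x : ℕ → E) (f : ℕ → E →L[ℝ] ℝ) : Prop := ∀ i j, f i (x j) = if i = j then 1 else 0

/-- double operational bases -/
def IsDoubleOperationalBasis (x : ℕ → E) : Prop :=
  IsComplete x ∧ IsMinimal x ∧ ∃ f : ℕ → E →L[ℝ] ℝ, IsBiorth x f ∧
    ∃ v : (n m : ℕ) → (P x m →ₗ[ℝ] P x m),
      ∀ y : E, DoubleLim (fun n m => (v n m (psum x (fun i => f i y) m) : E)) y

/-- double generalized summation bases -/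
def IsDoubleGenSummationBasis (x : ℕ → E) : Prop :=
  ∃ v : (n m : ℕ) → (P x m →ₗ[ℝ] P x m),
    (∀ i, DoubleLim (fun n m => (v n m (psum x (Pi.single i 1) m) : E)) (x i)) ∧
    ∀ y : E, ∃! α : ℕ → ℝ, DoubleLim (fun n m => (v n m (psum x α m) : E)) y

lemma minimal_of_biorth (x : ℕ → E) (f : ℕ → E →L[ℝ] ℝ) (h : IsBiorth x f) : IsMinimal x := by
  intro n hn
  have h1 : (Submodule.span ℝ (x '' {n}ᶜ) : Set E) ⊆ {y | f n y = 0} := by
    intro y hy
    have h2 : Submodule.span ℝ (x '' {n}ᶜ) ≤ LinearMap.ker (f n : E →ₗ[ℝ] ℝ) := by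
      rw [Submodule.span_le]
      rintro _ ⟨j, hj, rfl⟩
      have hj' : n ≠ j := fun h => hj h.symm
      show f n (x j) = 0
      rw [h n j, if_neg hj']
    exact h2 hy
  have h3 : IsClosed {y | f n y = 0} := isClosed_eq (f n).continuous continuous_const
  have h4 : f n (x n) = 0 := closure_minimal h1 h3 hn
  rw [h n n, if_pos rfl] at h4
  exact one_ne_zero h4

section abstract

variable {ι : Type} [DecidableEq ι] (e : ℕ ≃ ι) (x : ι → E) (f : ι → E →L[ℝ] ℝ)
  (A : ℕ → ℕ → Finset ι)

open Classical in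
noncomputable def NN (n m : ℕ) : ℕ :=
  Nat.findGreatest (fun N => A n N ⊆ (Finset.range m).map e.toEmbedding) m

lemma NN_spec (hA0 : ∀ n, A n 0 = ∅) (n m : ℕ) :
    A n (NN e A n m) ⊆ (Finset.range m).map e.toEmbedding := by
  classical
  exact Nat.findGreatest_spec (P := fun N => A n N ⊆ (Finset.range m).map e.toEmbedding)
    (Nat.zero_le m) (by rw [hA0]; exact Finset.empty_subset _)

lemma NN_tendsto (n : ℕ) : Tendsto (NN e A n) atTop atTop := by
  classical
  rw [tendsto_atTop]
  intro b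
  have h1 : ∀ᶠ m in atTop, A n b ⊆ (Finset.range m).map e.toEmbedding := by
    refine eventually_atTop.mpr ⟨(A n b).sup (fun i => e.symm i + 1), fun m hm i hi => ?_⟩
    rw [Finset.mem_map]
    have h2 : e.symm i + 1 ≤ (A n b).sup (fun i => e.symm i + 1) :=
      Finset.le_sup (f := fun i => e.symm i + 1) hi
    exact ⟨e.symm i, Finset.mem_range.mpr (by omega), by simp⟩
  filter_upwards [h1, eventually_ge_atTop b] with m hm hb
  exact Nat.le_findGreatest hb hm

/-- the operators on the first vectors -/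
noncomputable def vv (hA0 : ∀ n, A n 0 = ∅) (n m : ℕ) : P (x ∘ e) m →ₗ[ℝ] P (x ∘ e) m :=
  LinearMap.codRestrict (P (x ∘ e) m)
    ((∑ i ∈ A n (NN e A n m), ((f i : E →ₗ[ℝ] ℝ).smulRight (x i))).comp (P (x ∘ e) m).subtype)
    (by
      intro y
      rw [LinearMap.comp_apply, LinearMap.sum_apply]
      refine Submodule.sum_mem _ (fun i hi => ?_)
      rw [LinearMap.smulRight_apply]
      refine Submodule.smul_mem _ _ (Submodule.subset_span ?_)
      obtain ⟨j, hj, hji⟩ := Finset.mem_map.mp (NN_spec e A hA0 n m hi)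
      refine ⟨j, Finset.mem_range.mp hj, ?_⟩
      show x (e j) = x i
      rw [← hji]; rfl)

lemma vv_apply (hA0 : ∀ n, A n 0 = ∅) (n m : ℕ) (y : P (x ∘ e) m) :
    (vv e x f A hA0 n m y : E) = ∑ i ∈ A n (NN e A n m), f i y • x i := by
  unfold vv
  rw [LinearMap.codRestrict_apply, LinearMap.comp_apply, LinearMap.sum_apply]
  rfl

lemma vv_psum (hb : ∀ i j, f i (x j) = if i = j then 1 else 0) (hA0 : ∀ n, A n 0 = ∅)
    (n m : ℕ) (α : ℕ → ℝ) :
    (vv e x f A hA0 n m (psum (x ∘ e) α m) : E) =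
      ∑ i ∈ A n (NN e A n m), α (e.symm i) • x i := by
  rw [vv_apply]
  refine Finset.sum_congr rfl (fun i hi => ?_)
  congr 1
  obtain ⟨j, hj, hji⟩ := Finset.mem_map.mp (NN_spec e A hA0 n m hi)
  have hji' : e j = i := hji
  subst hji'
  rw [Equiv.symm_apply_apply]
  show f (e j) (∑ k ∈ Finset.range m, α k • x (e k)) = α j
  rw [map_sum, Finset.sum_eq_single j]
  · rw [map_smul, hb, if_pos rfl, smul_eq_mul, mul_one]
  · intro k _ hk
    have : e j ≠ e k := fun h => hk (e.injective h).symm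
    rw [map_smul, hb, if_neg this, smul_zero]
  · intro h; exact absurd hj h

variable (hb : ∀ i j, f i (x j) = if i = j then 1 else 0) (hA0 : ∀ n, A n 0 = ∅)
  (hA : ∀ j, ∀ᶠ n in atTop, ∀ᶠ N in atTop, j ∈ A n N) (z : ℕ → E → E)
  (hz : ∀ y n, Tendsto (fun N => ∑ i ∈ A n N, f i y • x i) atTop (𝓝 (z n y)))
  (hz' : ∀ y, Tendsto (fun n => z n y) atTop (𝓝 y))

include hb hz hz' in
lemma vv_lim (y : E) : DoubleLim (fun n m => (vv e x f A hA0 n m
    (psum (x ∘ e) (fun i => f (e i) y) m) : E)) y := by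
  refine ⟨fun n => z n y, fun n => ?_, hz' y⟩
  have h1 := (hz y n).comp (NN_tendsto e A n)
  refine h1.congr (fun m => ?_)
  have h2 := vv_psum e x f A hb hA0 n m (fun i => f (e i) y)
  simp only [Equiv.apply_symm_apply] at h2
  exact h2.symm

include hb hA in
lemma vv_unique (y : E) (α : ℕ → ℝ)
    (h : DoubleLim (fun n m => (vv e x f A hA0 n m (psum (x ∘ e) α m) : E)) y) :
    α = fun i => f (e i) y := by
  obtain ⟨w, hw, hwy⟩ := h
  funext j
  have h1 : ∀ᶠ n in atTop, f (e j) (w n) = α j := by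
    filter_upwards [hA (e j)] with n hn
    have h2 : Tendsto (fun m => f (e j) (vv e x f A hA0 n m (psum (x ∘ e) α m) : E)) atTop
        (𝓝 (f (e j) (w n))) := ((f (e j)).continuous.tendsto _).comp (hw n)
    have h3 : ∀ᶠ m in atTop, f (e j) (vv e x f A hA0 n m (psum (x ∘ e) α m) : E) = α j := by
      filter_upwards [(NN_tendsto e A n).eventually hn] with m hm
      rw [vv_psum e x f A hb hA0, map_sum, Finset.sum_eq_single (e j)]
      · rw [map_smul, hb, if_pos rfl, smul_eq_mul, mul_one, Equiv.symm_apply_apply]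
      · intro k _ hk
        rw [map_smul, hb, if_neg hk.symm, smul_zero]
      · intro h; exact absurd hm h
    exact tendsto_nhds_unique h2 ((tendsto_congr' h3).mpr tendsto_const_nhds)
  have h4 : Tendsto (fun n => f (e j) (w n)) atTop (𝓝 (f (e j) y)) :=
    ((f (e j)).continuous.tendsto _).comp hwy
  exact tendsto_nhds_unique ((tendsto_congr' h1).mpr tendsto_const_nhds) h4

include hb hA0 hz hz' hA in
theorem double_gsb : IsDoubleGenSummationBasis (x ∘ e) := by
  refine ⟨vv e x f A hA0, fun i => ?_, fun y => ⟨fun i => f (e i) y, ?_, ?_⟩⟩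
  · have h := vv_lim e x f A hb hA0 z hz hz' (x (e i))
    have h2 : (fun j => f (e j) (x (e i))) = Pi.single i 1 := by
      funext j
      rw [hb]
      by_cases hij : j = i
      · subst hij; simp
      · rw [if_neg (fun h => hij (e.injective h)), Pi.single_eq_of_ne hij]
    rw [h2] at h
    exact h
  · exact vv_lim e x f A hb hA0 z hz hz' y
  · intro α hα
    exact vv_unique e x f A hb hA0 hA y α hα

include hb hA0 hz hz' in
theorem double_op (hc : Dense (Submodule.span ℝ (Set.range x) : Set E)) :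
    IsDoubleOperationalBasis (x ∘ e) := by
  have hbi : IsBiorth (x ∘ e) (fun i => f (e i)) := by
    intro i j
    rw [Function.comp_apply, hb]
    by_cases h : i = j
    · subst h; simp
    · rw [if_neg (fun h' => h (e.injective h')), if_neg h]
  refine ⟨?_, minimal_of_biorth _ _ hbi, fun i => f (e i), hbi, vv e x f A hA0,
    fun y => vv_lim e x f A hb hA0 z hz hz' y⟩
  unfold IsComplete
  rw [e.surjective.range_comp]
  exact hc

end abstract

end Pool.Agent.Helper572.TB
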