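import Mathlib

set_option autoImplicit false

namespace Pool.Agent.Helper572.PowProd
open Finset Polynomial



/-- Vandermonde: a polynomial function with vector coefficients vanishing on an infinite set of scalars has zero coefficients. -/
theorem poly_unique {F V : Type*} [Field F] [AddCommGroup V] [Module F V] (n : ℕ) (c : ℕ → V)
    (S : Set F) (hS : S.Infinite) (h : ∀ s ∈ S, ∑ j ∈ Finset.range n, s ^ j • c j = 0) :
    ∀ j < n, c j = 0 := by
  intro j hj
  rw [← Module.forall_dual_apply_eq_zero_iff F (c j)]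
  intro φ
  set p : Polynomial F := ∑ i ∈ Finset.range n, Polynomial.C (φ (c i)) * Polynomial.X ^ i with hp
  have hp0 : p = 0 := by
    apply Polynomial.eq_zero_of_infinite_isRoot
    apply hS.mono
    intro s hs
    have h1 := congrArg φ (h s hs)
    rw [map_sum, map_zero] at h1
    show Polynomial.IsRoot p s
    rw [Polynomial.IsRoot.def, hp, Polynomial.eval_finsetSum]
    rw [← h1]
    apply Finset.sum_congr rfl
    intro i _
    rw [Polynomial.eval_mul, Polynomial.eval_C, Polynomial.eval_pow, Polynomial.eval_X, map_smul, smul_eq_mul, mul_comm]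
  have h2 : p.coeff j = φ (c j) := by
    rw [hp, Polynomial.finsetSum_coeff]
    simp only [Polynomial.coeff_C_mul, Polynomial.coeff_X_pow]
    rw [Finset.sum_eq_single j]
    · simp
    · intro b _ hb
      simp [Ne.symm hb]
    · intro h3
      exact absurd (Finset.mem_range.2 hj) h3
  rw [← h2, hp0, Polynomial.coeff_zero]



theorem ext_sum {F V : Type*} [Field F] [AddCommGroup V] [Module F V] (n N : ℕ) (hnN : n ≤ N)
    (c : ℕ → V) (s : F) :
    ∑ j ∈ Finset.range N, s ^ (j + 2) • (if j < n then c j else 0) =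
      ∑ j ∈ Finset.range n, s ^ (j + 2) • c j := by
  rw [← Finset.sum_subset (Finset.range_subset_range.mpr hnN)]
  · refine Finset.sum_congr rfl (fun j hj => ?_)
    rw [if_pos (Finset.mem_range.mp hj)]
  · intro j _ hj
    rw [if_neg (fun h => hj (Finset.mem_range.mpr h)), smul_zero]

/-- the difference coefficients -/
def dcoef {V : Type*} [AddCommGroup V] (d0 d1 : V) (n n' : ℕ) (c c' : ℕ → V) : ℕ → V
  | 0 => d0
  | 1 => d1
  | (j + 2) => (if j < n then c j else 0) - (if j < n' then c' j else 0)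

/-- uniqueness of the linear jet -/
theorem jet_unique {F V : Type*} [Field F] [AddCommGroup V] [Module F V] (a0 a1 b0 b1 : V)
    (n n' : ℕ) (c c' : ℕ → V) (S : Set F) (hS : S.Infinite)
    (h : ∀ s ∈ S, a0 + s • a1 + ∑ j ∈ Finset.range n, s ^ (j + 2) • c j =
      b0 + s • b1 + ∑ j ∈ Finset.range n', s ^ (j + 2) • c' j) :
    a1 = b1 := by
  have key := poly_unique (max n n' + 2) (dcoef (a0 - b0) (a1 - b1) n n' c c') S hS (by
    intro s hs
    have h1 := h s hs
    rw [Finset.sum_range_succ', Finset.sum_range_succ']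
    have h2 : ∑ k ∈ Finset.range (max n n'), s ^ (k + 1 + 1) • dcoef (a0 - b0) (a1 - b1) n n' c c' (k + 1 + 1) =
        ∑ j ∈ Finset.range n, s ^ (j + 2) • c j - ∑ j ∈ Finset.range n', s ^ (j + 2) • c' j := by
      rw [← ext_sum n (max n n') (le_max_left _ _) c s, ← ext_sum n' (max n n') (le_max_right _ _) c' s,
        ← Finset.sum_sub_distrib]
      refine Finset.sum_congr rfl (fun j _ => ?_)
      rw [← smul_sub]
      rfl
    rw [h2]
    have h3 : s ^ (0 + 1) • dcoef (a0 - b0) (a1 - b1) n n' c c' (0 + 1) = s • a1 - s • b1 := by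
      rw [← smul_sub, zero_add, pow_one]
      rfl
    have h4 : s ^ 0 • dcoef (a0 - b0) (a1 - b1) n n' c c' 0 = a0 - b0 := by
      rw [pow_zero, one_smul]
      rfl
    rw [h3, h4]
    have h5 := sub_eq_zero.mpr h1
    rw [← h5]
    abel)
  have h1 := key 1 (by omega)
  exact sub_eq_zero.mp h1



/-- linear part of `(p + s q)^m` -/
theorem pow_linear {F K : Type*} [Field F] [Ring K] [Algebra F K] (m : ℕ) (p q : K) :
    ∃ (n : ℕ) (c : ℕ → K), ∀ s : F, (p + s • q) ^ m =
      p ^ m + s • (∑ i ∈ Finset.range m, p ^ i * q * p ^ (m - 1 - i)) +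
        ∑ j ∈ Finset.range n, s ^ (j + 2) • c j := by
  induction m with
  | zero => exact ⟨0, fun _ => 0, fun s => by simp⟩
  | succ m ih =>
    obtain ⟨n, c, h⟩ := ih
    set L : K := ∑ i ∈ Finset.range m, p ^ i * q * p ^ (m - 1 - i) with hL
    have hL' : ∑ i ∈ Finset.range (m + 1), p ^ i * q * p ^ (m + 1 - 1 - i) = L * p + p ^ m * q := by
      rw [Finset.sum_range_succ, hL, Finset.sum_mul]
      congr 1
      · refine Finset.sum_congr rfl fun i hi => ?_
        have hi' := Finset.mem_range.mp hi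
        have e : m + 1 - 1 - i = (m - 1 - i) + 1 := by omega
        rw [e, pow_succ p (m - 1 - i)]
        simp only [mul_assoc]
      · have e : m + 1 - 1 - m = 0 := by omega
        rw [e, pow_zero, mul_one]
    let d : ℕ → K := fun j => if j < n then c j * p else 0
    let e : ℕ → K := fun j => Nat.casesOn j (L * q) (fun j => c j * q)
    refine ⟨n + 1, fun j => d j + e j, fun s => ?_⟩
    have hd : ∑ j ∈ Finset.range (n + 1), s ^ (j + 2) • d j =
        (∑ j ∈ Finset.range n, s ^ (j + 2) • c j) * p := by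
      rw [Finset.sum_range_succ, Finset.sum_mul]
      have h0 : d n = 0 := if_neg (lt_irrefl n)
      rw [h0, smul_zero, add_zero]
      refine Finset.sum_congr rfl fun j hj => ?_
      have h1 : d j = c j * p := if_pos (Finset.mem_range.mp hj)
      rw [h1, smul_mul_assoc]
    have he : ∑ j ∈ Finset.range (n + 1), s ^ (j + 2) • e j =
        (∑ j ∈ Finset.range n, s ^ (j + 2) • c j) * (s • q) + s ^ 2 • (L * q) := by
      rw [Finset.sum_range_succ', Finset.sum_mul]
      congr 1
      refine Finset.sum_congr rfl fun j _ => ?_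
      show s ^ (j + 1 + 2) • (c j * q) = _
      rw [smul_mul_smul_comm]
      congr 1
      ring
    rw [hL', pow_succ, h s]
    have hsplit : ∑ j ∈ Finset.range (n + 1), s ^ (j + 2) • (d j + e j) =
        ∑ j ∈ Finset.range (n + 1), s ^ (j + 2) • d j +
          ∑ j ∈ Finset.range (n + 1), s ^ (j + 2) • e j := by
      rw [← Finset.sum_add_distrib]
      exact Finset.sum_congr rfl fun j _ => smul_add _ _ _
    rw [hsplit, hd, he]
    simp only [add_mul, mul_add, smul_add, smul_mul_assoc, mul_smul_comm, smul_smul, pow_succ p m,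
      pow_two]
    abel




theorem pigeon {F : Type*} [Uncountable F] (m : F → ℕ) : ∃ k, {s | m s = k}.Infinite := by
  by_contra hcon
  have h : ∀ k, {s | m s = k}.Finite := by
    intro k
    by_contra hk
    exact hcon ⟨k, hk⟩
  have hc : (⋃ k, {s | m s = k}).Countable := Set.countable_iUnion fun k => (h k).countable
  have hu : (⋃ k, {s | m s = k}) = Set.univ := by
    ext s
    simp
  rw [hu] at hc
  exact not_countable (Set.countable_univ_iff.1 hc)



theorem alg1_tel {K : Type*} [Ring K] (c d : K) (m : ℕ) :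
    c * (∑ i ∈ Finset.range m, c ^ i * d * c ^ (m - 1 - i)) -
      (∑ i ∈ Finset.range m, c ^ i * d * c ^ (m - 1 - i)) * c = c ^ m * d - d * c ^ m := by
  induction m with
  | zero => simp
  | succ m ih =>
    have h : ∑ i ∈ Finset.range (m + 1), c ^ i * d * c ^ (m + 1 - 1 - i) =
        (∑ i ∈ Finset.range m, c ^ i * d * c ^ (m - 1 - i)) * c + c ^ m * d := by
      rw [Finset.sum_range_succ, Finset.sum_mul]
      congr 1
      · apply Finset.sum_congr rfl
        intro i hi
        have hi' : i < m := Finset.mem_range.1 hi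
        rw [mul_assoc _ _ c, ← pow_succ]
        congr 2
        omega
      · simp
    rw [h]
    set S := ∑ i ∈ Finset.range m, c ^ i * d * c ^ (m - 1 - i) with hS
    have h1 : c * (S * c + c ^ m * d) - (S * c + c ^ m * d) * c =
        (c * S - S * c) * c + (c * c ^ m * d - c ^ m * d * c) := by noncomm_ring
    rw [h1, ih, pow_succ' c m]
    have h2 : c * c ^ m = c ^ m * c := by rw [← pow_succ', ← pow_succ]
    have h3 : d * (c * c ^ m) = d * c ^ m * c := by rw [h2, mul_assoc]
    rw [h3]
    noncomm_ring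

theorem alg1 {K : Type*} [Ring K] (a b : K) (m : ℕ)
    (h : ∑ i ∈ Finset.range m, (a * a) ^ i * (b * a) * (a * a) ^ (m - 1 - i) =
      a ^ m * ∑ i ∈ Finset.range m, a ^ i * b * a ^ (m - 1 - i)) :
    a ^ m * (a ^ (m + 1) * b - b * a ^ (m + 1)) = (a ^ (m + 1) * b - b * a ^ (m + 1)) * a ^ m := by
  have e1 := alg1_tel a b m
  have e2 := alg1_tel (a * a) (b * a) m
  rw [h] at e2
  set S := ∑ i ∈ Finset.range m, a ^ i * b * a ^ (m - 1 - i) with hS
  have hpp : (a * a) ^ m = a ^ m * a ^ m := (Commute.refl a).mul_pow m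
  rw [hpp] at e2
  rw [pow_succ a m]
  have hc : a * a ^ m = a ^ m * a := by rw [← pow_succ', ← pow_succ]
  generalize a ^ m = p at *
  have e1' : a * S = S * a + (p * b - b * p) := by rw [← e1]; abel
  have e3 : a * a * (p * S) - p * S * (a * a) =
      p * (a * (p * b - b * p) + (p * b - b * p) * a) := by
    have : a * a * (p * S) = p * (a * (a * S)) := by
      calc a * a * (p * S) = a * (a * p) * S := by noncomm_ring
        _ = a * (p * a) * S := by rw [hc]
        _ = (a * p) * a * S := by noncomm_ring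
        _ = (p * a) * a * S := by rw [hc]
        _ = p * (a * (a * S)) := by noncomm_ring
    rw [this, e1']
    have : a * (S * a + (p * b - b * p)) = (a * S) * a + a * (p * b - b * p) := by noncomm_ring
    rw [this, e1']
    noncomm_ring
  rw [e3] at e2
  have e4 : p * (a * (p * b - b * p) + (p * b - b * p) * a) - (p * p * (b * a) - b * a * (p * p))
      = 0 := by rw [e2]; exact sub_self _
  rw [← sub_eq_zero]
  have hz : p * (p * a * b - b * (p * a)) - (p * a * b - b * (p * a)) * p =
      p * (a * (p * b - b * p) + (p * b - b * p) * a) - (p * p * (b * a) - b * a * (p * p))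
      - p * (a * p - p * a) * b - b * (a * p - p * a) * p := by noncomm_ring
  rw [hz, e4, hc]
  simp



/-- if `γ` commutes with `β` and with `[β, b]`, then `γ` commutes with `[β ^ k, b]`. -/
theorem alg2 {K : Type*} [Ring K] (β γ b : K) (h1 : γ * β = β * γ)
    (h2 : γ * (β * b - b * β) = (β * b - b * β) * γ) (k : ℕ) :
    γ * (β ^ k * b - b * β ^ k) = (β ^ k * b - b * β ^ k) * γ := by
  induction k with
  | zero => simp
  | succ k ih =>
    have e : β ^ (k + 1) * b - b * β ^ (k + 1) = β * (β ^ k * b - b * β ^ k) + (β * b - b * β) * β ^ k := by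
      rw [pow_succ']
      noncomm_ring
    have c1 : Commute γ β := h1
    have c2 : Commute γ (β * b - b * β) := h2
    have c3 : Commute γ (β ^ k * b - b * β ^ k) := ih
    have c4 : Commute γ (β ^ k) := c1.pow_right k
    rw [e]
    exact ((c1.mul_right c3).add_right (c2.mul_right c4)).eq

/-- if `α` commutes with `[α, b]` then `α ^ k` commutes with `[α ^ k, b]`. -/
theorem alg3 {K : Type*} [Ring K] (α b : K) (h : α * (α * b - b * α) = (α * b - b * α) * α)
    (k : ℕ) : α ^ k * (α ^ k * b - b * α ^ k) = (α ^ k * b - b * α ^ k) * α ^ k := by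
  have c : Commute α (α ^ k * b - b * α ^ k) := alg2 α α b rfl h k
  exact (c.pow_left k).eq

/-- if `a ^ m` commutes with `[a ^ (m + 1), b]` then `α = a ^ (m * (m + 1))` commutes with `[α, b]`. -/
theorem alg4 {K : Type*} [Ring K] (a b : K) (m : ℕ)
    (h : a ^ m * (a ^ (m + 1) * b - b * a ^ (m + 1)) = (a ^ (m + 1) * b - b * a ^ (m + 1)) * a ^ m) :
    a ^ (m * (m + 1)) * (a ^ (m * (m + 1)) * b - b * a ^ (m * (m + 1))) =
      (a ^ (m * (m + 1)) * b - b * a ^ (m * (m + 1))) * a ^ (m * (m + 1)) := by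
  have h1 : a ^ m * a ^ (m + 1) = a ^ (m + 1) * a ^ m := by
    rw [← pow_add, ← pow_add, add_comm]
  have c : Commute (a ^ m) ((a ^ (m + 1)) ^ m * b - b * (a ^ (m + 1)) ^ m) :=
    alg2 (a ^ (m + 1)) (a ^ m) b h1 h m
  have c2 := c.pow_left (m + 1)
  have e1 : (a ^ m) ^ (m + 1) = a ^ (m * (m + 1)) := by rw [← pow_mul]
  have e2 : (a ^ (m + 1)) ^ m = a ^ (m * (m + 1)) := by rw [← pow_mul, mul_comm]
  rw [e1, e2] at c2
  exact c2.eq

/-- second step: `α` commutes with `[α, b]` and with `[α, b * b]`: then `α` or its square commutes with `b`. -/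
theorem alg5 {K : Type*} [Ring K] [NoZeroDivisors K] (α b : K)
    (h1 : α * (α * b - b * α) = (α * b - b * α) * α)
    (h2 : α * (α * (b * b) - (b * b) * α) = (α * (b * b) - (b * b) * α) * α) :
    (α * α) * b = b * (α * α) := by
  obtain ⟨c, hc⟩ : ∃ c, c = α * b - b * α := ⟨_, rfl⟩
  rw [← hc] at h1
  have e1 : α * (b * b) - (b * b) * α = c * b + b * c := by
    rw [hc]; noncomm_ring
  rw [e1] at h2
  have e2 : c * c + c * c = (α * (c * b + b * c) - (c * b + b * c) * α)
      - ((α * c - c * α) * b + b * (α * c - c * α)) := by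
    have : c * c + c * c = c * (α * b - b * α) + (α * b - b * α) * c := by rw [← hc]
    rw [this]
    noncomm_ring
  rw [h2, h1] at e2
  have e3 : (c + c) * c = 0 := by
    rw [add_mul, e2]; noncomm_ring
  have e4 : (α * α) * b - b * (α * α) = (c + c) * α := by
    have : (α * α) * b - b * (α * α) = α * (α * b - b * α) + (α * b - b * α) * α := by noncomm_ring
    rw [this, ← hc, h1]
    noncomm_ring
  rcases mul_eq_zero.mp e3 with h | h
  · rw [h, zero_mul] at e4
    exact sub_eq_zero.mp e4
  · rw [h, add_zero, zero_mul] at e4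
    exact sub_eq_zero.mp e4


theorem cancel {K : Type*} [Ring K] [NoZeroDivisors K] (x y : K)
    (h : ∃ n : ℕ, 2 ≤ n ∧ (x * y) ^ n = x ^ n * y ^ n) :
    ∃ m : ℕ, 1 ≤ m ∧ (y * x) ^ m = x ^ m * y ^ m := by
  by_cases hx : x = 0
  · exact ⟨1, le_rfl, by simp [hx]⟩
  by_cases hy : y = 0
  · exact ⟨1, le_rfl, by simp [hy]⟩
  obtain ⟨n, hn, h⟩ := h
  obtain ⟨m, rfl⟩ : ∃ m, n = m + 1 := ⟨n - 1, by omega⟩
  refine ⟨m, by omega, ?_⟩
  have e1 : ∀ k : ℕ, (x * y) ^ (k + 1) = x * ((y * x) ^ k * y) := by
    intro k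
    induction k with
    | zero => simp
    | succ k ih =>
      rw [pow_succ, ih, pow_succ]
      simp only [mul_assoc]
  rw [e1, pow_succ' x, pow_succ y, mul_assoc] at h
  have h2 := mul_left_cancel₀ hx h
  rw [← mul_assoc] at h2
  exact mul_right_cancel₀ hy h2



/-- If every element of `D` has a positive power commuting with any given element of `D`
(a domain over an uncountable field of exponential characteristic `p`), then a `p`-power does. -/
theorem exp_char_power {F K : Type*} [Field F] [Uncountable F] [Ring K] [NoZeroDivisors K]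
    [Nontrivial K] [Algebra F K] (p : ℕ) [ExpChar F p] (D : NonUnitalSubalgebra F K)
    (h : ∀ a ∈ D, ∀ b ∈ D, ∃ N : ℕ, 1 ≤ N ∧ a ^ N * b = b * a ^ N) :
    ∀ a ∈ D, ∀ b ∈ D, ∃ v : ℕ, a ^ (p ^ v) * b = b * a ^ (p ^ v) := by
  intro a ha b hb
  by_cases ha0 : a = 0
  · refine ⟨0, ?_⟩
    simp [ha0]
  obtain ⟨N, hN1, hN⟩ := h a ha b hb
  have hpow : ∀ n : ℕ, a ^ (n + 1) ∈ D := by
    intro n
    induction n with
    | zero => simpa using ha
    | succ n ih =>
      rw [pow_succ]
      exact D.mul_mem ih ha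
  have hzD : a ^ N ∈ D := by
    obtain ⟨n, rfl⟩ : ∃ n, N = n + 1 := ⟨N - 1, by omega⟩
    exact hpow n
  have hs : ∀ s : F, ∃ M : ℕ, 1 ≤ M ∧ (a ^ N + s • a) ^ M * b = b * (a ^ N + s • a) ^ M := by
    intro s
    exact h _ (D.add_mem hzD (SMulMemClass.smul_mem s ha)) b hb
  choose M hM1 hM2 using hs
  obtain ⟨k, hk⟩ := pigeon M
  obtain ⟨s0, hs0⟩ := hk.nonempty
  have hk1 : 1 ≤ k := by
    have := hM1 s0
    rw [Set.mem_ofPred_eq] at hs0
    omega
  have hdec : ∃ v M' : ℕ, k = p ^ v * M' ∧ (M' : F) ≠ 0 := by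
    rcases expChar_is_prime_or_one F p with hp | hp
    · haveI : CharP F p := by
        rcases ‹ExpChar F p› with _ | ⟨hprime⟩
        · exact absurd hp (by norm_num)
        · assumption
      obtain ⟨e, n', hn', hkn⟩ := Nat.exists_eq_pow_mul_and_not_dvd (n := k) (by omega) p hp.ne_one
      refine ⟨e, n', hkn, ?_⟩
      intro h0
      exact hn' ((CharP.cast_eq_zero_iff F p n').mp h0)
    · subst hp
      haveI : CharZero F := charZero_of_expChar_one' F
      refine ⟨0, k, by simp, ?_⟩
      exact_mod_cast (by omega : k ≠ 0)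
  obtain ⟨v, M', hkM, hM'0⟩ := hdec
  refine ⟨v, ?_⟩
  haveI : ExpChar K p := expChar_of_injective_algebraMap (algebraMap F K).injective p
  have hM'1 : 1 ≤ M' := by
    rcases Nat.eq_zero_or_pos M' with h0 | h0
    · rw [h0] at hM'0; simp at hM'0
    · exact h0
  obtain ⟨Z, hZ⟩ : ∃ Z : K, Z = (a ^ N) ^ (p ^ v) := ⟨_, rfl⟩
  obtain ⟨A, hA⟩ : ∃ A : K, A = a ^ (p ^ v) := ⟨_, rfl⟩
  have hZb : Commute Z b := by
    rw [hZ]
    exact Commute.pow_left hN _
  have hZA : Commute A Z := by
    rw [hZ, hA, ← pow_mul]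
    exact Commute.pow_pow_self a _ _
  have hZ0 : Z ≠ 0 := by
    rw [hZ]
    exact pow_ne_zero _ (pow_ne_zero _ ha0)
  have hexp : ∀ s : F, (a ^ N + s • a) ^ (p ^ v) = Z + (s ^ (p ^ v)) • A := by
    intro s
    have hc : Commute (a ^ N) (s • a) := (Commute.pow_self a N).smul_right s
    rw [add_pow_expChar_pow_of_commute _ _ hc, _root_.smul_pow, hZ, hA]
  rw [← hA]
  let c : ℕ → K := fun m => A ^ m * Z ^ (M' - m) * (M'.choose m : K) * b
    - b * (A ^ m * Z ^ (M' - m) * (M'.choose m : K))
  have hSinf : ((fun s : F => s ^ (p ^ v)) '' {s | M s = k}).Infinite := by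
    apply Set.Infinite.image _ hk
    intro x _ y _ hxy
    have : Function.Injective (iterateFrobenius F p v) := (iterateFrobenius F p v).injective
    apply this
    simpa [iterateFrobenius_def] using hxy
  have hc1 := poly_unique (F := F) (M' + 1) c _ hSinf (by
    rintro t ⟨s, hs, rfl⟩
    have h1 := hM2 s
    rw [Set.mem_ofPred_eq] at hs
    rw [hs, hkM, pow_mul, hexp s] at h1
    show ∑ j ∈ Finset.range (M' + 1), (s ^ (p ^ v)) ^ j • c j = 0
    have hcomm : Commute (s ^ (p ^ v) • A) Z := hZA.smul_left _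
    rw [add_comm, hcomm.add_pow] at h1
    rw [Finset.sum_mul, Finset.mul_sum] at h1
    have h2 : ∑ j ∈ Finset.range (M' + 1), (s ^ (p ^ v)) ^ j • c j
        = ∑ i ∈ Finset.range (M' + 1), (s ^ p ^ v • A) ^ i * Z ^ (M' - i) * (M'.choose i : K) * b
          - ∑ i ∈ Finset.range (M' + 1), b * ((s ^ p ^ v • A) ^ i * Z ^ (M' - i) * (M'.choose i : K)) := by
      rw [← Finset.sum_sub_distrib]
      apply Finset.sum_congr rfl
      intro i _
      simp only [c, _root_.smul_pow, smul_sub, smul_mul_assoc, mul_smul_comm]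
    rw [h2, h1, sub_self]) 1 (by omega)
  have h3 : (A * b - b * A) * (Z ^ (M' - 1) * (M' : K)) = 0 := by
    have h4 : c 1 = A * Z ^ (M' - 1) * (M' : K) * b - b * (A * Z ^ (M' - 1) * (M' : K)) := by
      simp only [c, pow_one, Nat.choose_one_right]
    rw [h4] at hc1
    have h5 : Z ^ (M' - 1) * (M' : K) * b = b * (Z ^ (M' - 1) * (M' : K)) := by
      have : Commute (Z ^ (M' - 1) * (M' : K)) b :=
        Commute.mul_left (hZb.pow_left _) (Nat.cast_commute M' b)
      exact this
    calc (A * b - b * A) * (Z ^ (M' - 1) * (M' : K))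
        = A * (b * (Z ^ (M' - 1) * (M' : K))) - b * (A * Z ^ (M' - 1) * (M' : K)) := by
          simp only [sub_mul, mul_assoc]
      _ = A * (Z ^ (M' - 1) * (M' : K) * b) - b * (A * Z ^ (M' - 1) * (M' : K)) := by rw [h5]
      _ = A * Z ^ (M' - 1) * (M' : K) * b - b * (A * Z ^ (M' - 1) * (M' : K)) := by
          simp only [mul_assoc]
      _ = 0 := hc1
  have hMK : (M' : K) ≠ 0 := by
    intro h0
    apply hM'0
    apply (algebraMap F K).injective
    rw [map_natCast, h0, map_zero]
  rcases mul_eq_zero.mp h3 with h6 | h6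
  · exact sub_eq_zero.mp h6
  · exact absurd h6 (mul_ne_zero (pow_ne_zero _ hZ0) hMK)




/-- Characteristic `p` end game: in a domain of prime characteristic, if every element of the
subalgebra `D` has a `p`-power commuting with any given element of `D`, then `D` is commutative. -/
theorem char_p_final {F K : Type*} [Field F] [Ring K] [NoZeroDivisors K] [Algebra F K]
    (p : ℕ) [Fact p.Prime] [CharP K p] (D : NonUnitalSubalgebra F K)
    (h : ∀ a ∈ D, ∀ b ∈ D, ∃ v : ℕ, a ^ (p ^ v) * b = b * a ^ (p ^ v)) :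
    ∀ a ∈ D, ∀ b ∈ D, a * b = b * a := by
  classical
  intro a ha b hb
  by_contra hab
  have hp : p.Prime := Fact.out
  -- the iterated commutator
  let φ : K → K := fun x => a * x - x * a
  have hφD : ∀ j, φ^[j] b ∈ D := by
    intro j
    induction j with
    | zero => simpa using hb
    | succ j ih =>
      rw [Function.iterate_succ_apply']
      exact D.sub_mem (D.mul_mem ha ih) (D.mul_mem ih ha)
  have hE : CharP (AddMonoid.End K) p := by
    refine charP_of_injective_ringHom (f := Module.toAddMonoidEnd K K) ?_ p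
    intro x y hxy
    have h0 := congrArg (fun f : AddMonoid.End K => f 1) hxy
    have h1 : x * 1 = y * 1 := h0
    simpa using h1
  have hiter : ∀ (v : ℕ), φ^[p ^ v] b = a ^ (p ^ v) * b - b * a ^ (p ^ v) := by
    intro v
    let L : AddMonoid.End K := AddMonoidHom.mulLeft a
    let R : AddMonoid.End K := AddMonoidHom.mulRight a
    have hc : Commute L R := by
      show L * R = R * L
      ext x
      show a * (x * a) = (a * x) * a
      rw [mul_assoc]
    have h1 := sub_pow_char_pow_of_commute (p := p) v hc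
    have hL : ∀ n x, (L ^ n) x = a ^ n * x := by
      intro n
      induction n with
      | zero => intro x; simp
      | succ n ih =>
        intro x
        rw [pow_succ]
        show (L ^ n) (a * x) = _
        rw [ih, pow_succ, mul_assoc]
    have hR : ∀ n x, (R ^ n) x = x * a ^ n := by
      intro n
      induction n with
      | zero => intro x; simp
      | succ n ih =>
        intro x
        rw [pow_succ]
        show (R ^ n) (x * a) = _
        rw [ih, pow_succ', mul_assoc]
    have hLR : ∀ n x, ((L - R) ^ n) x = φ^[n] x := by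
      intro n
      induction n with
      | zero => intro x; simp
      | succ n ih =>
        intro x
        rw [pow_succ, Function.iterate_succ_apply]
        show ((L - R) ^ n) (a * x - x * a) = _
        rw [ih]
    rw [← hLR, h1]
    show (L ^ (p ^ v)) b - (R ^ (p ^ v)) b = _
    rw [hL, hR]
  have hex : ∃ n, φ^[n] b = 0 := by
    obtain ⟨v, hv⟩ := h a ha b hb
    exact ⟨p ^ v, by rw [hiter, hv, sub_self]⟩
  have hfind := Nat.find_spec hex
  have hmin := fun m => Nat.find_min hex (m := m)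
  set n := Nat.find hex with hn
  have hn0 : n ≠ 0 := by
    intro h0
    rw [h0] at hfind
    simp at hfind
    apply hab
    rw [hfind]; simp
  have hn1 : n ≠ 1 := by
    intro h1
    rw [h1] at hfind
    apply hab
    have : a * b - b * a = 0 := by simpa [φ] using hfind
    exact sub_eq_zero.mp this
  obtain ⟨m, hm⟩ : ∃ m, n = m + 2 := ⟨n - 2, by omega⟩
  set c := φ^[m] b with hcdef
  set d := φ^[m+1] b with hddef
  have hcD : c ∈ D := hφD m
  have hdD : d ∈ D := hφD (m+1)
  have hd : d = a * c - c * a := by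
    rw [hddef, Function.iterate_succ_apply']
  have hd0 : d ≠ 0 := by
    have := hmin (m+1) (by omega)
    exact this
  have hda : a * d = d * a := by
    have h2 : φ^[m+2] b = 0 := by rw [← hm]; exact hfind
    rw [Function.iterate_succ_apply'] at h2
    exact sub_eq_zero.mp h2
  obtain ⟨r, hr⟩ := h d hdD c hcD
  set q := p ^ r with hq
  have hq0 : 0 < q := pow_pos hp.pos r
  set z := d ^ q with hz
  have had : Commute a d := hda
  have hza : Commute z a := (had.pow_right q).symm
  have hzc : Commute z c := hr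
  have hzd : Commute z d := (Commute.refl d).pow_left q
  set u := d ^ (q - 1) * c * a with hu
  have hzu : Commute z u := ((hzd.pow_right (q-1)).mul_right hzc).mul_right hza
  have hdcD : ∀ k : ℕ, d ^ k * c ∈ D := by
    intro k
    induction k with
    | zero => simpa using hcD
    | succ k ih =>
      rw [pow_succ', mul_assoc]
      exact D.mul_mem hdD ih
  have huD : u ∈ D := D.mul_mem (hdcD _) ha
  have hau : a * u = (u + z) * a := by
    have e1 : a * c = c * a + d := by rw [hd]; abel
    have e2 : a * d ^ (q - 1) = d ^ (q - 1) * a := had.pow_right (q-1)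
    have e3 : d ^ (q - 1) * d = z := by
      rw [hz, ← pow_succ]; congr 1; omega
    calc a * u = (a * d ^ (q - 1)) * c * a := by rw [hu]; simp only [mul_assoc]
      _ = d ^ (q - 1) * (a * c) * a := by rw [e2]; simp only [mul_assoc]
      _ = (d ^ (q - 1) * c * a + d ^ (q - 1) * d) * a := by rw [e1, mul_add, mul_assoc (d ^ (q-1)) c a]
      _ = (u + z) * a := by rw [e3]
  have hk : ∀ k : ℕ, a * u ^ k = (u + z) ^ k * a := by
    intro k
    induction k with
    | zero => simp
    | succ k ih =>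
      rw [pow_succ, ← mul_assoc, ih, mul_assoc, hau, ← mul_assoc, ← pow_succ]
  obtain ⟨w, hw⟩ := h u huD a ha
  have h3 := hk (p ^ w)
  have h4 : (u + z) ^ (p ^ w) = u ^ (p ^ w) + z ^ (p ^ w) :=
    add_pow_char_pow_of_commute (p := p) w hzu.symm
  rw [h4, add_mul, hw] at h3
  have h5 : z ^ (p ^ w) * a = 0 := by
    have := h3
    exact (left_eq_add.mp this)
  rcases mul_eq_zero.mp h5 with h6 | h6
  · have h7 : z = 0 := eq_zero_of_pow_eq_zero h6
    rw [hz] at h7
    exact hd0 (eq_zero_of_pow_eq_zero h7)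
  · apply hab
    rw [h6]; simp

/-- second difference step -/
theorem second_diff {F K : Type*} [Field F] [Uncountable F] [Ring K] [Algebra F K]
    (D : NonUnitalSubalgebra F K)
    (h : ∀ x ∈ D, ∀ y ∈ D, ∃ m : ℕ, 1 ≤ m ∧ (y * x) ^ m = x ^ m * y ^ m) :
    ∀ a ∈ D, ∀ b ∈ D, ∃ N : ℕ, 1 ≤ N ∧
      a ^ N * (a ^ N * b - b * a ^ N) = (a ^ N * b - b * a ^ N) * a ^ N := by
  intro a ha b hb
  have h1 : ∀ s : F, ∃ m : ℕ, 1 ≤ m ∧ ((a + s • b) * a) ^ m = a ^ m * (a + s • b) ^ m := by
    intro s
    exact h a ha (a + s • b) (D.add_mem ha (D.smul_mem s hb))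
  choose M hM1 hM2 using h1
  obtain ⟨m, hm⟩ := pigeon M
  obtain ⟨s0, hs0⟩ := hm.nonempty
  have hm1 : 1 ≤ m := by
    have := hM1 s0
    simp only [Set.mem_ofPred_eq] at hs0
    omega
  obtain ⟨n, c, hc⟩ := pow_linear (F := F) m (a * a) (b * a)
  obtain ⟨n', c', hc'⟩ := pow_linear (F := F) m a b
  have key : ∑ i ∈ Finset.range m, (a * a) ^ i * (b * a) * (a * a) ^ (m - 1 - i) =
      a ^ m * ∑ i ∈ Finset.range m, a ^ i * b * a ^ (m - 1 - i) := by
    refine jet_unique (F := F) ((a * a) ^ m) _ (a ^ m * a ^ m) _ n n' c (fun j => a ^ m * c' j) _ hm ?_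
    intro s hs
    simp only [Set.mem_ofPred_eq] at hs
    have e1 := hM2 s
    rw [hs] at e1
    have e2 : (a + s • b) * a = a * a + s • (b * a) := by
      rw [add_mul, smul_mul_assoc]
    rw [e2, hc s, hc' s] at e1
    rw [e1, mul_add, mul_add, mul_smul_comm, Finset.mul_sum (s := Finset.range n')]
    simp only [mul_smul_comm]
  exact ⟨m * (m + 1), Nat.mul_pos hm1 (Nat.succ_pos m), alg4 a b m (alg1 a b m key)⟩

theorem pow_comm_of {F K : Type*} [Field F] [Uncountable F] [Ring K] [NoZeroDivisors K]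
    [Algebra F K] (D : NonUnitalSubalgebra F K)
    (h : ∀ x ∈ D, ∀ y ∈ D, ∃ n : ℕ, 2 ≤ n ∧ (x * y) ^ n = x ^ n * y ^ n) :
    ∀ a ∈ D, ∀ b ∈ D, ∃ N : ℕ, 1 ≤ N ∧ a ^ N * b = b * a ^ N := by
  have h' : ∀ x ∈ D, ∀ y ∈ D, ∃ m : ℕ, 1 ≤ m ∧ (y * x) ^ m = x ^ m * y ^ m :=
    fun x hx y hy => cancel x y (h x hx y hy)
  intro a ha b hb
  obtain ⟨N1, h11, h12⟩ := second_diff D h' a ha b hb
  obtain ⟨N2, h21, h22⟩ := second_diff D h' a ha (b * b) (D.mul_mem hb hb)
  have e1 := alg3 (a ^ N1) b h12 N2
  have e2 := alg3 (a ^ N2) (b * b) h22 N1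
  rw [← pow_mul] at e1 e2
  rw [Nat.mul_comm N2 N1] at e2
  have e3 := alg5 (a ^ (N1 * N2)) b e1 e2
  refine ⟨N1 * N2 + N1 * N2, ?_, ?_⟩
  · have : 0 < N1 * N2 := Nat.mul_pos h11 h21
    omega
  · rw [pow_add]; exact e3

/-- the domain case -/
theorem domain_comm {F K : Type*} [Field F] [Uncountable F] [Ring K] [NoZeroDivisors K]
    [Nontrivial K] [Algebra F K] (D : NonUnitalSubalgebra F K)
    (h : ∀ x ∈ D, ∀ y ∈ D, ∃ n : ℕ, 2 ≤ n ∧ (x * y) ^ n = x ^ n * y ^ n) :
    ∀ a ∈ D, ∀ b ∈ D, a * b = b * a := by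
  have h1 := pow_comm_of D h
  obtain ⟨p, hp⟩ := ExpChar.exists F
  have h2 := exp_char_power p D h1
  rcases hp with _ | ⟨hprime⟩
  · intro a ha b hb
    obtain ⟨v, hv⟩ := h2 a ha b hb
    simpa using hv
  · haveI : Fact p.Prime := ⟨hprime⟩
    haveI : CharP K p := charP_of_injective_algebraMap (algebraMap F K).injective p
    exact char_p_final p D h2

end Pool.Agent.Helper572.PowProd
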