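import Mathlib
import Pool.Agent.Helper572.PowProdDomain

set_option autoImplicit false
namespace Pool.Agent.Helper572.PowProd
open Finset Polynomial



/-- If `1 - s x` is a unit for all `s ≠ 0` and the dimension is countable, `x` is algebraic. -/
theorem algebraic_of_rank {F A : Type*} [Field F] [Uncountable F] [Ring A] [Algebra F A]
    (hrank : Module.rank F A ≤ Cardinal.aleph0) (x : A) (hx : ∀ s : F, IsUnit (1 - s • x)) :
    ∃ q : F[X], q ≠ 0 ∧ Polynomial.aeval x q = 0 := by
  classical
  obtain ⟨u, hu⟩ : ∃ u : {s : F // s ≠ 0} → A, ∀ s, u s * (1 - (s : F) • x) = 1 :=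
    ⟨fun s => (((hx (s : F)).unit⁻¹ : Aˣ) : A), fun s => (hx (s : F)).val_inv_mul⟩
  have hnot : ¬ LinearIndependent F u := by
    intro hli
    have h1 := hli.cardinal_lift_le_rank
    have h2 := h1.trans (Cardinal.lift_le.2 hrank)
    rw [Cardinal.lift_aleph0, Cardinal.lift_le_aleph0, Cardinal.mk_le_aleph0_iff] at h2
    have h3 : ({s : F | s ≠ 0} : Set F).Countable := Set.countable_coe_iff.1 h2
    have h4 : (Set.univ : Set F).Countable := by
      refine (h3.insert 0).mono ?_
      intro s _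
      by_cases hs : s = 0
      · exact Or.inl hs
      · exact Or.inr hs
    have h5 : Countable F := Set.countable_univ_iff.1 h4
    exact not_countable h5
  obtain ⟨T, c, hsum, s0, hs0, hc0⟩ := not_linearIndependent_iff.1 hnot
  obtain ⟨w, hw⟩ : ∃ w : {s : F // s ≠ 0} → F[X], ∀ t, w t = 1 - C (t : F) * X :=
    ⟨fun t => 1 - C (t : F) * X, fun _ => rfl⟩
  have haw : ∀ t, aeval x (w t) = 1 - (t : F) • x := by
    intro t
    rw [hw]
    simp [Algebra.smul_def]
  refine ⟨∑ s ∈ T, C (c s) * ∏ t ∈ T.erase s, w t, ?_, ?_⟩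
  · intro h0
    have h1 := congrArg (eval ((s0 : F)⁻¹)) h0
    rw [eval_finset_sum, eval_zero, Finset.sum_eq_single s0] at h1
    · rw [eval_mul, eval_C, eval_prod] at h1
      rcases mul_eq_zero.1 h1 with h2 | h2
      · exact hc0 h2
      · rw [Finset.prod_eq_zero_iff] at h2
        obtain ⟨t, ht, h3⟩ := h2
        rw [hw] at h3
        simp only [eval_sub, eval_one, eval_mul, eval_C, eval_X] at h3
        have h4 : (t : F) * (s0 : F)⁻¹ = 1 := (sub_eq_zero.1 h3).symm
        have h5 : (t : F) = s0 := by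
          rw [mul_inv_eq_one₀ s0.2] at h4
          exact h4
        exact (Finset.mem_erase.1 ht).1 (Subtype.ext h5)
    · intro s _ hs
      rw [eval_mul, eval_prod]
      have hmem : s0 ∈ T.erase s := Finset.mem_erase.2 ⟨hs.symm, hs0⟩
      rw [Finset.prod_eq_zero hmem, mul_zero]
      rw [hw]
      simp only [eval_sub, eval_one, eval_mul, eval_C, eval_X]
      rw [mul_inv_cancel₀ s0.2, sub_self]
    · intro h; exact absurd hs0 h
  · rw [map_sum]
    have hterm : ∀ s ∈ T, aeval x (C (c s) * ∏ t ∈ T.erase s, w t)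
        = (c s • u s) * aeval x (∏ t ∈ T, w t) := by
      intro s hs
      rw [map_mul, aeval_C, ← Finset.mul_prod_erase T w hs, map_mul, haw, smul_mul_assoc,
        ← mul_assoc (u s), hu, one_mul, Algebra.smul_def]
    rw [Finset.sum_congr rfl hterm, ← Finset.sum_mul, hsum, zero_mul]



theorem amitsur_unit {A : Type*} [Ring A] (x : A) (hx : x ∈ Ideal.jacobson (⊥ : Ideal A))
    (y : A) : IsUnit (1 + y * x) := by
  have h1 : ∀ y : A, ∃ z : A, z * (1 + y * x) = 1 := by
    intro y
    obtain ⟨z, hz⟩ := Ideal.mem_jacobson_iff.1 hx y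
    refine ⟨z, ?_⟩
    rw [Ideal.mem_bot] at hz
    have : z * (1 + y * x) = (z * y * x + z - 1) + 1 := by
      rw [mul_add, mul_one, mul_assoc]; abel
    rw [this, hz, zero_add]
  obtain ⟨z, hz⟩ := h1 y
  have hz2 : z = 1 + (-(z * y)) * x := by
    have : z + z * (y * x) = 1 := by rw [← hz, mul_add, mul_one]
    rw [neg_mul, mul_assoc, ← this]; abel
  obtain ⟨w, hw⟩ := h1 (-(z * y))
  rw [← hz2] at hw
  have hw2 : w = 1 + y * x := by
    calc w = w * (z * (1 + y * x)) := by rw [hz, mul_one]
      _ = (w * z) * (1 + y * x) := by rw [mul_assoc]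
      _ = _ := by rw [hw, one_mul]
  rw [hw2] at hw
  exact ⟨⟨1 + y * x, z, hw, hz⟩, rfl⟩

/-- Amitsur: the Jacobson radical of an algebra of countable dimension over an uncountable field is nil. -/
theorem amitsur {F A : Type*} [Field F] [Uncountable F] [Ring A] [Algebra F A]
    (hrank : Module.rank F A ≤ Cardinal.aleph0) (x : A) (hx : x ∈ Ideal.jacobson (⊥ : Ideal A)) :
    IsNilpotent x := by
  obtain ⟨q, hq0, hq⟩ := algebraic_of_rank hrank x (fun s => by
    have h1 := amitsur_unit x hx (algebraMap F A (-s))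
    have h2 : (1 : A) + algebraMap F A (-s) * x = 1 - s • x := by
      rw [← Algebra.smul_def, neg_smul, sub_eq_add_neg]
    rwa [h2] at h1)
  obtain ⟨r, hr1, hr2⟩ := Polynomial.exists_eq_pow_rootMultiplicity_mul_and_not_dvd q hq0 0
  rw [map_zero, sub_zero] at hr1 hr2
  rw [Polynomial.X_dvd_iff] at hr2
  set k := q.rootMultiplicity 0
  have hu : IsUnit (Polynomial.aeval x r) := by
    have h1 := amitsur_unit x hx ((r.coeff 0)⁻¹ • Polynomial.aeval x (Polynomial.divX r))
    have h2 : IsUnit (algebraMap F A (r.coeff 0)) := (IsUnit.mk0 _ hr2).map (algebraMap F A)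
    have h3 : Polynomial.aeval x r = algebraMap F A (r.coeff 0) *
        (1 + ((r.coeff 0)⁻¹ • Polynomial.aeval x (Polynomial.divX r)) * x) := by
      conv_lhs => rw [← Polynomial.divX_mul_X_add r]
      rw [map_add, map_mul, Polynomial.aeval_X, Polynomial.aeval_C, mul_add, mul_one,
        ← Algebra.smul_def, smul_mul_assoc, smul_smul, mul_inv_cancel₀ hr2, one_smul, add_comm]
    rw [h3]
    exact h2.mul h1
  refine ⟨k, ?_⟩
  rw [hr1, map_mul, map_pow, Polynomial.aeval_X] at hq
  exact (hu.mul_left_eq_zero).1 hq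



theorem nil_ideal_key {F U : Type*} [Field F] [Ring U] [Algebra F U] (x : U)
    (hx : ∀ y : U, IsNilpotent (y * x)) (u : U) (hu : u ∈ TwoSidedIdeal.span ({x} : Set U)) :
    ∃ W : Set U, W.Finite ∧ ∀ A : Subalgebra F U, W ⊆ (A : Set U) →
      ∃ u' : A, (u' : U) = u ∧ u' ∈ Ideal.jacobson (⊥ : Ideal A) := by
  induction hu using TwoSidedIdeal.span_induction with
  | mem v hv =>
    rw [Set.mem_singleton_iff] at hv
    subst hv
    refine ⟨{v}, Set.finite_singleton v, fun A hA => ?_⟩
    refine ⟨⟨v, hA rfl⟩, rfl, ?_⟩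
    rw [Ideal.mem_jacobson_iff]
    intro y
    have hnil : IsNilpotent (y * (⟨v, hA rfl⟩ : A)) := by
      obtain ⟨k, hk⟩ := hx (y : U)
      refine ⟨k, Subtype.ext ?_⟩
      rw [A.coe_pow, A.coe_mul, A.coe_zero]
      exact hk
    obtain ⟨w, hw⟩ := hnil.isUnit_one_add
    refine ⟨(w⁻¹ : Aˣ), ?_⟩
    rw [Ideal.mem_bot]
    have h1 : ((w⁻¹ : Aˣ) : A) * (1 + y * (⟨v, hA rfl⟩ : A)) = 1 := by
      rw [← hw]
      exact w.inv_mul
    rw [mul_add, mul_one] at h1
    rw [mul_assoc, sub_eq_zero, add_comm]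
    exact h1
  | zero => exact ⟨∅, Set.finite_empty, fun A _ => ⟨0, rfl, Ideal.zero_mem _⟩⟩
  | add a b _ _ ha hb =>
    obtain ⟨W1, hW1, h1⟩ := ha
    obtain ⟨W2, hW2, h2⟩ := hb
    refine ⟨W1 ∪ W2, hW1.union hW2, fun A hA => ?_⟩
    obtain ⟨a', ha', ha''⟩ := h1 A (Set.subset_union_left.trans hA)
    obtain ⟨b', hb', hb''⟩ := h2 A (Set.subset_union_right.trans hA)
    exact ⟨a' + b', by rw [A.coe_add, ha', hb'], Ideal.add_mem _ ha'' hb''⟩
  | neg a _ ha =>
    obtain ⟨W1, hW1, h1⟩ := ha
    refine ⟨W1, hW1, fun A hA => ?_⟩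
    obtain ⟨a', ha', ha''⟩ := h1 A hA
    exact ⟨-a', by rw [A.coe_neg, ha'], Submodule.neg_mem _ ha''⟩
  | left_absorb a b _ hb =>
    obtain ⟨W1, hW1, h1⟩ := hb
    refine ⟨insert a W1, hW1.insert a, fun A hA => ?_⟩
    obtain ⟨b', hb', hb''⟩ := h1 A ((Set.subset_insert a W1).trans hA)
    exact ⟨⟨a, hA (Set.mem_insert a W1)⟩ * b', by rw [A.coe_mul, hb'],
      Ideal.mul_mem_left _ _ hb''⟩
  | right_absorb a b _ hb =>
    obtain ⟨W1, hW1, h1⟩ := hb
    refine ⟨insert a W1, hW1.insert a, fun A hA => ?_⟩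
    obtain ⟨b', hb', hb''⟩ := h1 A ((Set.subset_insert a W1).trans hA)
    exact ⟨b' * ⟨a, hA (Set.mem_insert a W1)⟩, by rw [A.coe_mul, hb'],
      Ideal.mul_mem_right _ _ hb''⟩



/-- If the left ideal `U x` is nil, so is the two-sided ideal generated by `x` (uncountable base field). -/
theorem nil_ideal {F U : Type*} [Field F] [Uncountable F] [Ring U] [Algebra F U] (x : U)
    (hx : ∀ y : U, IsNilpotent (y * x)) :
    ∀ u ∈ TwoSidedIdeal.span ({x} : Set U), IsNilpotent u := by
  intro u hu
  obtain ⟨W, hW, h⟩ := nil_ideal_key (F := F) x hx u hu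
  obtain ⟨u', hu', hj⟩ := h (Algebra.adjoin F W) Algebra.subset_adjoin
  have hrank : Module.rank F (Algebra.adjoin F W) ≤ Cardinal.aleph0 := by
    refine (Algebra.rank_adjoin_le W).trans (max_le ?_ le_rfl)
    exact (Cardinal.lt_aleph0_iff_set_finite.2 hW).le
  have hn := amitsur (F := F) (A := Algebra.adjoin F W) hrank u' hj
  obtain ⟨k, hk⟩ := hn
  refine ⟨k, ?_⟩
  rw [← hu', ← Subalgebra.coe_pow, hk, Subalgebra.coe_zero]



/-- the set of ideals used in the application of the lemma of Zorn -/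
def exists_prime_S {U : Type*} [Ring U] (c : U) : Set (Ideal U) :=
  {I | I.IsTwoSided ∧ (∀ x, x * x ∈ I → x ∈ I) ∧ c ∉ I}

theorem exists_prime_comm {U : Type*} [Ring U] {Q : Ideal U} (h1 : Q.IsTwoSided)
    (h2 : ∀ x, x * x ∈ Q → x ∈ Q) {x y : U} (h : x * y ∈ Q) : y * x ∈ Q := by
  apply h2
  have h3 : (x * y) * x ∈ Q := h1.mul_mem_of_left x h
  have h4 : y * ((x * y) * x) ∈ Q := Q.mul_mem_left y h3
  have h5 : y * x * (y * x) = y * ((x * y) * x) := by simp only [mul_assoc]
  rw [h5]
  exact h4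

theorem exists_prime_ins {U : Type*} [Ring U] {Q : Ideal U} (h1 : Q.IsTwoSided)
    (h2 : ∀ x, x * x ∈ Q → x ∈ Q) {x y : U} (s : U) (h : x * y ∈ Q) : x * s * y ∈ Q := by
  apply exists_prime_comm h1 h2
  rw [← mul_assoc]
  exact h1.mul_mem_of_left s (exists_prime_comm h1 h2 h)

/-- the ideal of all `r` with `r * b ∈ Q` -/
def exists_prime_I {U : Type*} [Ring U] (Q : Ideal U) (b : U) : Ideal U where
  carrier := {r | r * b ∈ Q}
  add_mem' := by
    intro r s hr hs
    show (r + s) * b ∈ Q
    rw [add_mul]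
    exact Q.add_mem hr hs
  zero_mem' := by
    show (0 : U) * b ∈ Q
    rw [zero_mul]
    exact Q.zero_mem
  smul_mem' := by
    intro a r hr
    show a * r * b ∈ Q
    rw [mul_assoc]
    exact Q.mul_mem_left a hr

theorem exists_prime_mem {U : Type*} [Ring U] (Q : Ideal U) (b r : U) :
    r ∈ exists_prime_I Q b ↔ r * b ∈ Q := Iff.rfl

theorem exists_prime_dich {U : Type*} [Ring U] {c : U} {Q : Ideal U}
    (hQ : Maximal (· ∈ exists_prime_S c) Q) (b : U) :
    exists_prime_I Q b ≤ Q ∨ c * b ∈ Q := by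
  obtain ⟨h1, h2, h3⟩ := hQ.prop
  by_cases hc : c * b ∈ Q
  · exact Or.inr hc
  · left
    have hmem : exists_prime_I Q b ∈ exists_prime_S c := by
      refine ⟨⟨fun {a} s ha => ?_⟩, fun x hx => ?_, hc⟩
      · rw [exists_prime_mem] at ha ⊢
        exact exists_prime_ins h1 h2 s ha
      · rw [exists_prime_mem] at hx ⊢
        apply h2
        rw [mul_assoc] at hx
        have h4 := h1.mul_mem_of_left b (exists_prime_comm h1 h2 hx)
        have h5 : x * b * (x * b) = x * b * x * b := by simp only [mul_assoc]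
        rw [h5]
        exact h4
    have hle : Q ≤ exists_prime_I Q b := fun r hr => h1.mul_mem_of_left b hr
    exact hQ.le_of_ge hmem hle

/-- In a reduced unital ring every nonzero element is avoided by a completely prime ideal. -/
theorem exists_prime {U : Type*} [Ring U] (hred : ∀ x : U, x * x = 0 → x = 0) (c : U)
    (hc : c ≠ 0) : ∃ Q : Ideal U, Q.IsTwoSided ∧ c ∉ Q ∧ ∀ x y : U, x * y ∈ Q → x ∈ Q ∨ y ∈ Q := by
  have hbot : (⊥ : Ideal U) ∈ exists_prime_S c := by
    refine ⟨⟨fun {a} b ha => ?_⟩, fun x hx => ?_, fun h => hc ?_⟩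
    · rw [Submodule.mem_bot] at ha ⊢
      rw [ha, zero_mul]
    · rw [Submodule.mem_bot] at hx ⊢
      exact hred x hx
    · rwa [Submodule.mem_bot] at h
  obtain ⟨Q, _, hQ⟩ := zorn_le_nonempty₀ (exists_prime_S c) (by
    intro C hC hchain y hy
    have hdir : DirectedOn (· ≤ ·) C := hchain.directedOn
    have hne : C.Nonempty := ⟨y, hy⟩
    refine ⟨sSup C, ⟨⟨fun {a} b ha => ?_⟩, fun x hx => ?_, fun h => ?_⟩,
      fun z hz => le_sSup hz⟩
    · rw [Submodule.mem_sSup_of_directed hne hdir] at ha ⊢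
      obtain ⟨I, hI, haI⟩ := ha
      exact ⟨I, hI, (hC hI).1.mul_mem_of_left b haI⟩
    · rw [Submodule.mem_sSup_of_directed hne hdir] at hx ⊢
      obtain ⟨I, hI, hxI⟩ := hx
      exact ⟨I, hI, (hC hI).2.1 x hxI⟩
    · rw [Submodule.mem_sSup_of_directed hne hdir] at h
      obtain ⟨I, hI, hcI⟩ := h
      exact (hC hI).2.2 hcI) ⊥ hbot
  obtain ⟨h1, h2, h3⟩ := hQ.prop
  refine ⟨Q, h1, h3, fun x y hxy => ?_⟩
  by_contra hcon
  rw [not_or] at hcon
  obtain ⟨hx, hy⟩ := hcon
  have h4 : c * y ∈ Q := by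
    rcases exists_prime_dich hQ y with h | h
    · exact absurd (h hxy) hx
    · exact h
  have h5 : c * c ∈ Q := by
    rcases exists_prime_dich hQ c with h | h
    · exact absurd (h (exists_prime_comm h1 h2 h4)) hy
    · exact h
  exact h3 (h2 c h5)

theorem inr_iterate {F R : Type*} [Field F] [NonUnitalRing R] [Module F R] [IsScalarTower F R R]
    [SMulCommClass F R R] (x : R) (n : ℕ) :
    (Unitization.inr ((fun z : R => z * x)^[n] x) : Unitization F R) =
      (Unitization.inr x) ^ (n + 1) := by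
  induction n with
  | zero => simp
  | succ n ih =>
    rw [Function.iterate_succ_apply', Unitization.inr_mul, ih, ← pow_succ]

/-- the reduced case -/
theorem reduced_case {F R : Type*} [Field F] [Uncountable F] [NonUnitalRing R] [Module F R]
    [IsScalarTower F R R] [SMulCommClass F R R]
    (hred : ∀ x : R, x * x = 0 → x = 0)
    (hP : ∀ x y : R, ∃ n : ℕ, 1 ≤ n ∧ (fun z : R => z * (x * y))^[n] (x * y) =
      (fun z : R => z * x)^[n] x * (fun z : R => z * y)^[n] y) :
    ∀ x y : R, x * y = y * x := by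
  have hredU : ∀ u : Unitization F R, u * u = 0 → u = 0 := by
    intro u hu
    have h1 : u.toProd.1 = 0 := by
      have := congrArg (fun u : Unitization F R => u.toProd.1) hu
      simpa using this
    have h2 : u = Unitization.inr u.toProd.2 := by
      ext
      · simpa using h1
      · simp
    rw [h2, ← Unitization.inr_mul] at hu
    have h3 : u.toProd.2 * u.toProd.2 = 0 := by
      have := congrArg (fun u : Unitization F R => u.toProd.2) hu
      simpa using this
    rw [h2, hred _ h3]
    simp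
  intro x y
  by_contra hne
  have hc : (Unitization.inr (x * y - y * x) : Unitization F R) ≠ 0 := by
    intro h0
    have := congrArg (fun u : Unitization F R => u.toProd.2) h0
    have h' : x * y - y * x = 0 := this
    exact hne (sub_eq_zero.mp h')
  obtain ⟨Q, hQ2, hcQ, hQp⟩ := exists_prime hredU _ hc
  have := hQ2
  let K := Unitization F R ⧸ Q
  have hnz : NoZeroDivisors K := by
    refine ⟨?_⟩
    intro a b hab
    obtain ⟨a, rfl⟩ := Ideal.Quotient.mk_surjective a
    obtain ⟨b, rfl⟩ := Ideal.Quotient.mk_surjective b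
    rw [← map_mul, Ideal.Quotient.eq_zero_iff_mem] at hab
    rcases hQp a b hab with h | h
    · left; exact Ideal.Quotient.eq_zero_iff_mem.mpr h
    · right; exact Ideal.Quotient.eq_zero_iff_mem.mpr h
  have hnt : Nontrivial K := by
    refine ⟨⟨Ideal.Quotient.mk Q (Unitization.inr (x * y - y * x)), 0, ?_⟩⟩
    intro h0
    exact hcQ (Ideal.Quotient.eq_zero_iff_mem.mp h0)
  let D : NonUnitalSubalgebra F K :=
    { carrier := Set.range fun r : R => Ideal.Quotient.mk Q (Unitization.inr r : Unitization F R)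
      add_mem' := by
        rintro _ _ ⟨a, rfl⟩ ⟨b, rfl⟩
        exact ⟨a + b, by simp [Unitization.inr_add, map_add]⟩
      zero_mem' := ⟨0, by simp⟩
      mul_mem' := by
        rintro _ _ ⟨a, rfl⟩ ⟨b, rfl⟩
        exact ⟨a * b, by simp [Unitization.inr_mul, map_mul]⟩
      smul_mem' := by
        rintro s _ ⟨a, rfl⟩
        refine ⟨s • a, ?_⟩
        show Ideal.Quotient.mk Q (Unitization.inr (s • a)) = s • Ideal.Quotient.mk Q (Unitization.inr a)
        rw [Unitization.inr_smul]
        rfl }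
  have hD : ∀ u ∈ D, ∀ v ∈ D, ∃ n : ℕ, 2 ≤ n ∧ (u * v) ^ n = u ^ n * v ^ n := by
    rintro _ ⟨a, rfl⟩ _ ⟨b, rfl⟩
    obtain ⟨n, hn1, hn2⟩ := hP a b
    refine ⟨n + 1, by omega, ?_⟩
    have e := congrArg (fun r : R => Ideal.Quotient.mk Q (Unitization.inr r : Unitization F R)) hn2
    simp only [Unitization.inr_mul, inr_iterate, map_mul, map_pow] at e
    exact e
  have := domain_comm D hD _ ⟨x, rfl⟩ _ ⟨y, rfl⟩
  apply hcQ
  rw [← Ideal.Quotient.eq_zero_iff_mem]
  rw [Unitization.inr_sub, Unitization.inr_mul, Unitization.inr_mul, map_sub, map_mul, map_mul]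
  exact sub_eq_zero.mpr this

/-- square-zero elements vanish -/
theorem square_zero {F R : Type*} [Field F] [Uncountable F] [NonUnitalRing R] [Module F R]
    [IsScalarTower F R R] [SMulCommClass F R R]
    (hnil : ∀ I : TwoSidedIdeal R,
      (∀ x ∈ I, ∃ m : ℕ, (fun z : R => z * x)^[m] x = 0) → ∀ x ∈ I, x = 0)
    (hP : ∀ x y : R, ∃ n : ℕ, 1 ≤ n ∧ (fun z : R => z * (x * y))^[n] (x * y) =
      (fun z : R => z * x)^[n] x * (fun z : R => z * y)^[n] y) :
    ∀ x : R, x * x = 0 → x = 0 := by
  intro x hx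
  -- every `y * x`, `y` in the unitization, is nilpotent
  have hxx : (Unitization.inr x : Unitization F R) * Unitization.inr x = 0 := by
    rw [← Unitization.inr_mul, hx, Unitization.inr_zero]
  have hnx : ∀ r : R, ∃ k : ℕ, (Unitization.inr x * Unitization.inr r : Unitization F R) ^ k = 0 := by
    intro r
    obtain ⟨n, hn1, hn2⟩ := hP x r
    have e := congrArg (fun r : R => (Unitization.inr r : Unitization F R)) hn2
    simp only [Unitization.inr_mul, inr_iterate] at e
    refine ⟨n + 1, ?_⟩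
    rw [e]
    obtain ⟨k, rfl⟩ : ∃ k, n = k + 1 := ⟨n - 1, by omega⟩
    have : (Unitization.inr x : Unitization F R) ^ (k + 1 + 1) = 0 := by
      rw [pow_succ, pow_succ, mul_assoc, hxx, mul_zero]
    rw [this, zero_mul]
  have hyx : ∀ y : Unitization F R, IsNilpotent (y * Unitization.inr x) := by
    intro y
    obtain ⟨k, hk⟩ := hnx y.toProd.2
    have hmid : (Unitization.inr x : Unitization F R) * y * Unitization.inr x =
        Unitization.inr x * Unitization.inr y.toProd.2 * Unitization.inr x := by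
      have hy : y = algebraMap F _ y.toProd.1 + Unitization.inr y.toProd.2 := by
        rw [Unitization.algebraMap_eq_inl]
        ext <;> simp
      conv_lhs => rw [hy]
      rw [mul_add, add_mul, ← Algebra.commutes, mul_assoc, hxx, mul_zero, zero_add]
    have hpow : ∀ j : ℕ, (y * Unitization.inr x) ^ (j + 1) =
        y * ((Unitization.inr x * Unitization.inr y.toProd.2) ^ j * Unitization.inr x) := by
      intro j
      induction j with
      | zero => simp
      | succ j ih =>
        rw [pow_succ, ih, pow_succ]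
        calc y * ((Unitization.inr x * Unitization.inr y.toProd.2) ^ j * Unitization.inr x) *
              (y * Unitization.inr x)
            = y * ((Unitization.inr x * Unitization.inr y.toProd.2) ^ j *
                (Unitization.inr x * y * Unitization.inr x)) := by noncomm_ring
          _ = _ := by rw [hmid]; noncomm_ring
    exact ⟨k + 1, by rw [hpow, hk, zero_mul, mul_zero]⟩
  have hspan := nil_ideal (F := F) (Unitization.inr x : Unitization F R) hyx
  -- the contraction to `R`
  let I : TwoSidedIdeal R := TwoSidedIdeal.mk'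
    {r : R | (Unitization.inr r : Unitization F R) ∈
      TwoSidedIdeal.span ({Unitization.inr x} : Set (Unitization F R))}
    (by
      simp only [Set.mem_ofPred_eq]
      rw [Unitization.inr_zero]
      exact TwoSidedIdeal.zero_mem _)
    (by
      intro a b ha hb
      simp only [Set.mem_ofPred_eq] at *
      rw [Unitization.inr_add]
      exact TwoSidedIdeal.add_mem _ ha hb)
    (by
      intro a ha
      simp only [Set.mem_ofPred_eq] at *
      rw [Unitization.inr_neg]
      exact TwoSidedIdeal.neg_mem _ ha)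
    (by
      intro a b hb
      simp only [Set.mem_ofPred_eq] at *
      rw [Unitization.inr_mul]
      exact TwoSidedIdeal.mul_mem_left _ _ _ hb)
    (by
      intro a b ha
      simp only [Set.mem_ofPred_eq] at *
      rw [Unitization.inr_mul]
      exact TwoSidedIdeal.mul_mem_right _ _ _ ha)
  have hI : ∀ r ∈ I, ∃ m : ℕ, (fun z : R => z * r)^[m] r = 0 := by
    intro r hr
    have hr' : (Unitization.inr r : Unitization F R) ∈
      TwoSidedIdeal.span ({Unitization.inr x} : Set (Unitization F R)) := by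
      simpa [I, TwoSidedIdeal.mem_mk'] using hr
    obtain ⟨m, hm⟩ := hspan _ hr'
    refine ⟨m, ?_⟩
    have : (Unitization.inr ((fun z : R => z * r)^[m] r) : Unitization F R) = 0 := by
      rw [inr_iterate, pow_succ, hm, zero_mul]
    have := congrArg (fun u : Unitization F R => u.toProd.2) this
    simpa using this
  refine hnil I hI x ?_
  have : (Unitization.inr x : Unitization F R) ∈
      TwoSidedIdeal.span ({Unitization.inr x} : Set (Unitization F R)) :=
    TwoSidedIdeal.subset_span rfl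
  simpa [I, TwoSidedIdeal.mem_mk'] using this

theorem main {F R : Type*} [Field F] [Uncountable F] [NonUnitalRing R] [Module F R]
    [IsScalarTower F R R] [SMulCommClass F R R]
    (hnil : ∀ I : TwoSidedIdeal R,
      (∀ x ∈ I, ∃ m : ℕ, (fun z : R => z * x)^[m] x = 0) → ∀ x ∈ I, x = 0)
    (hP : ∀ x y : R, ∃ n : ℕ, 1 ≤ n ∧ (fun z : R => z * (x * y))^[n] (x * y) =
      (fun z : R => z * x)^[n] x * (fun z : R => z * y)^[n] y) :
    ∀ x y : R, x * y = y * x :=
  reduced_case (F := F) (square_zero (F := F) hnil hP) hP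

end Pool.Agent.Helper572.PowProd
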