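import Mathlib
import Pool.Agent.Helper572.PowProdMain

set_option autoImplicit false

namespace Pool.Agent.Helper572.NilComm

open Pool.Agent.Helper572.PowProd

/-- If `x * x = 0`, the right ideal `x R` is nil and `R` is an algebra over an uncountable field
without nonzero nil two-sided ideals, then `x = 0`. -/
theorem square_zero_of {F R : Type*} [Field F] [Uncountable F] [NonUnitalRing R] [Module F R]
    [IsScalarTower F R R] [SMulCommClass F R R]
    (hnil : ∀ I : TwoSidedIdeal R,
      (∀ x ∈ I, ∃ m : ℕ, (fun z : R => z * x)^[m] x = 0) → ∀ x ∈ I, x = 0)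
    (x : R) (hx : x * x = 0)
    (hxr : ∀ r : R, ∃ k : ℕ, (fun z : R => z * (x * r))^[k] (x * r) = 0) : x = 0 := by
  have hxx : (Unitization.inr x : Unitization F R) * Unitization.inr x = 0 := by
    rw [← Unitization.inr_mul, hx, Unitization.inr_zero]
  have hnx : ∀ r : R, ∃ k : ℕ, (Unitization.inr x * Unitization.inr r : Unitization F R) ^ k = 0 := by
    intro r
    obtain ⟨n, hn⟩ := hxr r
    refine ⟨n + 1, ?_⟩
    rw [← Unitization.inr_mul, ← inr_iterate, hn, Unitization.inr_zero]
  have hyx : ∀ y : Unitization F R, IsNilpotent (y * Unitization.inr x) := by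
    intro y
    obtain ⟨k, hk⟩ := hnx y.toProd.2
    have hmid : (Unitization.inr x : Unitization F R) * y * Unitization.inr x =
        Unitization.inr x * Unitization.inr y.toProd.2 * Unitization.inr x := by
      have hy : y = algebraMap F _ y.toProd.1 + Unitization.inr y.toProd.2 := by
        rw [Unitization.algebraMap_eq_inl]
        ext <;> simp
      conv_lhs => rw [hy]
      rw [mul_add, add_mul, ← Algebra.commutes, mul_assoc, hxx, mul_zero, zero_add]
    have hpow : ∀ j : ℕ, (y * Unitization.inr x) ^ (j + 1) =
        y * ((Unitization.inr x * Unitization.inr y.toProd.2) ^ j * Unitization.inr x) := by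
      intro j
      induction j with
      | zero => simp
      | succ j ih =>
        rw [pow_succ, ih, pow_succ]
        calc y * ((Unitization.inr x * Unitization.inr y.toProd.2) ^ j * Unitization.inr x) *
              (y * Unitization.inr x)
            = y * ((Unitization.inr x * Unitization.inr y.toProd.2) ^ j *
                (Unitization.inr x * y * Unitization.inr x)) := by noncomm_ring
          _ = _ := by rw [hmid]; noncomm_ring
    exact ⟨k + 1, by rw [hpow, hk, zero_mul, mul_zero]⟩
  have hspan := nil_ideal (F := F) (Unitization.inr x : Unitization F R) hyx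
  let I : TwoSidedIdeal R := TwoSidedIdeal.mk'
    {r : R | (Unitization.inr r : Unitization F R) ∈
      TwoSidedIdeal.span ({Unitization.inr x} : Set (Unitization F R))}
    (by
      simp only [Set.mem_ofPred_eq]
      rw [Unitization.inr_zero]
      exact TwoSidedIdeal.zero_mem _)
    (by
      intro a b ha hb
      simp only [Set.mem_ofPred_eq] at *
      rw [Unitization.inr_add]
      exact TwoSidedIdeal.add_mem _ ha hb)
    (by
      intro a ha
      simp only [Set.mem_ofPred_eq] at *
      rw [Unitization.inr_neg]
      exact TwoSidedIdeal.neg_mem _ ha)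
    (by
      intro a b hb
      simp only [Set.mem_ofPred_eq] at *
      rw [Unitization.inr_mul]
      exact TwoSidedIdeal.mul_mem_left _ _ _ hb)
    (by
      intro a b ha
      simp only [Set.mem_ofPred_eq] at *
      rw [Unitization.inr_mul]
      exact TwoSidedIdeal.mul_mem_right _ _ _ ha)
  have hI : ∀ r ∈ I, ∃ m : ℕ, (fun z : R => z * r)^[m] r = 0 := by
    intro r hr
    have hr' : (Unitization.inr r : Unitization F R) ∈
      TwoSidedIdeal.span ({Unitization.inr x} : Set (Unitization F R)) := by
      simpa [I, TwoSidedIdeal.mem_mk'] using hr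
    obtain ⟨m, hm⟩ := hspan _ hr'
    refine ⟨m, ?_⟩
    have : (Unitization.inr ((fun z : R => z * r)^[m] r) : Unitization F R) = 0 := by
      rw [inr_iterate, pow_succ, hm, zero_mul]
    have := congrArg (fun u : Unitization F R => u.toProd.2) this
    simpa using this
  refine hnil I hI x ?_
  have : (Unitization.inr x : Unitization F R) ∈
      TwoSidedIdeal.span ({Unitization.inr x} : Set (Unitization F R)) :=
    TwoSidedIdeal.subset_span rfl
  simpa [I, TwoSidedIdeal.mem_mk'] using this

/-- powers in the unitization, any commutative ring of scalars -/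
theorem inr_iterate_comm {S R : Type*} [CommRing S] [NonUnitalRing R] [Module S R]
    [IsScalarTower S R R] [SMulCommClass S R R] (x : R) (n : ℕ) :
    (Unitization.inr ((fun z : R => z * x)^[n] x) : Unitization S R) =
      (Unitization.inr x) ^ (n + 1) := by
  induction n with
  | zero => simp
  | succ n ih =>
    rw [Function.iterate_succ_apply', Unitization.inr_mul, ih, ← pow_succ]

theorem inr_inj {S R : Type*} [CommRing S] [NonUnitalRing R] [Module S R] {x y : R}
    (h : (Unitization.inr x : Unitization S R) = Unitization.inr y) : x = y := by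
  have := congrArg (fun u : Unitization S R => u.toProd.2) h
  simpa using this

/-- powers of the commutator of a square-zero element -/
theorem comm_pow {U : Type*} [Ring U] (x r : U) (hx : x * x = 0) (n : ℕ) :
    (x * r - r * x) ^ n * x = (x * r) ^ n * x := by
  induction n with
  | zero => simp
  | succ n ih =>
    have h1 : (x * r - r * x) * x = x * (r * x) := by
      rw [sub_mul, mul_assoc r x x, hx, mul_zero, sub_zero, mul_assoc]
    rw [pow_succ, mul_assoc, h1, ← mul_assoc, ih, pow_succ]
    simp only [mul_assoc]

theorem xr_nilpotent_aux (S : Type*) {R : Type*} [CommRing S] [NonUnitalRing R] [Module S R]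
    [IsScalarTower S R R] [SMulCommClass S R R] (x r : R) (hx : x * x = 0)
    (h : ∃ n : ℕ, (fun z : R => z * (x * r - r * x))^[n] (x * r - r * x) = 0) :
    ∃ k : ℕ, (fun z : R => z * (x * r))^[k] (x * r) = 0 := by
  obtain ⟨n, hn⟩ := h
  refine ⟨n + 1, ?_⟩
  apply inr_inj (S := S)
  have e1 : (Unitization.inr (x * r - r * x) : Unitization S R) ^ (n + 1) = 0 := by
    rw [← inr_iterate_comm, hn, Unitization.inr_zero]
  have hxx : (Unitization.inr x : Unitization S R) * Unitization.inr x = 0 := by
    rw [← Unitization.inr_mul, hx, Unitization.inr_zero]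
  have e2 := comm_pow (Unitization.inr x : Unitization S R) (Unitization.inr r) hxx (n + 1)
  rw [Unitization.inr_sub, Unitization.inr_mul, Unitization.inr_mul] at e1
  rw [e1, zero_mul] at e2
  rw [inr_iterate_comm, Unitization.inr_mul, Unitization.inr_zero, pow_succ, ← mul_assoc, ← e2,
    zero_mul]

/-- a ring without square-zero elements has no nilpotent elements -/
theorem eq_zero_of_nilpotent_aux (S : Type*) {R : Type*} [CommRing S] [NonUnitalRing R]
    [Module S R] [IsScalarTower S R R] [SMulCommClass S R R] (hred : ∀ x : R, x * x = 0 → x = 0)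
    (c : R) (h : ∃ n : ℕ, (fun z : R => z * c)^[n] c = 0) : c = 0 := by
  obtain ⟨n, hn⟩ := h
  induction n with
  | zero => simpa using hn
  | succ n ih =>
    apply ih
    apply hred
    apply inr_inj (S := S)
    have e1 : (Unitization.inr c : Unitization S R) ^ (n + 1 + 1) = 0 := by
      rw [← inr_iterate_comm, hn, Unitization.inr_zero]
    rw [Unitization.inr_mul, inr_iterate_comm, ← pow_add, Unitization.inr_zero]
    rw [show n + 1 + (n + 1) = (n + 1 + 1) + n by ring, pow_add, e1, zero_mul]

/-- If `x * x = 0` and the commutator `[x, r]` is nilpotent, then `x r` is nilpotent. -/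
theorem xr_nilpotent {R : Type*} [NonUnitalRing R] (x r : R) (hx : x * x = 0)
    (h : ∃ n : ℕ, (fun z : R => z * (x * r - r * x))^[n] (x * r - r * x) = 0) :
    ∃ k : ℕ, (fun z : R => z * (x * r))^[k] (x * r) = 0 :=
  xr_nilpotent_aux ℤ x r hx h

/-- a ring without square-zero elements has no nilpotent elements -/
theorem eq_zero_of_nilpotent {R : Type*} [NonUnitalRing R] (hred : ∀ x : R, x * x = 0 → x = 0)
    (c : R) (h : ∃ n : ℕ, (fun z : R => z * c)^[n] c = 0) : c = 0 :=
  eq_zero_of_nilpotent_aux ℤ hred c h

end Pool.Agent.Helper572.NilComm
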