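import Mathlib

set_option autoImplicit false

namespace Pool.Agent.Helper572.PAdic
open Finset



theorem choose_dvd (p s N k i l : ℕ) (hp : p.Prime) (hs : p ^ s ∣ N) (hk : 1 ≤ k) (hi : 1 ≤ i)
    (hil : 3 ≤ i + l) : p ^ (s + 3 * k - 1) ∣ N.choose i * p ^ (k * (i + l)) := by
  obtain ⟨v, i', hi', hiv⟩ := Nat.exists_eq_pow_mul_and_not_dvd (n := i) (by omega) p hp.ne_one
  have hi'pos : 0 < i' := by
    rcases Nat.eq_zero_or_pos i' with h | h
    · exfalso; apply hi'; rw [h]; exact dvd_zero p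
    · exact h
  have hpv : p ^ v ≤ i := by
    rw [hiv]; exact Nat.le_mul_of_pos_right _ hi'pos
  have h2v : 2 ^ v ≤ i := le_trans (Nat.pow_le_pow_left hp.two_le v) hpv
  have key : i * N.choose i = N * (N-1).choose (i-1) := by
    rcases Nat.eq_zero_or_pos N with h0 | h0
    · subst h0
      obtain ⟨j, rfl⟩ : ∃ j, i = j+1 := ⟨i-1, by omega⟩
      simp
    · obtain ⟨n, rfl⟩ : ∃ n, N = n+1 := ⟨N-1, by omega⟩
      obtain ⟨j, rfl⟩ : ∃ j, i = j+1 := ⟨i-1, by omega⟩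
      simp only [Nat.add_sub_cancel]
      rw [Nat.add_one_mul_choose_eq]; ring
  have h1 : p ^ s ∣ i' * (p ^ v * N.choose i) := by
    have : i' * (p ^ v * N.choose i) = i * N.choose i := by
      calc i' * (p ^ v * N.choose i) = (p ^ v * i') * N.choose i := by ring
        _ = i * N.choose i := by rw [← hiv]
    rw [this, key]
    exact Dvd.dvd.mul_right hs _
  have h2 : p ^ s ∣ p ^ v * N.choose i := by
    refine Nat.Coprime.dvd_of_dvd_mul_left ?_ h1
    exact Nat.Coprime.pow_left s ((Nat.Prime.coprime_iff_not_dvd hp).2 hi')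
  have hv : 3 * k + v ≤ k * (i + l) + 1 := by
    rcases Nat.lt_or_ge i 3 with h3 | h3
    · have hv1 : v ≤ 1 := by
        by_contra hcon
        have : 2 ^ 2 ≤ 2 ^ v := Nat.pow_le_pow_right (by norm_num) (by omega)
        omega
      have : k * 3 ≤ k * (i + l) := Nat.mul_le_mul_left k hil
      omega
    · have hv1 : v ≤ i - 2 := by
        by_contra hcon
        have h4 : 2 ^ (i - 1) ≤ 2 ^ v := Nat.pow_le_pow_right (by norm_num) (by omega)
        have h5 : i < 2 ^ (i - 1) := by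
          obtain ⟨j, rfl⟩ : ∃ j, i = j + 3 := ⟨i - 3, by omega⟩
          clear * -
          show j + 3 < 2 ^ (j + 2)
          induction j with
          | zero => norm_num
          | succ j ih =>
            have : 2 ^ (j + 1 + 2) = 2 * 2 ^ (j + 2) := by ring
            omega
        omega
      have h6 : k * 3 + (i + l - 3) ≤ k * (i + l) := by
        obtain ⟨m, hm⟩ : ∃ m, i + l = 3 + m := ⟨i + l - 3, by omega⟩
        rw [hm, Nat.mul_add]
        have : m ≤ k * m := Nat.le_mul_of_pos_left m hk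
        omega
      omega
  have hvK : v ≤ k * (i + l) := by omega
  have h7 : p ^ (s + (k * (i + l) - v)) ∣ N.choose i * p ^ (k * (i + l)) := by
    have : N.choose i * p ^ (k * (i + l)) = (p ^ v * N.choose i) * p ^ (k * (i + l) - v) := by
      have h8 : p ^ (k * (i + l)) = p ^ v * p ^ (k * (i + l) - v) := by
        rw [← pow_add]; congr 1; omega
      rw [h8]; ring
    rw [this, pow_add]
    exact Nat.mul_dvd_mul h2 (dvd_refl _)
  exact dvd_trans (pow_dvd_pow p (by omega)) h7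



theorem pow_expand {R : Type*} [Ring R] (p s N k : ℕ) (hp : p.Prime) (hs : p ^ s ∣ N)
    (hk : 1 ≤ k) (u : R) : ∃ t : R, (1 + ((p : ℤ) ^ k) • u) ^ N =
      1 + ((N : ℤ) * (p : ℤ) ^ k) • u + (((N.choose 2 : ℕ) : ℤ) * ((p : ℤ) ^ k) ^ 2) • (u * u) +
        ((p : ℤ) ^ (s + 3 * k - 1)) • t := by
  have hch : ∀ j : ℕ, ∃ c : ℕ, N.choose (j + 3) * p ^ (k * (j + 3)) = p ^ (s + 3 * k - 1) * c := by
    intro j
    have h := choose_dvd p s N k (j + 3) 0 hp hs hk (by omega) (by omega)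
    obtain ⟨c, hc⟩ := h
    exact ⟨c, by simpa using hc⟩
  choose c hc using hch
  set w : R := ((p : ℤ) ^ k) • u with hw
  have hwj : ∀ j : ℕ, w ^ j * ((N.choose j : ℕ) : R) =
      (((N.choose j : ℕ) : ℤ) * ((p : ℤ) ^ (k * j))) • u ^ j := by
    intro j
    rw [hw, smul_pow, ← pow_mul]
    rw [← Nat.cast_comm, ← nsmul_eq_mul, ← natCast_zsmul, smul_smul]
  have hsum : (1 + w) ^ N = ∑ m ∈ range (N + 3), w ^ m * ((N.choose m : ℕ) : R) := by
    rw [add_comm, (Commute.one_right w).add_pow N, Finset.sum_range_succ _ (N + 2),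
      Finset.sum_range_succ _ (N + 1), Nat.choose_eq_zero_of_lt (by omega : N < N + 2),
      Nat.choose_eq_zero_of_lt (by omega : N < N + 1)]
    simp
  refine ⟨∑ j ∈ range N, ((c j : ℕ) : ℤ) • u ^ (j + 3), ?_⟩
  rw [hsum, Finset.sum_range_succ', Finset.sum_range_succ', Finset.sum_range_succ']
  have htail : ∑ j ∈ range N, w ^ (j + 1 + 1 + 1) * ((N.choose (j + 1 + 1 + 1) : ℕ) : R) =
      ((p : ℤ) ^ (s + 3 * k - 1)) • ∑ j ∈ range N, ((c j : ℕ) : ℤ) • u ^ (j + 3) := by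
    rw [Finset.smul_sum]
    refine Finset.sum_congr rfl fun j _ => ?_
    rw [hwj (j + 1 + 1 + 1), smul_smul]
    congr 1
    exact_mod_cast hc j
  rw [htail, hwj, hwj, hwj]
  simp only [Nat.choose_zero_right, Nat.choose_one_right, zero_add, Nat.cast_one, mul_zero,
    pow_zero, one_mul, one_smul, mul_one, pow_one]
  have e2 : u ^ (1 + 1) = u * u := by rw [pow_succ, pow_one]
  have e3 : ((p : ℤ) ^ (k * (1 + 1))) = ((p : ℤ) ^ k) ^ 2 := by rw [← pow_mul]
  rw [e2, e3]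
  abel



/-- difference `(y x)^N - x^N y^N`, abstract form -/
theorem diff_F {R : Type*} [Ring R] (a b t1 t2 t3 : R) (ε N C ρ κ : ℤ) (hC : 2 * C = N * (N - 1))
    (hρ : C * ε ^ 3 = ρ * κ) :
    ∃ t : R, (2 : ℤ) • ((1 + (N * ε) • (a + b + ε • (b * a)) +
        (C * ε ^ 2) • ((a + b + ε • (b * a)) * (a + b + ε • (b * a))) + ρ • t3) -
      (1 + (N * ε) • a + (C * ε ^ 2) • (a * a) + ρ • t1) *
        (1 + (N * ε) • b + (C * ε ^ 2) • (b * b) + ρ • t2)) =
      (ε ^ 2 * (N * (N + 1))) • (b * a - a * b) + ρ • t := by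
  refine ⟨(2 : ℤ) • t3 - (2 : ℤ) • (t1 * (1 + (N * ε) • b + (C * ε ^ 2) • (b * b) + ρ • t2) +
    (1 + (N * ε) • a + (C * ε ^ 2) • (a * a)) * t2) +
    (2 * κ) • ((a + b) * (b * a) + (b * a) * (a + b)) + (2 * κ * ε) • (b * a * (b * a)) -
    (2 * κ * N) • (a * b * b + a * a * b) - (2 * κ * C * ε) • (a * a * b * b), ?_⟩
  simp only [mul_add, add_mul, smul_mul_assoc, mul_smul_comm, smul_smul, one_mul, mul_one,
    mul_assoc, smul_add]
  linear_combination (norm := module) hC • (ε ^ 2 • (a * b + b * a)) +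
    hρ • ((2 : ℤ) • (a * (b * a) + b * (b * a) + (b * (a * a) + b * (a * b))) +
      (2 * ε) • (b * (a * (b * a))) - (2 * N) • (a * (b * b) + a * (a * b)) -
      (2 * C * ε) • (a * (a * (b * b))))

/-- difference `(x y)^N - x^N y^N`, abstract form -/
theorem diff_G {R : Type*} [Ring R] (a b t1 t2 t3 : R) (ε N C ρ κ : ℤ) (hC : 2 * C = N * (N - 1))
    (hρ : C * ε ^ 3 = ρ * κ) :
    ∃ t : R, (2 : ℤ) • ((1 + (N * ε) • (a + b + ε • (a * b)) +
        (C * ε ^ 2) • ((a + b + ε • (a * b)) * (a + b + ε • (a * b))) + ρ • t3) -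
      (1 + (N * ε) • a + (C * ε ^ 2) • (a * a) + ρ • t1) *
        (1 + (N * ε) • b + (C * ε ^ 2) • (b * b) + ρ • t2)) =
      (ε ^ 2 * (N * (N - 1))) • (b * a - a * b) + ρ • t := by
  refine ⟨(2 : ℤ) • t3 - (2 : ℤ) • (t1 * (1 + (N * ε) • b + (C * ε ^ 2) • (b * b) + ρ • t2) +
    (1 + (N * ε) • a + (C * ε ^ 2) • (a * a)) * t2) +
    (2 * κ) • ((a + b) * (a * b) + (a * b) * (a + b)) + (2 * κ * ε) • (a * b * (a * b)) -
    (2 * κ * N) • (a * b * b + a * a * b) - (2 * κ * C * ε) • (a * a * b * b), ?_⟩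
  simp only [mul_add, add_mul, smul_mul_assoc, mul_smul_comm, smul_smul, one_mul, mul_one,
    mul_assoc, smul_add]
  linear_combination (norm := module) hC • (ε ^ 2 • (a * b + b * a)) +
    hρ • ((2 : ℤ) • (a * (a * b) + b * (a * b) + (a * (b * a) + a * (b * b))) +
      (2 * ε) • (a * (b * (a * b))) - (2 * N) • (a * (b * b) + a * (a * b)) -
      (2 * C * ε) • (a * (a * (b * b))))



theorem two_choose_two (N : ℕ) : 2 * (((N.choose 2 : ℕ) : ℤ)) = (N : ℤ) * ((N : ℤ) - 1) := by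
  induction N with
  | zero => simp
  | succ n ih =>
    rw [Nat.choose_succ_succ' n 1, Nat.choose_one_right]
    push_cast
    linarith

theorem kappa_exists (p s N k : ℕ) (hp : p.Prime) (hs : p ^ s ∣ N) (hk : 1 ≤ k) :
    ∃ κ : ℤ, ((N.choose 2 : ℕ) : ℤ) * ((p : ℤ) ^ k) ^ 3 = ((p : ℤ) ^ (s + 3 * k - 1)) * κ := by
  have h := choose_dvd p s N k 2 1 hp hs hk (by norm_num) (by norm_num)
  obtain ⟨κ, hκ⟩ := h
  refine ⟨κ, ?_⟩
  have h2 : ((N.choose 2 * p ^ (k * (2 + 1)) : ℕ) : ℤ) = ((p ^ (s + 3 * k - 1) * κ : ℕ) : ℤ) := by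
    rw [hκ]
  push_cast at h2
  rw [← pow_mul]
  exact h2

/-- `2 ((y x)^N - x^N y^N) = ε² N (N + 1) (b a - a b)` up to high powers of `p` -/
theorem expand_F {R : Type*} [Ring R] (p s N k : ℕ) (hp : p.Prime) (hs : p ^ s ∣ N)
    (hk : 1 ≤ k) (a b : R) : ∃ t : R,
      (2 : ℤ) • (((1 + ((p : ℤ) ^ k) • b) * (1 + ((p : ℤ) ^ k) • a)) ^ N -
        (1 + ((p : ℤ) ^ k) • a) ^ N * (1 + ((p : ℤ) ^ k) • b) ^ N) =
      (((p : ℤ) ^ k) ^ 2 * ((N : ℤ) * (N + 1))) • (b * a - a * b) +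
        ((p : ℤ) ^ (s + 3 * k - 1)) • t := by
  obtain ⟨t1, h1⟩ := pow_expand p s N k hp hs hk a
  obtain ⟨t2, h2⟩ := pow_expand p s N k hp hs hk b
  obtain ⟨t3, h3⟩ := pow_expand p s N k hp hs hk (a + b + ((p : ℤ) ^ k) • (b * a))
  obtain ⟨κ, hκ⟩ := kappa_exists p s N k hp hs hk
  obtain ⟨t, ht⟩ := diff_F a b t1 t2 t3 ((p : ℤ) ^ k) N ((N.choose 2 : ℕ) : ℤ)
    ((p : ℤ) ^ (s + 3 * k - 1)) κ (two_choose_two N) hκ
  refine ⟨t, ?_⟩
  have hprod : (1 + ((p : ℤ) ^ k) • b) * (1 + ((p : ℤ) ^ k) • a) =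
      1 + ((p : ℤ) ^ k) • (a + b + ((p : ℤ) ^ k) • (b * a)) := by
    rw [mul_add, add_mul, add_mul, smul_add, smul_add, smul_mul_smul_comm, smul_smul]
    simp only [mul_one, one_mul]
    abel
  rw [hprod, h1, h2, h3]
  exact ht

/-- `2 ((x y)^N - x^N y^N) = ε² N (N - 1) (b a - a b)` up to high powers of `p` -/
theorem expand_G {R : Type*} [Ring R] (p s N k : ℕ) (hp : p.Prime) (hs : p ^ s ∣ N)
    (hk : 1 ≤ k) (a b : R) : ∃ t : R,
      (2 : ℤ) • (((1 + ((p : ℤ) ^ k) • a) * (1 + ((p : ℤ) ^ k) • b)) ^ N -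
        (1 + ((p : ℤ) ^ k) • a) ^ N * (1 + ((p : ℤ) ^ k) • b) ^ N) =
      (((p : ℤ) ^ k) ^ 2 * ((N : ℤ) * (N - 1))) • (b * a - a * b) +
        ((p : ℤ) ^ (s + 3 * k - 1)) • t := by
  obtain ⟨t1, h1⟩ := pow_expand p s N k hp hs hk a
  obtain ⟨t2, h2⟩ := pow_expand p s N k hp hs hk b
  obtain ⟨t3, h3⟩ := pow_expand p s N k hp hs hk (a + b + ((p : ℤ) ^ k) • (a * b))
  obtain ⟨κ, hκ⟩ := kappa_exists p s N k hp hs hk
  obtain ⟨t, ht⟩ := diff_G a b t1 t2 t3 ((p : ℤ) ^ k) N ((N.choose 2 : ℕ) : ℤ)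
    ((p : ℤ) ^ (s + 3 * k - 1)) κ (two_choose_two N) hκ
  refine ⟨t, ?_⟩
  have hprod : (1 + ((p : ℤ) ^ k) • a) * (1 + ((p : ℤ) ^ k) • b) =
      1 + ((p : ℤ) ^ k) • (a + b + ((p : ℤ) ^ k) • (a * b)) := by
    rw [mul_add, add_mul, add_mul, smul_add, smul_add, smul_mul_smul_comm, smul_smul]
    simp only [mul_one, one_mul]
    abel
  rw [hprod, h1, h2, h3]
  exact ht



theorem cancel_coprime {M : Type*} [AddCommGroup M]
    (htf : ∀ (n : ℤ) (x : M), n ≠ 0 → n • x = 0 → x = 0) (p : ℕ) (hp : p.Prime) (w : ℤ)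
    (hw : ¬ (p : ℤ) ∣ w) (e f : ℕ) (c t : M)
    (h : ((p : ℤ) ^ e * w) • c = ((p : ℤ) ^ (e + f)) • t) : ∃ t' : M, c = ((p : ℤ) ^ f) • t' := by
  have hpi : Prime (p : ℤ) := Nat.prime_iff_prime_int.mp hp
  have h0 : (p : ℤ) ^ e ≠ 0 := pow_ne_zero _ hpi.ne_zero
  have h1 : w • c - ((p : ℤ) ^ f) • t = 0 := by
    apply htf _ _ h0
    rw [smul_sub, ← mul_smul, ← mul_smul, ← pow_add, h, sub_self]
  have h2 : w • c = ((p : ℤ) ^ f) • t := sub_eq_zero.mp h1
  have hcop : IsCoprime ((p : ℤ) ^ f) w := (hpi.coprime_iff_not_dvd.mpr hw).pow_left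
  obtain ⟨u, v, huv⟩ := hcop
  refine ⟨u • c + v • t, ?_⟩
  calc c = (1 : ℤ) • c := (one_smul _ _).symm
    _ = (u * (p : ℤ) ^ f + v * w) • c := by rw [huv]
    _ = u • ((p : ℤ) ^ f) • c + v • (w • c) := by rw [add_smul, mul_smul, mul_smul]
    _ = u • ((p : ℤ) ^ f) • c + v • (((p : ℤ) ^ f) • t) := by rw [h2]
    _ = ((p : ℤ) ^ f) • (u • c + v • t) := by
      rw [smul_add, smul_comm u, smul_comm v]

theorem combine_coprime {M : Type*} [AddCommGroup M] (c : M)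
    (h : ∀ (p k : ℕ), p.Prime → ∃ t : M, c = ((p : ℤ) ^ k) • t) :
    ∀ n : ℕ, 1 ≤ n → ∃ t : M, c = (n : ℤ) • t := by
  intro n
  induction n using Nat.recOnPosPrimePosCoprime with
  | prime_pow p k hp hk =>
    intro _
    obtain ⟨t, ht⟩ := h p k hp
    exact ⟨t, by push_cast; exact ht⟩
  | zero => intro h0; omega
  | one => intro _; exact ⟨c, by simp⟩
  | coprime a b ha hb hab iha ihb =>
    intro _
    obtain ⟨t1, ht1⟩ := iha (by omega)
    obtain ⟨t2, ht2⟩ := ihb (by omega)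
    have hc : IsCoprime (a : ℤ) (b : ℤ) := Nat.isCoprime_iff_coprime.mpr hab
    obtain ⟨u, v, huv⟩ := hc
    refine ⟨u • t2 + v • t1, ?_⟩
    calc c = (1 : ℤ) • c := (one_smul _ _).symm
      _ = (u * (a : ℤ) + v * (b : ℤ)) • c := by rw [huv]
      _ = (u * (a : ℤ)) • c + (v * (b : ℤ)) • c := add_smul _ _ _
      _ = (u * (a : ℤ)) • ((b : ℤ) • t2) + (v * (b : ℤ)) • ((a : ℤ) • t1) := by
        rw [← ht1, ← ht2]
      _ = ((a * b : ℕ) : ℤ) • (u • t2 + v • t1) := by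
        rw [smul_add, ← mul_smul, ← mul_smul, ← mul_smul, ← mul_smul]
        push_cast
        congr 2 <;> ring



theorem aux_powid {R : Type*} [Ring R] (x y : R) (m : ℕ) :
    x * (y * x) ^ m * y = (x * y) ^ (m + 1) := by
  induction m with
  | zero => simp
  | succ m ih =>
    rw [pow_succ (y * x) m, pow_succ (x * y) (m + 1), ← ih]
    simp only [mul_assoc]

theorem aux_expand {R : Type*} [Ring R] (e : ℤ) (a b E : R) :
    (1 + e • a) * E * (1 + e • b) = E + e • (a * E) + e • (E * b) + (e * e) • (a * E * b) := by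
  simp only [add_mul, mul_add, one_mul, mul_one, smul_mul_assoc, mul_smul_comm, smul_smul, smul_add]
  abel

theorem aux_not_dvd (p : ℕ) (hp : p.Prime) (u v : ℕ) (hu : ¬ p ∣ u) (hv : ¬ p ∣ v) :
    ¬ (p : ℤ) ∣ ((u : ℤ) * (v : ℤ)) := by
  intro h
  have h1 : p ∣ u * v := by exact_mod_cast h
  rcases (Nat.Prime.dvd_mul hp).mp h1 with h2 | h2
  · exact hu h2
  · exact hv h2

/-- case `p ∤ n - 1` -/
theorem case_G {R : Type*} [Ring R]
    (htf : ∀ (n : ℤ) (x : R), n ≠ 0 → n • x = 0 → x = 0) (p : ℕ) (hp : p.Prime) (k n : ℕ)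
    (hk : 1 ≤ k) (hn : 2 ≤ n) (hpn : ¬ p ∣ n - 1) (a b : R)
    (h : ((1 + ((p : ℤ) ^ k) • a) * (1 + ((p : ℤ) ^ k) • b)) ^ n =
      (1 + ((p : ℤ) ^ k) • a) ^ n * (1 + ((p : ℤ) ^ k) • b) ^ n) :
    ∃ t : R, b * a - a * b = ((p : ℤ) ^ (k - 1)) • t := by
  obtain ⟨s, n', hn', hns⟩ := Nat.exists_eq_pow_mul_and_not_dvd (show n ≠ 0 by omega) p hp.ne_one
  have hdvd : p ^ s ∣ n := ⟨n', hns⟩
  obtain ⟨t, ht⟩ := expand_G p s n k hp hdvd hk a b
  rw [h, sub_self, smul_zero] at ht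
  have hw := aux_not_dvd p hp n' (n - 1) hn' hpn
  have hcast : ((n - 1 : ℕ) : ℤ) = (n : ℤ) - 1 := by
    push_cast [Nat.cast_sub (show 1 ≤ n by omega)]
    ring
  have hnz : (n : ℤ) = (p : ℤ) ^ s * (n' : ℤ) := by exact_mod_cast hns
  have hcoef : ((p : ℤ) ^ k) ^ 2 * ((n : ℤ) * ((n : ℤ) - 1))
      = (p : ℤ) ^ (2 * k + s) * ((n' : ℤ) * ((n - 1 : ℕ) : ℤ)) := by
    rw [hcast]
    calc ((p : ℤ) ^ k) ^ 2 * ((n : ℤ) * ((n : ℤ) - 1))
        = ((p : ℤ) ^ k) ^ 2 * (((p : ℤ) ^ s * (n' : ℤ)) * ((n : ℤ) - 1)) := by rw [← hnz]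
      _ = (p : ℤ) ^ (2 * k + s) * ((n' : ℤ) * ((n : ℤ) - 1)) := by
          rw [pow_add, mul_comm 2 k, pow_mul]; ring
  have hexp : s + 3 * k - 1 = (2 * k + s) + (k - 1) := by omega
  rw [hcoef, hexp] at ht
  refine cancel_coprime htf p hp _ hw (2 * k + s) (k - 1) (b * a - a * b) (-t) ?_
  rw [smul_neg]
  exact eq_neg_of_add_eq_zero_left ht.symm

/-- case `p ∣ n - 1` -/
theorem case_F {R : Type*} [Ring R]
    (htf : ∀ (n : ℤ) (x : R), n ≠ 0 → n • x = 0 → x = 0) (p : ℕ) (hp : p.Prime) (k n : ℕ)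
    (hk : 1 ≤ k) (hn : 2 ≤ n) (hpn : p ∣ n - 1) (a b : R)
    (h : ((1 + ((p : ℤ) ^ k) • a) * (1 + ((p : ℤ) ^ k) • b)) ^ n =
      (1 + ((p : ℤ) ^ k) • a) ^ n * (1 + ((p : ℤ) ^ k) • b) ^ n) :
    ∃ t : R, b * a - a * b = ((p : ℤ) ^ (k - 1)) • t := by
  obtain ⟨m, rfl⟩ : ∃ m, n = m + 1 := ⟨n - 1, by omega⟩
  rw [Nat.add_sub_cancel] at hpn
  have hpm1 : ¬ p ∣ m + 1 := by
    intro h1
    have h2 : p ∣ 1 := (Nat.dvd_add_right hpn).mp h1
    exact hp.one_lt.ne' (Nat.dvd_one.mp h2)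
  obtain ⟨s, m', hm', hms⟩ := Nat.exists_eq_pow_mul_and_not_dvd (show m ≠ 0 by omega) p hp.ne_one
  have hdvd : p ^ s ∣ m := ⟨m', hms⟩
  obtain ⟨t, ht⟩ := expand_F p s m k hp hdvd hk a b
  have hw := aux_not_dvd p hp m' (m + 1) hm' hpm1
  have hmz : (m : ℤ) = (p : ℤ) ^ s * (m' : ℤ) := by exact_mod_cast hms
  have hcoef : ((p : ℤ) ^ k) ^ 2 * ((m : ℤ) * ((m : ℤ) + 1))
      = (p : ℤ) ^ (2 * k + s) * ((m' : ℤ) * ((m + 1 : ℕ) : ℤ)) := by
    push_cast
    calc ((p : ℤ) ^ k) ^ 2 * ((m : ℤ) * ((m : ℤ) + 1))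
        = ((p : ℤ) ^ k) ^ 2 * (((p : ℤ) ^ s * (m' : ℤ)) * ((m : ℤ) + 1)) := by rw [← hmz]
      _ = (p : ℤ) ^ (2 * k + s) * ((m' : ℤ) * ((m : ℤ) + 1)) := by
          rw [pow_add, mul_comm 2 k, pow_mul]; ring
  have hexp : s + 3 * k - 1 = (2 * k + s) + (k - 1) := by omega
  rw [hcoef, hexp] at ht
  set x : R := 1 + ((p : ℤ) ^ k) • a with hx
  set y : R := 1 + ((p : ℤ) ^ k) • b with hy
  set c : R := b * a - a * b with hc
  set w : ℤ := (m' : ℤ) * ((m + 1 : ℕ) : ℤ) with hwdef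
  set P : ℤ := (p : ℤ) ^ (2 * k + s) with hP
  set E : R := (2 : ℤ) • ((y * x) ^ m - x ^ m * y ^ m) with hE
  have hzero : x * E * y = 0 := by
    rw [hE, mul_smul_comm, smul_mul_assoc, mul_sub, sub_mul, aux_powid, h]
    have : x * (x ^ m * y ^ m) * y = x ^ (m + 1) * y ^ (m + 1) := by
      rw [pow_succ' x m, pow_succ y m]
      simp only [mul_assoc]
    rw [this, sub_self, smul_zero]
  rw [hx, hy, aux_expand] at hzero
  -- `E = P • t1`
  have hE1 : E = P • (w • c + ((p : ℤ) ^ (k - 1)) • t) := by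
    rw [ht, smul_add, smul_smul, smul_smul, hP, ← pow_add]
  set t1 : R := w • c + ((p : ℤ) ^ (k - 1)) • t with ht1
  have hE2 : E = (P * (p : ℤ) ^ k) • (-(a * t1) - t1 * b - ((p : ℤ) ^ k) • (a * t1 * b)) := by
    have h1 : E = -(((p : ℤ) ^ k) • (a * E)) - ((p : ℤ) ^ k) • (E * b)
        - ((p : ℤ) ^ k * (p : ℤ) ^ k) • (a * E * b) := by
      have h2 : E - (-(((p : ℤ) ^ k) • (a * E)) - ((p : ℤ) ^ k) • (E * b)
        - ((p : ℤ) ^ k * (p : ℤ) ^ k) • (a * E * b)) = 0 := by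
        rw [← hzero]; abel
      exact sub_eq_zero.mp h2
    rw [h1, hE1]
    simp only [smul_mul_assoc, mul_smul_comm, smul_smul, smul_sub, smul_neg]
    congr 1
    · congr 1
      · congr 2; ring
      · congr 1; ring
    · congr 1; ring
  refine cancel_coprime htf p hp w hw (2 * k + s) (k - 1) c
    ((p : ℤ) • (-(a * t1) - t1 * b - ((p : ℤ) ^ k) • (a * t1 * b)) - t) ?_
  have h3 : (P * w) • c = E - ((p : ℤ) ^ (2 * k + s + (k - 1))) • t := by
    rw [ht]; abel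
  have h4 : P * (p : ℤ) ^ k = (p : ℤ) ^ (2 * k + s + (k - 1)) * p := by
    rw [hP, ← pow_add, ← pow_succ]
    congr 1
    omega
  rw [h3, hE2, h4]
  generalize (-(a * t1) - t1 * b - ((p : ℤ) ^ k) • (a * t1 * b)) = V
  rw [smul_sub, smul_smul]



theorem jac_int : IsJacobsonRing ℤ := by
  rw [isJacobsonRing_iff_prime_eq]
  intro P hP
  by_cases hP0 : P = ⊥
  · subst hP0
    rw [eq_bot_iff]
    intro n hn
    rw [Ideal.mem_bot]
    by_contra hn0
    obtain ⟨q, hq1, hq2⟩ := Nat.exists_infinite_primes (n.natAbs + 1)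
    have hqi : Prime (q : ℤ) := Nat.prime_iff_prime_int.1 hq2
    have hmax : (Ideal.span {(q : ℤ)}).IsMaximal :=
      PrincipalIdealRing.isMaximal_of_irreducible hqi.irreducible
    have hmem : n ∈ Ideal.span {(q : ℤ)} := by
      have := Ideal.mem_sInf.1 hn (I := Ideal.span {(q : ℤ)}) ⟨bot_le, hmax⟩
      exact this
    rw [Ideal.mem_span_singleton] at hmem
    have h1 : q ∣ n.natAbs := Int.natCast_dvd.1 hmem
    have h2 := Nat.le_of_dvd (Int.natAbs_pos.2 hn0) h1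
    omega
  · have : P.IsMaximal := hP.isMaximal hP0
    exact Ideal.jacobson_eq_self_of_isMaximal

/-- In a finitely generated subring `C0` of a domain of characteristic zero some prime `p` has no
nonzero infinitely `p`-divisible elements. -/
theorem exists_prime_separated {C : Type*} [CommRing C] [IsDomain C] [CharZero C]
    (T : Set C) (hT : T.Finite) :
    ∃ p : ℕ, p.Prime ∧ ∀ c ∈ Algebra.adjoin ℤ T,
      (∀ k : ℕ, ∃ t ∈ Algebra.adjoin ℤ T, c = ((p : ℤ) ^ k) • t) → c = 0 := by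
  have hfg : (Algebra.adjoin ℤ T).FG := by
    refine ⟨hT.toFinset, ?_⟩
    rw [Set.Finite.coe_toFinset]
  have hft : Algebra.FiniteType ℤ (Algebra.adjoin ℤ T) := (Subalgebra.fg_iff_finiteType _).1 hfg
  have hnoeth : IsNoetherianRing (Algebra.adjoin ℤ T) := Algebra.FiniteType.isNoetherianRing ℤ _
  obtain ⟨M, hM⟩ := Ideal.exists_maximal (Algebra.adjoin ℤ T)
  let _ := Ideal.Quotient.field M
  have hft2 : Algebra.FiniteType ℤ (↥(Algebra.adjoin ℤ T) ⧸ M) :=
    Algebra.FiniteType.of_surjective (Ideal.Quotient.mkₐ ℤ M) (Ideal.Quotient.mkₐ_surjective ℤ M)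
  have := jac_int
  have hfin : Module.Finite ℤ (↥(Algebra.adjoin ℤ T) ⧸ M) :=
    finite_of_finite_type_of_isJacobsonRing ℤ _
  obtain ⟨q, hq⟩ := CharP.exists (↥(Algebra.adjoin ℤ T) ⧸ M)
  have hq0 : q ≠ 0 := by
    rintro rfl
    haveI : CharZero (↥(Algebra.adjoin ℤ T) ⧸ M) := CharP.charP_to_charZero _
    have hinj : Function.Injective (algebraMap ℤ (↥(Algebra.adjoin ℤ T) ⧸ M)) := by
      intro a b hab
      simpa using hab
    haveI : Algebra.IsIntegral ℤ (↥(Algebra.adjoin ℤ T) ⧸ M) := Algebra.IsIntegral.of_finite _ _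
    have := isField_of_isIntegral_of_isField hinj (Field.toIsField (↥(Algebra.adjoin ℤ T) ⧸ M))
    exact Int.not_isField this
  have hqp : q.Prime := (CharP.char_is_prime_or_zero (↥(Algebra.adjoin ℤ T) ⧸ M) q).resolve_right hq0
  have hqM : (q : ↥(Algebra.adjoin ℤ T)) ∈ M := by
    rw [← Ideal.Quotient.eq_zero_iff_mem]
    have := CharP.cast_eq_zero (↥(Algebra.adjoin ℤ T) ⧸ M) q
    simpa using this
  refine ⟨q, hqp, ?_⟩
  intro c hc hdiv
  have hI : Ideal.span {(q : ↥(Algebra.adjoin ℤ T))} ≠ ⊤ := by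
    intro h
    apply hM.ne_top
    rw [eq_top_iff, ← h, Ideal.span_singleton_le_iff_mem]
    exact hqM
  have hinf := Ideal.iInf_pow_eq_bot_of_isDomain _ hI
  have hcm : (⟨c, hc⟩ : ↥(Algebra.adjoin ℤ T)) ∈ (⨅ i : ℕ, (Ideal.span {(q : ↥(Algebra.adjoin ℤ T))}) ^ i) := by
    rw [Ideal.mem_iInf]
    intro k
    rw [Ideal.span_singleton_pow, Ideal.mem_span_singleton]
    obtain ⟨t, ht, htc⟩ := hdiv k
    refine ⟨⟨t, ht⟩, ?_⟩
    apply Subtype.ext
    show c = _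
    rw [htc]
    simp [zsmul_eq_mul]
  rw [hinf, Ideal.mem_bot] at hcm
  exact congrArg Subtype.val hcm



/-- A commutator of matrices over a domain of characteristic zero that is divisible by all positive
integers in the subring generated by the two matrices is zero. -/
theorem matrix_case {C : Type*} [CommRing C] [IsDomain C] [CharZero C] {d : Type*} [Fintype d]
    [DecidableEq d] (A B : Matrix d d C)
    (h : ∀ n : ℕ, 1 ≤ n → ∃ t ∈ Subring.closure ({A, B} : Set (Matrix d d C)),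
      A * B - B * A = (n : ℤ) • t) : A * B = B * A := by
  let T : Set C := Set.range (fun x : d × d => A x.1 x.2) ∪ Set.range (fun x : d × d => B x.1 x.2)
  have hT : T.Finite := (Set.finite_range _).union (Set.finite_range _)
  obtain ⟨p, hp, hsep⟩ := exists_prime_separated T hT
  have hA : ∀ i j, A i j ∈ Algebra.adjoin ℤ T := fun i j =>
    Algebra.subset_adjoin (Or.inl ⟨(i, j), rfl⟩)
  have hB : ∀ i j, B i j ∈ Algebra.adjoin ℤ T := fun i j =>
    Algebra.subset_adjoin (Or.inr ⟨(i, j), rfl⟩)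
  have hmul : ∀ M N : Matrix d d C, (∀ i j, M i j ∈ Algebra.adjoin ℤ T) →
      (∀ i j, N i j ∈ Algebra.adjoin ℤ T) → ∀ i j, (M * N) i j ∈ Algebra.adjoin ℤ T := by
    intro M N hM hN i j
    rw [Matrix.mul_apply]
    exact Subalgebra.sum_mem _ (fun k _ => Subalgebra.mul_mem _ (hM i k) (hN k j))
  have hcl : ∀ t ∈ Subring.closure ({A, B} : Set (Matrix d d C)),
      ∀ i j, t i j ∈ Algebra.adjoin ℤ T := by
    intro t ht
    induction ht using Subring.closure_induction with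
    | mem x hx =>
      rcases hx with rfl | rfl
      · exact hA
      · exact hB
    | zero => intro i j; exact Subalgebra.zero_mem _
    | one =>
      intro i j
      rw [Matrix.one_apply]
      split_ifs
      · exact Subalgebra.one_mem _
      · exact Subalgebra.zero_mem _
    | add x y _ _ hx hy => intro i j; exact Subalgebra.add_mem _ (hx i j) (hy i j)
    | neg x _ hx => intro i j; exact Subalgebra.neg_mem _ (hx i j)
    | mul x y _ _ hx hy => exact hmul x y hx hy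
  rw [← sub_eq_zero]
  ext i j
  apply hsep
  · rw [Matrix.sub_apply]
    exact Subalgebra.sub_mem _ (hmul A B hA hB i j) (hmul B A hB hA i j)
  · intro k
    obtain ⟨t, ht, hte⟩ := h (p ^ k) (Nat.one_le_pow _ _ hp.pos)
    refine ⟨t i j, hcl t ht i j, ?_⟩
    rw [hte]
    push_cast
    rfl

/-- In a torsion-free ring with identity that satisfies (P), commutators are divisible. -/
theorem comm_divisible {R : Type*} [Ring R]
    (htf : ∀ (n : ℤ) (x : R), n ≠ 0 → n • x = 0 → x = 0)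
    (hP : ∀ x y : R, ∃ n : ℕ, 2 ≤ n ∧ (x * y) ^ n = x ^ n * y ^ n) (a b : R) :
    ∀ n : ℕ, 1 ≤ n → ∃ t : R, a * b - b * a = (n : ℤ) • t := by
  apply combine_coprime
  intro p k hp
  obtain ⟨n, hn, h⟩ := hP (1 + ((p : ℤ) ^ (k + 1)) • b) (1 + ((p : ℤ) ^ (k + 1)) • a)
  by_cases hpn : p ∣ n - 1
  · obtain ⟨t, ht⟩ := case_F htf p hp (k + 1) n (Nat.succ_pos k) hn hpn b a h
    exact ⟨t, by simpa using ht⟩
  · obtain ⟨t, ht⟩ := case_G htf p hp (k + 1) n (Nat.succ_pos k) hn hpn b a h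
    exact ⟨t, by simpa using ht⟩

/-- The same inside the subring generated by the two elements. -/
theorem comm_divisible_closure {R : Type*} [Ring R]
    (htf : ∀ (n : ℤ) (x : R), n ≠ 0 → n • x = 0 → x = 0)
    (hP : ∀ x y : R, ∃ n : ℕ, 2 ≤ n ∧ (x * y) ^ n = x ^ n * y ^ n) (a b : R) :
    ∀ n : ℕ, 1 ≤ n → ∃ t ∈ Subring.closure ({a, b} : Set R), a * b - b * a = (n : ℤ) • t := by
  intro n hn
  have ha : a ∈ Subring.closure ({a, b} : Set R) := Subring.subset_closure (by simp)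
  have hb : b ∈ Subring.closure ({a, b} : Set R) := Subring.subset_closure (by simp)
  have key := comm_divisible (R := Subring.closure ({a, b} : Set R))
    (by
      intro m x hm hx
      apply Subtype.ext
      apply htf m x.1 hm
      have := congrArg Subtype.val hx
      simpa using this)
    (by
      intro x y
      obtain ⟨m, hm, h⟩ := hP x.1 y.1
      exact ⟨m, hm, Subtype.ext (by simpa using h)⟩)
    ⟨a, ha⟩ ⟨b, hb⟩ n hn
  obtain ⟨t, ht⟩ := key
  refine ⟨t.1, t.2, ?_⟩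
  have := congrArg Subtype.val ht
  simpa using this

/-- Subrings of matrix rings. -/
theorem matrix_comm {R : Type*} [Ring R] {C : Type*} [CommRing C] [IsDomain C] [CharZero C]
    {d : Type*} [Fintype d] [DecidableEq d] (φ : R →+* Matrix d d C)
    (hφ : Function.Injective φ)
    (hP : ∀ x y : R, ∃ n : ℕ, 2 ≤ n ∧ (x * y) ^ n = x ^ n * y ^ n) (a b : R) :
    a * b = b * a := by
  have htf : ∀ (n : ℤ) (x : R), n ≠ 0 → n • x = 0 → x = 0 := by
    intro n x hn hx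
    apply hφ
    rw [map_zero]
    have h1 : (n : ℤ) • φ x = 0 := by rw [← map_zsmul, hx, map_zero]
    ext i j
    have h2 := congrFun (congrFun h1 i) j
    simp only [Matrix.smul_apply, Matrix.zero_apply, zsmul_eq_mul, mul_eq_zero, Int.cast_eq_zero]
      at h2
    rcases h2 with h2 | h2
    · exact absurd h2 hn
    · simpa using h2
  apply hφ
  rw [map_mul, map_mul]
  apply matrix_case
  intro n hn
  obtain ⟨t, ht, h⟩ := comm_divisible_closure htf hP a b n hn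
  refine ⟨φ t, ?_, ?_⟩
  · have h1 : φ t ∈ (Subring.closure ({a, b} : Set R)).map φ := ⟨t, ht, rfl⟩
    rw [RingHom.map_closure] at h1
    simpa [Set.image_pair] using h1
  · rw [← map_mul, ← map_mul, ← map_sub, h, map_zsmul]

/-- Matrix representations over domains of characteristic zero have commutative image. -/
theorem matrix_image {R : Type*} [Ring R] {C : Type*} [CommRing C] [IsDomain C] [CharZero C]
    {d : Type*} [Fintype d] [DecidableEq d] (φ : R →+* Matrix d d C)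
    (hP : ∀ x y : R, ∃ n : ℕ, 2 ≤ n ∧ (x * y) ^ n = x ^ n * y ^ n) (a b : R) :
    φ (a * b) = φ (b * a) := by
  have h := matrix_comm (R := φ.range) φ.range.subtype Subtype.val_injective
    (by
      rintro ⟨_, x, rfl⟩ ⟨_, y, rfl⟩
      obtain ⟨n, hn, h⟩ := hP x y
      refine ⟨n, hn, Subtype.ext ?_⟩
      have h1 := congrArg φ h
      simpa using h1)
    ⟨φ a, ⟨a, rfl⟩⟩ ⟨φ b, ⟨b, rfl⟩⟩
  have h2 := congrArg Subtype.val h
  rw [map_mul, map_mul]
  simpa using h2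

end Pool.Agent.Helper572.PAdic
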