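import Mathlib
import Pool.Agent.Helper572.PowProdDomain

set_option autoImplicit false

namespace Pool.Agent.Helper572.PolyCase
open Finset Polynomial



theorem coeff_main {D : Type*} [Ring D] (a b c : D) (q : ℕ) :
    (∀ k < q, ((C a * X + C b * X ^ 2 + C c * X ^ 3) ^ q : D[X]).coeff k = 0) ∧
    ((C a * X + C b * X ^ 2 + C c * X ^ 3) ^ q : D[X]).coeff (q + 1) =
      ∑ i ∈ Finset.range q, a ^ i * b * a ^ (q - 1 - i) := by
  set s : D[X] := C a * X + C b * X ^ 2 + C c * X ^ 3 with hs
  have key : ∀ (f : D[X]) (n : ℕ), (f * s).coeff n =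
      (if 1 ≤ n then f.coeff (n - 1) * a else 0) + (if 2 ≤ n then f.coeff (n - 2) * b else 0) +
      (if 3 ≤ n then f.coeff (n - 3) * c else 0) := by
    intro f n
    have h1 : f * s = (f * C a) * X ^ 1 + (f * C b) * X ^ 2 + (f * C c) * X ^ 3 := by
      rw [hs, pow_one]; noncomm_ring
    rw [h1, coeff_add, coeff_add, coeff_mul_X_pow', coeff_mul_X_pow', coeff_mul_X_pow',
      coeff_mul_C, coeff_mul_C, coeff_mul_C]
  have main : ∀ q : ℕ, (∀ k < q, (s ^ q).coeff k = 0) ∧ (s ^ q).coeff q = a ^ q ∧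
      (s ^ q).coeff (q + 1) = ∑ i ∈ Finset.range q, a ^ i * b * a ^ (q - 1 - i) := by
    intro q
    induction q with
    | zero =>
      refine ⟨fun k hk => absurd hk (Nat.not_lt_zero _), ?_, ?_⟩
      · simp
      · simp [coeff_one]
    | succ q ih =>
      obtain ⟨h0, h1, h2⟩ := ih
      have hz : ∀ (P : Prop) [Decidable P] (m : ℕ) (x : D), (P → m < q) →
          (if P then (s ^ q).coeff m * x else 0) = 0 := by
        intro P _ m x hP
        split_ifs with h
        · rw [h0 m (hP h), zero_mul]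
        · rfl
      refine ⟨?_, ?_, ?_⟩
      · intro k hk
        rw [pow_succ, key, hz _ _ _ (by omega), hz _ _ _ (by omega), hz _ _ _ (by omega)]
        simp
      · rw [pow_succ, key, hz (2 ≤ q + 1) _ _ (by omega), hz (3 ≤ q + 1) _ _ (by omega),
          if_pos (by omega), Nat.add_sub_cancel, h1, pow_succ]
        simp
      · rw [pow_succ, key, hz (3 ≤ q + 1 + 1) _ _ (by omega), if_pos (by omega), if_pos (by omega)]
        have e1 : q + 1 + 1 - 1 = q + 1 := by omega
        have e2 : q + 1 + 1 - 2 = q := by omega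
        rw [e1, e2, h2, h1, add_zero, Finset.sum_range_succ, Finset.sum_mul]
        congr 1
        · refine Finset.sum_congr rfl (fun i hi => ?_)
          rw [Finset.mem_range] at hi
          rw [mul_assoc, ← pow_succ]
          congr 2
          omega
        · simp
  exact ⟨(main q).1, (main q).2.2⟩



theorem coeff_aux {D : Type*} [Ring D] (f : D[X]) (q m : ℕ) (hq : 1 ≤ q)
    (hf : ∀ k < q, f.coeff k = 0) :
    ∀ k < 2 * q, ((1 + f) ^ m).coeff k = (if k = 0 then 1 else 0) + m • f.coeff k := by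
  induction m with
  | zero =>
    intro k hk
    simp [coeff_one]
  | succ m ih =>
    intro k hk
    rw [pow_succ, mul_add, mul_one, coeff_add, ih k hk, coeff_mul]
    have h : ∑ x ∈ antidiagonal k, ((1 + f) ^ m).coeff x.1 * f.coeff x.2 = f.coeff k := by
      rw [Finset.sum_eq_single (0, k)]
      · rw [ih 0 (by omega), hf 0 (by omega)]
        simp
      · rintro ⟨i, j⟩ hij hne
        rw [HasAntidiagonal.mem_antidiagonal] at hij
        simp only at hij
        by_cases hj : j < q
        · simp only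
          rw [hf j hj, mul_zero]
        · have hi : i < q := by omega
          have hi0 : i ≠ 0 := by
            rintro rfl
            apply hne
            rw [zero_add] at hij
            rw [hij]
          simp only
          rw [ih i (by omega), hf i hi]
          simp [hi0]
      · intro h
        exact absurd (by simp) h
    rw [h, add_assoc, ← succ_nsmul]

theorem coeff_one_add {D : Type*} [Ring D] (f : D[X]) (q m : ℕ) (hq : 2 ≤ q)
    (hf : ∀ k < q, f.coeff k = 0) : ((1 + f) ^ m).coeff (q + 1) = m • f.coeff (q + 1) := by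
  rw [coeff_aux f q m (by omega) hf (q + 1) (by omega)]
  simp

theorem coeff_rhs {D : Type*} [Ring D] (a b : D) (q m : ℕ) (hq : 2 ≤ q) :
    ((1 + C a * X ^ q) ^ m * (1 + C b * X ^ (2 * q)) ^ m : D[X]).coeff (q + 1) = 0 := by
  have h1 : ∀ k < q, (C a * X ^ q : D[X]).coeff k = 0 := by
    intro k hk
    rw [coeff_C_mul, coeff_X_pow, if_neg (by omega), mul_zero]
  have h2 : ∀ k < 2 * q, (C b * X ^ (2 * q) : D[X]).coeff k = 0 := by
    intro k hk
    rw [coeff_C_mul, coeff_X_pow, if_neg (by omega), mul_zero]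
  rw [coeff_mul]
  apply Finset.sum_eq_zero
  rintro ⟨i, j⟩ hij
  rw [HasAntidiagonal.mem_antidiagonal] at hij
  simp only at hij ⊢
  rw [coeff_aux (C b * X ^ (2 * q) : D[X]) (2 * q) m (by omega) h2 j (by omega), h2 j (by omega)]
  by_cases hj : j = 0
  · subst hj
    have hi : i = q + 1 := by omega
    subst hi
    rw [coeff_aux (C a * X ^ q : D[X]) q m (by omega) h1 (q + 1) (by omega), coeff_C_mul,
      coeff_X_pow, if_neg (by omega), if_neg (by omega)]
    simp
  · simp [hj]



theorem caseP_tel {D : Type*} [Ring D] (a b : D) (n : ℕ) :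
    a * (∑ i ∈ Finset.range n, a ^ i * b * a ^ (n - 1 - i)) -
      (∑ i ∈ Finset.range n, a ^ i * b * a ^ (n - 1 - i)) * a = a ^ n * b - b * a ^ n := by
  induction n with
  | zero => simp
  | succ n ih =>
    have h1 : ∑ i ∈ Finset.range (n + 1), a ^ i * b * a ^ (n + 1 - 1 - i) =
        (∑ i ∈ Finset.range n, a ^ i * b * a ^ (n - 1 - i)) * a + a ^ n * b := by
      rw [Finset.sum_range_succ, Finset.sum_mul]
      congr 1
      · apply Finset.sum_congr rfl
        intro i hi
        have hi' := Finset.mem_range.1 hi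
        rw [show n + 1 - 1 - i = (n - 1 - i) + 1 from by omega, pow_succ, ← mul_assoc]
      · simp
    rw [h1]
    generalize (∑ i ∈ Finset.range n, a ^ i * b * a ^ (n - 1 - i)) = T at ih
    have h2 : a * (T * a + a ^ n * b) - (T * a + a ^ n * b) * a =
        (a * T - T * a) * a + (a * a ^ n * b - a ^ n * b * a) := by
      noncomm_ring
    rw [h2, ih, sub_mul, pow_succ' a n, ← pow_succ' a n, pow_succ a n]
    noncomm_ring

theorem caseP {D : Type*} [Ring D] [NoZeroDivisors D] (p : ℕ) [Fact p.Prime] [CharP D p]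
    (a b c : D) (s m : ℕ) (hs : 1 ≤ s) (hm : ¬ p ∣ m)
    (h : ((1 + (C a * X + C b * X ^ 2 + C c * X ^ 3)) ^ (p ^ s * m) : D[X]) =
      (1 + C a * X) ^ (p ^ s * m) * (1 + C b * X ^ 2) ^ (p ^ s * m)) :
    a ^ (p ^ s) * b = b * a ^ (p ^ s) := by
  have hp2 : 2 ≤ p := (Fact.out : p.Prime).two_le
  have hq : 2 ≤ p ^ s := by
    calc 2 ≤ p := hp2
      _ = p ^ 1 := (pow_one p).symm
      _ ≤ p ^ s := Nat.pow_le_pow_right (by omega) hs
  have hpow : ∀ f : D[X], (1 + f) ^ (p ^ s * m) = (1 + f ^ (p ^ s)) ^ m := by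
    intro f
    rw [pow_mul, add_pow_char_pow_of_commute _ _ (Commute.one_left f), one_pow]
  rw [hpow, hpow, hpow] at h
  have h1 : (C a * X : D[X]) ^ (p ^ s) = C (a ^ (p ^ s)) * X ^ (p ^ s) := by
    rw [((commute_X (C a)).symm).mul_pow, C_pow]
  have h2 : (C b * X ^ 2 : D[X]) ^ (p ^ s) = C (b ^ (p ^ s)) * X ^ (2 * p ^ s) := by
    rw [(((commute_X (C b)).symm).pow_right 2).mul_pow, C_pow, pow_mul]
  rw [h1, h2] at h
  have h3 := congrArg (fun g : D[X] => g.coeff (p ^ s + 1)) h
  rw [coeff_rhs _ _ _ _ hq, coeff_one_add _ _ _ hq (coeff_main a b c (p ^ s)).1,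
    (coeff_main a b c (p ^ s)).2, nsmul_eq_mul] at h3
  have hm0 : (m : D) ≠ 0 := by
    intro h0
    exact hm ((CharP.cast_eq_zero_iff D p m).1 h0)
  have hT := (mul_eq_zero.1 h3).resolve_left hm0
  have h4 := caseP_tel a b (p ^ s)
  rw [hT, mul_zero, zero_mul, sub_zero] at h4
  exact (sub_eq_zero.1 h4.symm)




section
variable {D : Type*} [Ring D]

theorem m2 (p q : D[X]) : (p * q).coeff 2 = p.coeff 0 * q.coeff 2 + p.coeff 1 * q.coeff 1 + p.coeff 2 * q.coeff 0 := by
  rw [coeff_mul]
  simp [Finset.Nat.antidiagonal_succ]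
  abel

theorem m3 (p q : D[X]) : (p * q).coeff 3 = p.coeff 0 * q.coeff 3 + p.coeff 1 * q.coeff 2 + p.coeff 2 * q.coeff 1
    + p.coeff 3 * q.coeff 0 := by
  rw [coeff_mul]
  simp [Finset.Nat.antidiagonal_succ]
  abel

theorem powc (p : D[X]) (x y z : D) (h0 : p.coeff 0 = 1) (h1 : p.coeff 1 = x) (h2 : p.coeff 2 = y)
    (h3 : p.coeff 3 = z) (n : ℕ) :
    (p ^ n).coeff 0 = 1 ∧ (p ^ n).coeff 1 = n • x ∧ (p ^ n).coeff 2 = n • y + (n.choose 2) • (x * x) ∧
    (p ^ n).coeff 3 = n • z + (n.choose 2) • (x * y + y * x) + (n.choose 3) • (x * x * x) := by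
  induction n with
  | zero =>
    refine ⟨by simp, by simp [coeff_one], by simp [coeff_one], by simp [coeff_one]⟩
  | succ n ih =>
    obtain ⟨i0, i1, i2, i3⟩ := ih
    have c2 : (n+1).choose 2 = n + n.choose 2 := by
      rw [Nat.choose_succ_succ' n 1, Nat.choose_one_right]
    have c3 : (n+1).choose 3 = n.choose 2 + n.choose 3 := Nat.choose_succ_succ' n 2
    refine ⟨?_, ?_, ?_, ?_⟩
    · rw [pow_succ, mul_coeff_zero, i0, h0, mul_one]
    · rw [pow_succ, mul_coeff_one, i0, i1, h0, h1, one_mul, mul_one, succ_nsmul, add_comm]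
    · rw [pow_succ, m2, i0, i1, i2, h0, h1, h2, c2, add_smul, add_smul, smul_mul_assoc]
      simp only [one_mul, mul_one, one_smul]
      abel
    · rw [pow_succ, m3, i0, i1, i2, i3, h0, h1, h2, h3, c2, c3]
      simp only [one_mul, mul_one, add_smul, one_smul, add_mul, smul_mul_assoc, smul_add]
      abel
end

/-- comparison of the coefficients of `X ^ 3` -/
theorem case0 {D : Type*} [Ring D] (a b : D) (n : ℕ)
    (h : (((1 + C a * X) * (1 + C b * X ^ 2)) ^ n : D[X]) =
      (1 + C a * X) ^ n * (1 + C b * X ^ 2) ^ n) :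
    (n.choose 2) • (b * a - a * b) = 0 := by
  have a0 : (1 + C a * X : D[X]).coeff 0 = 1 := by simp
  have a1 : (1 + C a * X : D[X]).coeff 1 = a := by simp [coeff_one]
  have a2 : (1 + C a * X : D[X]).coeff 2 = 0 := by simp [coeff_one, coeff_X]
  have a3 : (1 + C a * X : D[X]).coeff 3 = 0 := by simp [coeff_one, coeff_X]
  have b0 : (1 + C b * X ^ 2 : D[X]).coeff 0 = 1 := by simp
  have b1 : (1 + C b * X ^ 2 : D[X]).coeff 1 = 0 := by simp [coeff_one, coeff_X_pow]
  have b2 : (1 + C b * X ^ 2 : D[X]).coeff 2 = b := by simp [coeff_one, coeff_X_pow]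
  have b3 : (1 + C b * X ^ 2 : D[X]).coeff 3 = 0 := by simp [coeff_one, coeff_X_pow]
  have p0 : ((1 + C a * X) * (1 + C b * X ^ 2) : D[X]).coeff 0 = 1 := by
    rw [mul_coeff_zero, a0, b0, mul_one]
  have p1 : ((1 + C a * X) * (1 + C b * X ^ 2) : D[X]).coeff 1 = a := by
    rw [mul_coeff_one, a0, a1, b0, b1]; simp
  have p2 : ((1 + C a * X) * (1 + C b * X ^ 2) : D[X]).coeff 2 = b := by
    rw [m2, a0, a1, a2, b0, b1, b2]; simp
  have p3 : ((1 + C a * X) * (1 + C b * X ^ 2) : D[X]).coeff 3 = a * b := by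
    rw [m3, a0, a1, a2, a3, b0, b1, b2, b3]; simp
  obtain ⟨-, -, -, hp⟩ := powc _ _ _ _ p0 p1 p2 p3 n
  obtain ⟨ha0, ha1, ha2, ha3⟩ := powc _ _ _ _ a0 a1 a2 a3 n
  obtain ⟨hb0, hb1, hb2, hb3⟩ := powc _ _ _ _ b0 b1 b2 b3 n
  have h3 := congrArg (fun p : D[X] => p.coeff 3) h
  change ((((1 + C a * X) * (1 + C b * X ^ 2)) ^ n : D[X])).coeff 3 = ((1 + C a * X) ^ n * (1 + C b * X ^ 2) ^ n : D[X]).coeff 3 at h3
  rw [hp, m3, ha0, ha1, ha2, ha3, hb0, hb1, hb2, hb3] at h3
  simp only [smul_zero, mul_zero, zero_mul, add_zero, zero_add, mul_one, one_mul, smul_mul_assoc,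
    mul_smul_comm] at h3
  have hn : n * n = n + 2 * n.choose 2 := by
    have := Nat.choose_two_right n
    have h2 : 2 ∣ n * (n-1) := (Nat.even_mul_pred_self n).two_dvd
    have h4 : 2 * n.choose 2 = n * (n-1) := by rw [this]; exact Nat.mul_div_cancel' h2
    rw [h4]
    cases n with
    | zero => rfl
    | succ k => simp only [Nat.add_sub_cancel]; ring
  have h5 : n • n • (a * b) = n • (a * b) + (n.choose 2) • (a * b) + (n.choose 2) • (a * b) := by
    rw [smul_smul, hn, add_smul, two_mul, add_smul, add_assoc]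
  rw [h5] at h3
  rw [smul_sub, sub_eq_zero]
  simp only [smul_add] at h3
  have h6 : (n.choose 2) • (b * a) + (n • (a * b) + (n.choose 2) • (a * b) + (n.choose 3) • (a * a * a)) =
      (n.choose 2) • (a * b) + (n • (a * b) + (n.choose 2) • (a * b) + (n.choose 3) • (a * a * a)) := by
    have e1 : (n.choose 2) • (b * a) + (n • (a * b) + (n.choose 2) • (a * b) + (n.choose 3) • (a * a * a)) =
      n • (a * b) + ((n.choose 2) • (a * b) + (n.choose 2) • (b * a)) + (n.choose 3) • (a * a * a) := by abel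
    rw [e1, h3]; abel
  exact add_right_cancel h6

theorem cancel_exact {K : Type*} [Ring K] [NoZeroDivisors K] (x y : K) (hx : x ≠ 0) (hy : y ≠ 0)
    (m : ℕ) (h : (x * y) ^ (m + 1) = x ^ (m + 1) * y ^ (m + 1)) :
    (y * x) ^ m = x ^ m * y ^ m := by
  have e1 : ∀ k : ℕ, (x * y) ^ (k + 1) = x * ((y * x) ^ k * y) := by
    intro k
    induction k with
    | zero => simp
    | succ k ih =>
      rw [pow_succ, ih, pow_succ]
      simp only [mul_assoc]
  rw [e1, pow_succ' x, pow_succ y, mul_assoc] at h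
  have h2 := mul_left_cancel₀ hx h
  rw [← mul_assoc] at h2
  exact mul_right_cancel₀ hy h2

theorem one_add_ne {D : Type*} [Ring D] [Nontrivial D] (a : D) (k : ℕ) :
    (1 + C a * X ^ (k + 1) : D[X]) ≠ 0 := by
  intro h
  have := congrArg (fun f : D[X] => f.coeff 0) h
  simp [coeff_X_pow] at this

theorem expand_xy {D : Type*} [Ring D] (a b : D) :
    ((1 + C a * X) * (1 + C b * X ^ 2) : D[X]) =
      1 + (C a * X + C b * X ^ 2 + C (a * b) * X ^ 3) := by
  have h1 : (C a * X) * (C b * X ^ 2) = (C (a * b) * X ^ 3 : D[X]) := by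
    rw [C_mul, mul_assoc, ← mul_assoc X (C b) (X ^ 2)]
    rw [show (X * C b : D[X]) = C b * X from X_mul]
    rw [mul_assoc (C b) X (X ^ 2), ← pow_succ', mul_assoc]
  rw [add_mul, mul_add, mul_add, one_mul, one_mul, mul_one, h1]
  abel

theorem expand_yx {D : Type*} [Ring D] (a b : D) :
    ((1 + C b * X ^ 2) * (1 + C a * X) : D[X]) =
      1 + (C a * X + C b * X ^ 2 + C (b * a) * X ^ 3) := by
  have h1 : (C b * X ^ 2) * (C a * X) = (C (b * a) * X ^ 3 : D[X]) := by
    rw [C_mul, mul_assoc, ← mul_assoc (X ^ 2) (C a) X]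
    rw [show (X ^ 2 * C a : D[X]) = C a * X ^ 2 from X_pow_mul]
    rw [mul_assoc (C a) (X ^ 2) X, ← pow_succ, mul_assoc]
  rw [add_mul, mul_add, mul_add, one_mul, one_mul, mul_one, h1]
  abel

/-- If the polynomial ring over a domain satisfies (P), the domain is commutative. -/
theorem poly_comm {D : Type} [Ring D] [NoZeroDivisors D] [Nontrivial D]
    (hP : ∀ x y : D[X], ∃ n : ℕ, 2 ≤ n ∧ (x * y) ^ n = x ^ n * y ^ n) :
    ∀ a b : D, a * b = b * a := by
  obtain ⟨p, hp⟩ := CharP.exists D
  rcases CharP.char_is_prime_or_zero D p with hpp | hp0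
  · have : Fact p.Prime := ⟨hpp⟩
    let _ : Algebra (ZMod p) D := ZMod.algebra D p
    have key : ∀ a b : D, ∃ v : ℕ, a ^ (p ^ v) * b = b * a ^ (p ^ v) := by
      intro a b
      obtain ⟨n, hn, h⟩ := hP (1 + C a * X) (1 + C b * X ^ 2)
      by_cases h1 : p ∣ n
      · obtain ⟨s, m, hm, hnm⟩ := Nat.exists_eq_pow_mul_and_not_dvd (n := n) (by omega) p hpp.ne_one
        have hs : 1 ≤ s := by
          rcases Nat.eq_zero_or_pos s with h0 | h0
          · rw [h0, pow_zero, one_mul] at hnm
            rw [← hnm] at hm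
            exact absurd h1 hm
          · exact h0
        rw [hnm, expand_xy] at h
        exact ⟨s, caseP p a b (a * b) s m hs hm h⟩
      · by_cases h2 : p ∣ n - 1
        · obtain ⟨m, rfl⟩ : ∃ m, n = m + 1 := ⟨n - 1, by omega⟩
          rw [Nat.add_sub_cancel] at h2
          obtain ⟨s, m', hm, hnm⟩ := Nat.exists_eq_pow_mul_and_not_dvd (n := m) (by omega) p
            hpp.ne_one
          have hs : 1 ≤ s := by
            rcases Nat.eq_zero_or_pos s with h0 | h0
            · rw [h0, pow_zero, one_mul] at hnm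
              rw [← hnm] at hm
              exact absurd h2 hm
            · exact h0
          have h3 := cancel_exact _ _ (by simpa using one_add_ne a 0) (one_add_ne b 1) m h
          rw [hnm, expand_yx] at h3
          exact ⟨s, caseP p a b (b * a) s m' hs hm h3⟩
        · refine ⟨0, ?_⟩
          have h3 := case0 a b n h
          have h4 : ¬ p ∣ n.choose 2 := by
            intro h5
            have h6 : p ∣ n * (n - 1) := by
              have h8 : n * (n - 1) = n.choose 2 * 2 := by
                rw [Nat.choose_two_right, Nat.div_mul_cancel (Nat.even_mul_pred_self n).two_dvd]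
              rw [h8]
              exact dvd_mul_of_dvd_left h5 2
            rcases (Nat.Prime.dvd_mul hpp).mp h6 with h7 | h7
            · exact h1 h7
            · exact h2 h7
          rw [nsmul_eq_mul] at h3
          have h5 : ((n.choose 2 : ℕ) : D) ≠ 0 := by
            intro h6
            exact h4 ((CharP.cast_eq_zero_iff D p _).mp h6)
          rcases mul_eq_zero.mp h3 with h6 | h6
          · exact absurd h6 h5
          · rw [pow_zero, pow_one]
            exact (sub_eq_zero.mp h6).symm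
    intro a b
    exact Pool.Agent.Helper572.PowProd.char_p_final p (⊤ : NonUnitalSubalgebra (ZMod p) D)
      (fun a _ b _ => key a b) a trivial b trivial
  · subst hp0
    have : CharZero D := CharP.charP_to_charZero D
    intro a b
    obtain ⟨n, hn, h⟩ := hP (1 + C a * X) (1 + C b * X ^ 2)
    have h3 := case0 a b n h
    rw [nsmul_eq_mul] at h3
    have h5 : ((n.choose 2 : ℕ) : D) ≠ 0 := by
      have : 0 < n.choose 2 := Nat.choose_pos hn
      exact_mod_cast this.ne'
    rcases mul_eq_zero.mp h3 with h6 | h6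
    · exact absurd h6 h5
    · exact (sub_eq_zero.mp h6).symm

end Pool.Agent.Helper572.PolyCase
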