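import Mathlib
import Pool.Agent.Helper572.PowProdMain
import Pool.Agent.Helper572.NilComm

set_option autoImplicit false

namespace Pool.Agent.Helper572.Reduction

open Pool.Agent.Helper572.PowProd Pool.Agent.Helper572.NilComm

/-- iterates under a homomorphism -/
theorem map_iterate {R S : Type*} [NonUnitalRing R] [NonUnitalRing S] (f : R →ₙ+* S) (x : R)
    (n : ℕ) : f ((fun z : R => z * x)^[n] x) = (fun z : S => z * f x)^[n] (f x) := by
  induction n with
  | zero => simp
  | succ n ih => rw [Function.iterate_succ_apply', Function.iterate_succ_apply', map_mul, ih]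

/-- A reduced ring is commutative if all its homomorphic images without zero divisors are. -/
theorem reduced_of_domains_aux (S : Type) {R : Type} [CommRing S] [IsDomain S] [NonUnitalRing R]
    [Module S R] [IsScalarTower S R R] [SMulCommClass S R R] (hred : ∀ x : R, x * x = 0 → x = 0)
    (hdom : ∀ (D : Type) [NonUnitalRing D] [NoZeroDivisors D] (f : R →ₙ+* D),
      Function.Surjective f → ∀ x y : D, x * y = y * x) :
    ∀ x y : R, x * y = y * x := by
  have hredU : ∀ u : Unitization S R, u * u = 0 → u = 0 := by
    intro u hu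
    have h1 : u.toProd.1 = 0 := by
      have := congrArg (fun u : Unitization S R => u.toProd.1) hu
      simpa using this
    have h2 : u = Unitization.inr u.toProd.2 := by
      ext
      · simpa using h1
      · simp
    rw [h2, ← Unitization.inr_mul] at hu
    have h3 : u.toProd.2 * u.toProd.2 = 0 := by
      have := congrArg (fun u : Unitization S R => u.toProd.2) hu
      simpa using this
    rw [h2, hred _ h3]
    simp
  intro x y
  by_contra hne
  have hc : (Unitization.inr (x * y - y * x) : Unitization S R) ≠ 0 := by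
    intro h0
    have := congrArg (fun u : Unitization S R => u.toProd.2) h0
    have h' : x * y - y * x = 0 := this
    exact hne (sub_eq_zero.mp h')
  obtain ⟨Q, hQ2, hcQ, hQp⟩ := exists_prime hredU _ hc
  have := hQ2
  let K := Unitization S R ⧸ Q
  have hnz : NoZeroDivisors K := by
    refine ⟨?_⟩
    intro a b hab
    obtain ⟨a, rfl⟩ := Ideal.Quotient.mk_surjective a
    obtain ⟨b, rfl⟩ := Ideal.Quotient.mk_surjective b
    rw [← map_mul, Ideal.Quotient.eq_zero_iff_mem] at hab
    rcases hQp a b hab with h | h
    · left; exact Ideal.Quotient.eq_zero_iff_mem.mpr h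
    · right; exact Ideal.Quotient.eq_zero_iff_mem.mpr h
  let g : R →ₙ+* K :=
    { toFun := fun r => Ideal.Quotient.mk Q (Unitization.inr r : Unitization S R)
      map_mul' := fun a b => by simp [Unitization.inr_mul, map_mul]
      map_zero' := by simp
      map_add' := fun a b => by simp [Unitization.inr_add, map_add] }
  let D : NonUnitalSubring K := NonUnitalRingHom.range g
  have hD := hdom D (NonUnitalRingHom.rangeRestrict g) (NonUnitalRingHom.rangeRestrict_surjective g)
    (NonUnitalRingHom.rangeRestrict g x) (NonUnitalRingHom.rangeRestrict g y)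
  have h1 := congrArg Subtype.val hD
  have h2 : g x * g y = g y * g x := h1
  apply hcQ
  rw [← Ideal.Quotient.eq_zero_iff_mem]
  have h3 : g (x * y - y * x) = 0 := by
    rw [map_sub, map_mul, map_mul, h2, sub_self]
  exact h3

/-- A reduced ring is commutative if all its homomorphic images without zero divisors are. -/
theorem reduced_of_domains {R : Type} [NonUnitalRing R] (hred : ∀ x : R, x * x = 0 → x = 0)
    (hdom : ∀ (D : Type) [NonUnitalRing D] [NoZeroDivisors D] (f : R →ₙ+* D),
      Function.Surjective f → ∀ x y : D, x * y = y * x) :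
    ∀ x y : R, x * y = y * x :=
  reduced_of_domains_aux ℤ hred hdom

/-- In a ring without nil right ideals that satisfies (P) there are no square-zero elements. -/
theorem reduced_of_P {R : Type} [NonUnitalRing R]
    (hnil : ∀ I : AddSubgroup R, (∀ x ∈ I, ∀ r : R, x * r ∈ I) →
      (∀ x ∈ I, ∃ n : ℕ, (fun z : R => z * x)^[n] x = 0) → I = ⊥)
    (hP : ∀ x y : R, ∃ n : ℕ, 1 ≤ n ∧ (fun z : R => z * (x * y))^[n] (x * y) =
      (fun z : R => z * x)^[n] x * (fun z : R => z * y)^[n] y) :
    ∀ a : R, a * a = 0 → a = 0 := by
  intro a ha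
  have hit : ∀ n : ℕ, 1 ≤ n → (fun z : R => z * a)^[n] a = 0 := by
    intro n hn
    obtain ⟨k, rfl⟩ : ∃ k, n = k + 1 := ⟨n - 1, by omega⟩
    clear hn
    induction k with
    | zero => simpa using ha
    | succ k ih => rw [Function.iterate_succ_apply', ih, zero_mul]
  have h1 : (AddMonoidHom.mulLeft a).range = ⊥ := by
    apply hnil
    · rintro _ ⟨r, rfl⟩ s
      exact ⟨r * s, by simp [mul_assoc]⟩
    · rintro _ ⟨r, rfl⟩
      obtain ⟨n, hn, h⟩ := hP a r
      exact ⟨n, by
        show (fun z : R => z * (a * r))^[n] (a * r) = 0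
        rw [h, hit n hn, zero_mul]⟩
  have h2 : ∀ r : R, a * r = 0 := by
    intro r
    have : a * r ∈ (AddMonoidHom.mulLeft a).range := ⟨r, rfl⟩
    rw [h1] at this
    simpa using this
  have h3 : AddSubgroup.zmultiples a = ⊥ := by
    apply hnil
    · intro z hz r
      obtain ⟨k, rfl⟩ := AddSubgroup.mem_zmultiples_iff.mp hz
      rw [smul_mul_assoc, h2, smul_zero]
      exact AddSubgroup.zero_mem _
    · intro z hz
      obtain ⟨k, rfl⟩ := AddSubgroup.mem_zmultiples_iff.mp hz
      refine ⟨1, ?_⟩
      show (k • a) * (k • a) = 0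
      rw [smul_mul_assoc, h2, smul_zero]
  have h4 : a ∈ AddSubgroup.zmultiples a := AddSubgroup.mem_zmultiples a
  rw [h3] at h4
  simpa using h4

end Pool.Agent.Helper572.Reduction
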