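import Mathlib
import Pool.Agent.Helper572.PolyCase
import Pool.Agent.Helper572.Reduction

set_option autoImplicit false

namespace Pool.Agent.Helper572.PolyRing
open Polynomial

theorem nil_coeff {R : Type} [Ring R] (b : R) (z : R[X]) (h : z * X * C b + z - 1 = 0) :
    ∃ n : ℕ, 1 ≤ n ∧ b ^ n = 0 := by
  have h0 : z.coeff 0 = 1 := by
    have h1 := congrArg (fun p => p.coeff 0) h
    simp only [coeff_sub, coeff_add, coeff_mul_C, coeff_mul_X_zero, coeff_zero, zero_mul,
      zero_add, coeff_one_zero] at h1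
    exact sub_eq_zero.mp h1
  have hs : ∀ k, z.coeff (k + 1) = - (z.coeff k * b) := by
    intro k
    have h1 := congrArg (fun p => p.coeff (k + 1)) h
    simp only [coeff_sub, coeff_add, coeff_mul_C, coeff_mul_X, coeff_zero] at h1
    rw [coeff_one, if_neg (by omega), sub_zero] at h1
    exact eq_neg_of_add_eq_zero_right h1
  have hk : ∀ k, z.coeff k = (-b) ^ k := by
    intro k
    induction k with
    | zero => rw [h0, pow_zero]
    | succ k ih => rw [hs, ih, pow_succ, mul_neg]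
  refine ⟨z.natDegree + 1, by omega, ?_⟩
  have h1 := hk (z.natDegree + 1)
  rw [coeff_natDegree_succ_eq_zero, neg_pow] at h1
  exact neg_one_pow_mul_eq_zero_iff.mp h1.symm

/-- The elements of `R` in the Jacobson radical of `R[X]` form a nil ideal. -/
theorem exists_ideal (R : Type) [Ring R] :
    ∃ I : TwoSidedIdeal R, (∀ x : R, x ∈ I ↔ C x ∈ Ring.jacobson R[X]) ∧
      ∀ x ∈ I, ∃ n : ℕ, 1 ≤ n ∧ x ^ n = 0 := by
  refine ⟨TwoSidedIdeal.mk' {x : R | C x ∈ Ring.jacobson R[X]} ?_ ?_ ?_ ?_ ?_, ?_, ?_⟩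
  · simp
  · intro x y hx hy
    simp only [Set.mem_setOf_eq] at *
    rw [C_add]; exact add_mem hx hy
  · intro x hx
    simp only [Set.mem_setOf_eq] at *
    rw [C_neg]; exact neg_mem hx
  · intro x y hy
    simp only [Set.mem_setOf_eq] at *
    rw [C_mul]; exact Ideal.mul_mem_left _ _ hy
  · intro x y hx
    simp only [Set.mem_setOf_eq] at *
    rw [C_mul]; exact Ideal.mul_mem_right _ _ hx
  · intro x
    rw [TwoSidedIdeal.mem_mk']; rfl
  · intro x hx
    rw [TwoSidedIdeal.mem_mk'] at hx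
    have hx' : C x ∈ Ring.jacobson R[X] := hx
    rw [← Ideal.jacobson_bot, Ideal.mem_jacobson_iff] at hx'
    obtain ⟨z, hz⟩ := hx' X
    rw [Ideal.mem_bot] at hz
    exact nil_coeff x z hz

/-- If `R` has no nonzero nil ideals and `R[X]` satisfies (P), then `R` is reduced. -/
theorem reduced {R : Type} [Ring R]
    (hnil : ∀ I : TwoSidedIdeal R, (∀ x ∈ I, ∃ n : ℕ, 1 ≤ n ∧ x ^ n = 0) → ∀ x ∈ I, x = 0)
    (hP : ∀ x y : R[X], ∃ n : ℕ, 2 ≤ n ∧ (x * y) ^ n = x ^ n * y ^ n) :
    ∀ a : R, a * a = 0 → a = 0 := by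
  intro a ha
  obtain ⟨I, hI, hIn⟩ := exists_ideal R
  refine hnil I hIn a ((hI a).mpr ?_)
  rw [← Ideal.jacobson_bot, Ideal.mem_jacobson_iff]
  intro y
  obtain ⟨n, hn, h⟩ := hP (C a) y
  have h2 : (C a : R[X]) ^ n = 0 := by
    obtain ⟨m, rfl⟩ := Nat.exists_eq_add_of_le hn
    rw [pow_add, pow_two, ← C_mul, ha, C_0, zero_mul]
  rw [h2, zero_mul] at h
  have h3 : (y * C a) ^ (n + 1) = 0 := by
    have : (y * C a) ^ (n + 1) = y * (C a * y) ^ n * C a := by
      rw [pow_succ, ← mul_assoc]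
      congr 1
      exact (SemiconjBy.pow_right (show SemiconjBy y (C a * y) (y * C a) by
        unfold SemiconjBy; rw [mul_assoc]) n).symm
    rw [this, h, mul_zero, zero_mul]
  have h4 : IsUnit (1 + y * C a) := by
    have h5 : IsNilpotent (y * C a) := ⟨n + 1, h3⟩
    exact h5.isUnit_one_add
  obtain ⟨u, hu⟩ := h4
  refine ⟨↑u⁻¹, ?_⟩
  rw [Ideal.mem_bot, mul_assoc]
  have h6 : (↑u⁻¹ : R[X]) * (1 + y * C a) = 1 := by rw [← hu]; exact u.inv_mul
  rw [mul_add, mul_one] at h6
  rw [add_comm, h6, sub_self]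

/-- Rings `R` with identity without nonzero nil ideals whose polynomial ring satisfies (P) are
commutative. -/
theorem main {R : Type} [Ring R]
    (hnil : ∀ I : TwoSidedIdeal R, (∀ x ∈ I, ∃ n : ℕ, 1 ≤ n ∧ x ^ n = 0) → ∀ x ∈ I, x = 0)
    (hP : ∀ x y : R[X], ∃ n : ℕ, 2 ≤ n ∧ (x * y) ^ n = x ^ n * y ^ n) :
    ∀ a b : R, a * b = b * a := by
  apply Pool.Agent.Helper572.Reduction.reduced_of_domains (reduced hnil hP)
  intro D _ _ f hf
  letI : Ring D := { (inferInstance : NonUnitalRing D) with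
    one := f 1
    one_mul := fun x => by
      obtain ⟨r, rfl⟩ := hf x
      show f 1 * f r = f r
      rw [← map_mul, one_mul]
    mul_one := fun x => by
      obtain ⟨r, rfl⟩ := hf x
      show f r * f 1 = f r
      rw [← map_mul, mul_one] }
  rcases subsingleton_or_nontrivial D with hD | hD
  · intro x y; exact Subsingleton.elim _ _
  let g : R →+* D :=
    { toFun := f
      map_one' := rfl
      map_mul' := fun x y => map_mul f x y
      map_zero' := map_zero f
      map_add' := fun x y => map_add f x y }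
  have hg : Function.Surjective g := hf
  have hg' : Function.Surjective (Polynomial.mapRingHom g) := Polynomial.map_surjective g hg
  apply Pool.Agent.Helper572.PolyCase.poly_comm (D := D)
  intro x y
  obtain ⟨p, rfl⟩ := hg' x
  obtain ⟨q, rfl⟩ := hg' y
  obtain ⟨n, hn, h⟩ := hP p q
  refine ⟨n, hn, ?_⟩
  rw [← map_mul, ← map_pow, ← map_pow, ← map_pow, ← map_mul, h]

end Pool.Agent.Helper572.PolyRing
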