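import Pool.Agent.Helper572.DoubleOp
import Pool.Agent.Helper362.ApC
set_option autoImplicit false
open scoped Topology ENNReal
open Filter

namespace Pool.Agent.Helper572.TB

open Pool.Agent.Helper362.ApNoBap

variable (D : Data)

/-- the generators as elements of the space -/
def gset : Set D.S := {x | ∃ l k g, g < k ∧ x = D.v l k g}

lemma gset_map (x : Y) (hx : x ∈ D.S0) : ∃ y ∈ Submodule.span ℝ (gset D), (y : Y) = x := by
  refine Submodule.span_induction
    (p := fun x _ => ∃ y ∈ Submodule.span ℝ (gset D), (y : Y) = x) ?_ ?_ ?_ ?_ hx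
  · rintro _ ⟨l, k, g, h, rfl⟩
    exact ⟨D.v l k g, Submodule.subset_span ⟨l, k, g, h, rfl⟩, D.v_coe l k g h⟩
  · exact ⟨0, Submodule.zero_mem _, rfl⟩
  · rintro x y _ _ ⟨a, ha, rfl⟩ ⟨b, hb, rfl⟩
    exact ⟨a + b, Submodule.add_mem _ ha hb, rfl⟩
  · rintro c x _ ⟨a, ha, rfl⟩
    exact ⟨c • a, Submodule.smul_mem _ c ha, rfl⟩

lemma gset_sub (x : D.S) (hx : x ∈ Submodule.span ℝ (gset D)) : (x : Y) ∈ D.S0 := by
  refine Submodule.span_induction (p := fun (x : D.S) _ => (x : Y) ∈ D.S0) ?_ ?_ ?_ ?_ hx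
  · rintro _ ⟨l, k, g, h, rfl⟩
    rw [D.v_coe l k g h]
    exact Submodule.subset_span ⟨l, k, g, h, rfl⟩
  · exact D.S0.zero_mem
  · intro x y _ _ hx hy
    exact D.S0.add_mem hx hy
  · intro c x _ hx
    exact D.S0.smul_mem c hx

lemma gset_dense : Dense (Submodule.span ℝ (gset D) : Set D.S) := by
  intro x
  rw [Metric.mem_closure_iff]
  intro ε hε
  have hx : (x : Y) ∈ closure (D.S0 : Set Y) := x.2
  obtain ⟨y, hy, hxy⟩ := Metric.mem_closure_iff.mp hx ε hε
  obtain ⟨z, hz, hzy⟩ := gset_map D y hy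
  refine ⟨z, hz, ?_⟩
  rw [← hzy] at hxy
  exact hxy

lemma T_v (L N l k g : ℕ) (h : g < k) :
    D.T L N (D.v l k g) = if l < L ∧ k ≤ N then D.v l k g else 0 := by
  apply Subtype.ext
  rw [D.T_coe, D.v_coe l k g h]
  split_ifs with h1
  · rw [D.P_J_le L N l k h1.1 h1.2, D.v_coe l k g h]
  · by_cases hl : l < L
    · have hk : N < k := by
        by_contra hc
        exact h1 ⟨hl, by omega⟩
      rw [D.P_J_gt L N l k hk]; rfl
    · rw [D.P_J_ge L N l k (by omega)]; rfl

/-- the coordinate projections of the decomposition -/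
noncomputable def Q (p : ℕ × ℕ) : D.S →L[ℝ] D.S :=
  (D.T (p.1 + 1) (p.2 + 1) - D.T p.1 (p.2 + 1)) - (D.T (p.1 + 1) p.2 - D.T p.1 p.2)

lemma Q_v (p : ℕ × ℕ) (l k g : ℕ) (h : g < k) :
    Q D p (D.v l k g) = if l = p.1 ∧ k = p.2 + 1 then D.v l k g else 0 := by
  unfold Q
  rw [sub_apply, sub_apply, sub_apply,
    T_v D _ _ _ _ _ h, T_v D _ _ _ _ _ h, T_v D _ _ _ _ _ h, T_v D _ _ _ _ _ h]
  obtain ⟨a, b⟩ := p
  simp only
  rcases Nat.lt_trichotomy l a with h1 | h1 | h1
  · have e1 : l < a + 1 := by omega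
    have e2 : ¬ l = a := by omega
    simp [e1, e2, h1]
  · have e1 : l < a + 1 := by omega
    have e2 : ¬ l < a := by omega
    rcases Nat.lt_trichotomy k (b + 1) with h2 | h2 | h2
    · have e3 : k ≤ b + 1 := by omega
      have e4 : k ≤ b := by omega
      have e5 : ¬ k = b + 1 := by omega
      simp [e1, e2, e3, e4, e5]
    · have e3 : k ≤ b + 1 := by omega
      have e4 : ¬ k ≤ b := by omega
      simp [h1, h2]
    · have e3 : ¬ k ≤ b + 1 := by omega
      have e4 : ¬ k ≤ b := by omega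
      have e5 : ¬ k = b + 1 := by omega
      simp [e3, e4, e5]
  · have e1 : ¬ l < a + 1 := by omega
    have e2 : ¬ l < a := by omega
    have e3 : ¬ l = a := by omega
    simp [e1, e2, e3]

/-- the finite-dimensional pieces -/
noncomputable def GG (p : ℕ × ℕ) : Submodule ℝ D.S :=
  Submodule.span ℝ (Set.range (fun g : Fin (p.2 + 1) => D.v p.1 (p.2 + 1) g))

instance GG_fin (p : ℕ × ℕ) : FiniteDimensional ℝ (GG D p) :=
  FiniteDimensional.span_of_finite ℝ (Set.finite_range _)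

lemma v_mem_GG (l k g : ℕ) (h : g < k) : D.v l k g ∈ GG D (l, k - 1) := by
  refine Submodule.subset_span ⟨⟨g, by simp only; omega⟩, ?_⟩
  simp only
  congr 1
  omega

lemma Q_mem (p : ℕ × ℕ) (x : D.S) : Q D p x ∈ GG D p := by
  have hcl : IsClosed {x : D.S | Q D p x ∈ GG D p} :=
    ((GG D p).closed_of_finiteDimensional).preimage (Q D p).continuous
  have h1 : (Submodule.span ℝ (gset D) : Set D.S) ⊆ {x : D.S | Q D p x ∈ GG D p} := by
    have h2 : Submodule.span ℝ (gset D) ≤ (GG D p).comap (Q D p : D.S →ₗ[ℝ] D.S) := by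
      rw [Submodule.span_le]
      rintro _ ⟨l, k, g, h, rfl⟩
      show Q D p (D.v l k g) ∈ GG D p
      rw [Q_v D p l k g h]
      split_ifs with h3
      · obtain ⟨h3, h4⟩ := h3
        have := v_mem_GG D l k g h
        subst h3
        subst h4
        simpa using this
      · exact Submodule.zero_mem _
    exact h2
  have h3 := closure_minimal h1 hcl
  exact h3 (gset_dense D x)

lemma Q_same (p : ℕ × ℕ) (x : D.S) (hx : x ∈ GG D p) : Q D p x = x := by
  refine Submodule.span_induction (p := fun x _ => Q D p x = x) ?_ ?_ ?_ ?_ hx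
  · rintro _ ⟨g, rfl⟩
    rw [Q_v D p _ _ _ g.2, if_pos ⟨rfl, rfl⟩]
  · exact map_zero _
  · intro x y _ _ hx hy
    rw [map_add, hx, hy]
  · intro c x _ hx
    rw [map_smul, hx]

lemma Q_other (p p' : ℕ × ℕ) (hp : p ≠ p') (x : D.S) (hx : x ∈ GG D p') : Q D p x = 0 := by
  refine Submodule.span_induction (p := fun x _ => Q D p x = 0) ?_ ?_ ?_ ?_ hx
  · rintro _ ⟨g, rfl⟩
    rw [Q_v D p _ _ _ g.2, if_neg]
    rintro ⟨h1, h2⟩
    apply hp
    ext
    · exact h1.symm
    · omega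
  · exact map_zero _
  · intro x y _ _ hx hy
    rw [map_add, hx, hy, add_zero]
  · intro c x _ hx
    rw [map_smul, hx, smul_zero]

/-- the index type -/
abbrev Ix : Type := Σ p : ℕ × ℕ, Fin (Module.finrank ℝ (GG D p))

noncomputable def xx (i : Ix D) : D.S := (Module.finBasis ℝ (GG D i.1) i.2 : GG D i.1)

noncomputable def ff (i : Ix D) : D.S →L[ℝ] ℝ :=
  (LinearMap.toContinuousLinearMap ((Module.finBasis ℝ (GG D i.1)).coord i.2)).comp
    ((Q D i.1).codRestrict (GG D i.1) (Q_mem D i.1))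

lemma ff_apply (i : Ix D) (y : D.S) :
    ff D i y = (Module.finBasis ℝ (GG D i.1)).coord i.2 ⟨Q D i.1 y, Q_mem D i.1 y⟩ := rfl

lemma ff_xx (i j : Ix D) : ff D i (xx D j) = if i = j then 1 else 0 := by
  rw [ff_apply]
  obtain ⟨p, a⟩ := i
  obtain ⟨q, b⟩ := j
  by_cases h : p = q
  · subst h
    have h1 : (⟨Q D p (xx D ⟨p, b⟩), Q_mem D p _⟩ : GG D p) = Module.finBasis ℝ (GG D p) b := by
      apply Subtype.ext
      exact Q_same D p _ (Module.finBasis ℝ (GG D p) b).2
    rw [h1, Module.Basis.coord_apply, Module.Basis.repr_self, Finsupp.single_apply]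
    by_cases hab : a = b
    · subst hab; simp
    · rw [if_neg (fun h => hab h.symm), if_neg]
      intro h
      apply hab
      simpa using h
  · have h1 : (⟨Q D p (xx D ⟨q, b⟩), Q_mem D p _⟩ : GG D p) = 0 := by
      apply Subtype.ext
      exact Q_other D p q h _ (Module.finBasis ℝ (GG D q) b).2
    rw [h1, map_zero, if_neg]
    intro h'
    apply h
    exact congrArg Sigma.fst h'

lemma sum_ff (p : ℕ × ℕ) (y : D.S) : ∑ a, ff D ⟨p, a⟩ y • xx D ⟨p, a⟩ = Q D p y := by
  have h1 := (Module.finBasis ℝ (GG D p)).sum_repr ⟨Q D p y, Q_mem D p y⟩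
  have h2 := congrArg (Subtype.val) h1
  rw [AddSubmonoidClass.coe_finsetSum] at h2
  exact h2

/-- the finite index sets -/
noncomputable def AA (L N : ℕ) : Finset (Ix D) :=
  (Finset.range L ×ˢ Finset.range N).sigma (fun _ => Finset.univ)

lemma AA_zero (L : ℕ) : AA D L 0 = ∅ := by
  unfold AA; simp

lemma AA_mem (j : Ix D) : ∀ᶠ n in atTop, ∀ᶠ N in atTop, j ∈ AA D n N := by
  filter_upwards [eventually_gt_atTop j.1.1] with n hn
  filter_upwards [eventually_gt_atTop j.1.2] with N hN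
  unfold AA
  simp [hn, hN]

lemma sum_Q (L N : ℕ) : ∑ p ∈ Finset.range L ×ˢ Finset.range N, Q D p = D.T L N := by
  refine ContinuousLinearMap.ext_on (gset_dense D) ?_
  rintro _ ⟨l, k, g, h, rfl⟩
  rw [sum_apply, T_v D L N l k g h]
  rw [Finset.sum_congr rfl (fun p _ => Q_v D p l k g h)]
  by_cases h1 : l < L ∧ k ≤ N
  · rw [if_pos h1, Finset.sum_eq_single (l, k - 1)]
    · rw [if_pos]
      refine ⟨rfl, ?_⟩
      simp only; omega
    · rintro ⟨a, b⟩ _ hne
      rw [if_neg]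
      rintro ⟨h2, h3⟩
      apply hne
      simp only at h2 h3
      ext
      · exact h2.symm
      · simp only; omega
    · intro h2
      exfalso
      apply h2
      simp only [Finset.mem_product, Finset.mem_range]
      omega
  · rw [if_neg h1]
    refine Finset.sum_eq_zero (fun p hp => ?_)
    rw [if_neg]
    rintro ⟨h2, h3⟩
    rw [Finset.mem_product, Finset.mem_range, Finset.mem_range] at hp
    omega

lemma sum_AA (L N : ℕ) (y : D.S) : ∑ i ∈ AA D L N, ff D i y • xx D i = D.T L N y := by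
  unfold AA
  rw [Finset.sum_sigma, ← sum_Q, sum_apply]
  exact Finset.sum_congr rfl (fun p _ => sum_ff D p y)

/-- the projection onto the first blocks -/
noncomputable def RS (L : ℕ) : D.S →L[ℝ] D.S :=
  ((D.R L).comp D.S.subtypeL).codRestrict D.S (fun x => D.R_mem L x x.2)

lemma RS_coe (L : ℕ) (x : D.S) : ((RS D L x : D.S) : Y) = D.R L x := rfl

lemma norm_T_le (L N : ℕ) : ‖D.T L N‖ ≤ 1 + D.B L := by
  refine ContinuousLinearMap.opNorm_le_bound _ (by have := D.one_le_B L; linarith) (fun x => ?_)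
  exact (D.P L N).le_of_opNorm_le (D.norm_P_le L N) (x : Y)

lemma norm_RS_le (L : ℕ) : ‖RS D L‖ ≤ 1 := by
  refine ContinuousLinearMap.opNorm_le_bound _ zero_le_one (fun x => ?_)
  exact (D.R L).le_of_opNorm_le (D.norm_R_le L) (x : Y)

lemma tendsto_of_dense {F : Type} [NormedAddCommGroup F] [NormedSpace ℝ F]
    (U : ℕ → F →L[ℝ] F) (V : F →L[ℝ] F) (C : ℝ) (hU : ∀ n, ‖U n‖ ≤ C) (s : Set F) (hs : Dense s)
    (h : ∀ x ∈ s, ∀ᶠ n in atTop, U n x = V x) (y : F) :
    Tendsto (fun n => U n y) atTop (𝓝 (V y)) := by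
  have hC : 0 ≤ C := (norm_nonneg _).trans (hU 0)
  rw [Metric.tendsto_nhds]
  intro ε hε
  have hpos : 0 < C + ‖V‖ + 1 := by positivity
  obtain ⟨x, hx, hxy⟩ := Metric.mem_closure_iff.mp (hs y) (ε / (C + ‖V‖ + 1)) (by positivity)
  filter_upwards [h x hx] with n hn
  rw [dist_eq_norm] at hxy ⊢
  have e1 : U n y - V y = U n (y - x) - V (y - x) := by
    rw [map_sub, map_sub, hn]; abel
  rw [e1]
  have b1 : ‖U n (y - x)‖ ≤ C * ‖y - x‖ := (U n).le_of_opNorm_le (hU n) _
  have b2 : ‖V (y - x)‖ ≤ ‖V‖ * ‖y - x‖ := V.le_opNorm _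
  have b3 : (C + ‖V‖ + 1) * ‖y - x‖ < ε := by
    rw [lt_div_iff₀ hpos] at hxy
    linarith [mul_comm ‖y - x‖ (C + ‖V‖ + 1)]
  have b4 := norm_sub_le (U n (y - x)) (V (y - x))
  nlinarith [norm_nonneg (y - x)]

lemma tendsto_T (L : ℕ) (y : D.S) : Tendsto (fun N => D.T L N y) atTop (𝓝 (RS D L y)) := by
  refine tendsto_of_dense _ _ (1 + D.B L) (norm_T_le D L) _ (gset_dense D) (fun x hx => ?_) y
  obtain ⟨N0, hN0⟩ := D.P_stab L (x : Y) (gset_sub D x hx)
  filter_upwards [eventually_ge_atTop N0] with N hN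
  exact Subtype.ext (hN0 N hN)

lemma tendsto_RS (y : D.S) : Tendsto (fun L => RS D L y) atTop (𝓝 y) := by
  refine tendsto_of_dense _ (ContinuousLinearMap.id ℝ D.S) 1 (norm_RS_le D) _ (gset_dense D)
    (fun x hx => ?_) y
  obtain ⟨N0, hN0⟩ := D.R_stab (x : Y) (gset_sub D x hx)
  filter_upwards [eventually_ge_atTop N0] with N hN
  exact Subtype.ext (hN0 N hN)

lemma xx_dense : Dense (Submodule.span ℝ (Set.range (xx D)) : Set D.S) := by
  refine (gset_dense D).mono ?_
  have h : Submodule.span ℝ (gset D) ≤ Submodule.span ℝ (Set.range (xx D)) := by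
    rw [Submodule.span_le]
    rintro _ ⟨l, k, g, h, rfl⟩
    have h1 := Q_same D _ _ (v_mem_GG D l k g h)
    rw [← h1, ← sum_ff]
    exact Submodule.sum_mem _ (fun a _ => Submodule.smul_mem _ _ (Submodule.subset_span ⟨_, rfl⟩))
  exact h

lemma bap_of_finite {F : Type} [NormedAddCommGroup F] [NormedSpace ℝ F] [FiniteDimensional ℝ F] :
    BAP F := by
  refine bap_of_seq (fun _ => ContinuousLinearMap.id ℝ F) 1 (fun _ => inferInstance)
    (fun _ => ContinuousLinearMap.norm_id_le) (fun y => ?_)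
  exact tendsto_const_nhds

lemma ix_infinite (h : ¬ BAP D.S) : Infinite (Ix D) := by
  by_contra hfin
  rw [not_infinite_iff_finite] at hfin
  apply h
  have h1 : FiniteDimensional ℝ (Submodule.span ℝ (Set.range (xx D))) :=
    FiniteDimensional.span_of_finite ℝ (Set.finite_range _)
  have h2 : Submodule.span ℝ (Set.range (xx D)) = ⊤ := by
    have h3 := (Submodule.span ℝ (Set.range (xx D))).closed_of_finiteDimensional
    have h4 := (xx_dense D).closure_eq
    rw [h3.closure_eq] at h4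
    exact SetLike.coe_injective (by rw [h4]; rfl)
  have h5 : FiniteDimensional ℝ (⊤ : Submodule ℝ D.S) := by
    rw [← h2]; exact h1
  have h6 : FiniteDimensional ℝ D.S := Module.finite_def.mpr (Module.Finite.iff_fg.mp h5)
  exact bap_of_finite

theorem exists_bases (h : ¬ BAP D.S) :
    (∃ x : ℕ → D.S, IsDoubleOperationalBasis x ∧ IsDoubleGenSummationBasis x) := by
  classical
  have hinf := ix_infinite D h
  obtain ⟨hd⟩ := nonempty_denumerable (Ix D)
  let e : ℕ ≃ Ix D := (Denumerable.eqv (Ix D)).symm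
  have hz : ∀ (y : D.S) (n : ℕ), Tendsto (fun N => ∑ i ∈ AA D n N, ff D i y • xx D i) atTop
      (𝓝 (RS D n y)) := by
    intro y n
    simp_rw [sum_AA]
    exact tendsto_T D n y
  refine ⟨xx D ∘ e, ?_, ?_⟩
  · exact double_op e (xx D) (ff D) (AA D) (ff_xx D) (AA_zero D) (fun n y => RS D n y) hz
      (tendsto_RS D) (xx_dense D)
  · exact double_gsb e (xx D) (ff D) (AA D) (ff_xx D) (AA_zero D) (AA_mem D)
      (fun n y => RS D n y) hz (tendsto_RS D)

end Pool.Agent.Helper572.TB
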