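import Mathlib
set_option autoImplicit false
open scoped Topology ENNReal
open Filter

namespace Pool.Agent.Helper572.TB

variable {E : Type} [NormedAddCommGroup E] [NormedSpace ℝ E]

/-- `σ n` is the `n`-th `T`-mean of the partial sums of `∑ α i • x i`:
the limit over `J` of `∑_{j<J} T n j • ∑_{i≤j} α i • x i`, which has to exist for every `n`. -/
def IsMeans (T : ℕ → ℕ → ℝ) (x : ℕ → E) (α : ℕ → ℝ) (σ : ℕ → E) : Prop :=
  ∀ n, Tendsto (fun J => ∑ j ∈ Finset.range J, T n j • ∑ i ∈ Finset.range (j + 1), α i • x i)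
    atTop (𝓝 (σ n))

/-- consistent summation matrices -/
structure IsConsistent (T : ℕ → ℕ → ℝ) : Prop where
  bounded : ∃ M : ℝ, ∀ n, Summable (fun j => |T n j|) ∧ ∑' j, |T n j| ≤ M
  col : ∀ j, Tendsto (fun n => T n j) atTop (𝓝 0)
  row : Tendsto (fun n => ∑' j, T n j) atTop (𝓝 1)

/-- triangular matrices -/
def IsTriangular (T : ℕ → ℕ → ℝ) : Prop := ∀ n m, n < m → T n m = 0

/-- `x` is a `T`-basis: every `y` has exactly one coefficient sequence whose `T`-means exist and
tend to `y`. -/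
def IsTBasis (T : ℕ → ℕ → ℝ) (x : ℕ → E) : Prop :=
  ∀ y : E, ∃! α : ℕ → ℝ, ∃ σ : ℕ → E, IsMeans T x α σ ∧ Tendsto σ atTop (𝓝 y)

/-- the bounded approximation property -/
def BAP (E : Type) [NormedAddCommGroup E] [NormedSpace ℝ E] : Prop :=
  ∃ C : ℝ, ∀ K : Set E, IsCompact K → ∀ ε : ℝ, 0 < ε →
    ∃ T : E →L[ℝ] E, FiniteDimensional ℝ (LinearMap.range (T : E →ₗ[ℝ] E)) ∧
      ‖T‖ ≤ C ∧ ∀ x ∈ K, ‖T x - x‖ ≤ ε

/-- uniformly bounded finite rank operators tending pointwise to the identity give the BAP -/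
lemma bap_of_seq (S : ℕ → E →L[ℝ] E) (C : ℝ)
    (hf : ∀ n, FiniteDimensional ℝ (LinearMap.range (S n : E →ₗ[ℝ] E)))
    (hC : ∀ n, ‖S n‖ ≤ C) (hS : ∀ y, Tendsto (fun n => S n y) atTop (𝓝 y)) : BAP E := by
  refine ⟨C, fun K hK ε hε => ?_⟩
  have hC0 : 0 ≤ C := (norm_nonneg _).trans (hC 0)
  set δ : ℝ := ε / (2 * (C + 1)) with hδ
  have hδ0 : 0 < δ := by positivity
  obtain ⟨t, htK, htf, hcov⟩ := hK.finite_cover_balls hδ0
  have h1 : ∀ᶠ n in atTop, ∀ f ∈ t, ‖S n f - f‖ < ε / 2 := by
    rw [htf.eventually_all]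
    intro f _
    have h2 := (hS f)
    rw [Metric.tendsto_nhds] at h2
    filter_upwards [h2 (ε / 2) (by positivity)] with n hn
    rwa [dist_eq_norm] at hn
  obtain ⟨n, hn⟩ := h1.exists
  refine ⟨S n, hf n, hC n, fun x hx => ?_⟩
  obtain ⟨f, hft, hxf⟩ := Set.mem_iUnion₂.mp (hcov hx)
  rw [Metric.mem_ball, dist_eq_norm] at hxf
  have e1 : S n x - x = S n (x - f) + (S n f - f) - (x - f) := by
    rw [map_sub]; abel
  have e2 : ‖S n (x - f)‖ ≤ C * ‖x - f‖ := (S n).le_of_opNorm_le (hC n) _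
  have e3 := hn f hft
  have e4 : (C + 1) * ‖x - f‖ ≤ ε / 2 := by
    have : (C + 1) * ‖x - f‖ ≤ (C + 1) * δ := mul_le_mul_of_nonneg_left hxf.le (by linarith)
    have h5 : (C + 1) * δ = ε / 2 := by
      rw [hδ]; field_simp
    linarith
  calc ‖S n x - x‖ = ‖S n (x - f) + (S n f - f) - (x - f)‖ := by rw [e1]
    _ ≤ ‖S n (x - f) + (S n f - f)‖ + ‖x - f‖ := norm_sub_le _ _
    _ ≤ ‖S n (x - f)‖ + ‖S n f - f‖ + ‖x - f‖ := by gcongr; exact norm_add_le _ _
    _ ≤ ε := by nlinarith

section rows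

variable {T : ℕ → ℕ → ℝ} {x : ℕ → E} {R : ℕ → ℕ}

/-- the multiplier of the `i`-th coefficient in the `n`-th mean -/
noncomputable def tau (T : ℕ → ℕ → ℝ) (n i : ℕ) : ℝ := ∑' j, T n j - ∑ j ∈ Finset.range i, T n j

noncomputable def mean (T : ℕ → ℕ → ℝ) (x : ℕ → E) (R : ℕ → ℕ) (α : ℕ → ℝ) (n : ℕ) : E :=
  ∑ i ∈ Finset.range (R n), (tau T n i * α i) • x i

lemma tsum_eq (hR : ∀ n j, R n ≤ j → T n j = 0) (n : ℕ) :
    ∑' j, T n j = ∑ j ∈ Finset.range (R n), T n j :=
  tsum_eq_sum (fun j hj => hR n j (by simpa using hj))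

lemma tau_zero (hR : ∀ n j, R n ≤ j → T n j = 0) (n i : ℕ) (h : R n ≤ i) : tau T n i = 0 := by
  unfold tau
  rw [tsum_eq hR, sub_eq_zero]
  exact Finset.sum_subset (by intro a ha; simp at ha ⊢; omega)
    (fun j _ hj => hR n j (by simpa using hj))

lemma tendsto_tau (hT : IsConsistent T) (i : ℕ) : Tendsto (fun n => tau T n i) atTop (𝓝 1) := by
  unfold tau
  have h1 : Tendsto (fun n => ∑ j ∈ Finset.range i, T n j) atTop (𝓝 (∑ j ∈ Finset.range i, (0:ℝ))) :=
    tendsto_finsetSum _ (fun j _ => hT.col j)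
  have h2 := hT.row.sub h1
  simpa using h2

lemma sum_swap (hR : ∀ n j, R n ≤ j → T n j = 0) (α : ℕ → ℝ) (n : ℕ) :
    ∑ j ∈ Finset.range (R n), T n j • ∑ i ∈ Finset.range (j + 1), α i • x i = mean T x R α n := by
  unfold mean
  have h1 : ∀ i ∈ Finset.range (R n), (tau T n i * α i) • x i =
      ∑ j ∈ Finset.Ico i (R n), T n j • α i • x i := by
    intro i hi
    have hi' := Finset.mem_range.mp hi
    rw [← Finset.sum_smul, ← mul_smul]
    congr 2
    unfold tau
    rw [tsum_eq hR, ← Finset.sum_range_add_sum_Ico (fun j => T n j) hi'.le]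
    ring
  rw [Finset.sum_congr rfl h1]
  simp_rw [Finset.smul_sum]
  refine Finset.sum_comm' (fun j i => ?_)
  simp only [Finset.mem_range, Finset.mem_Ico]
  omega

lemma isMeans_iff (hR : ∀ n j, R n ≤ j → T n j = 0) (α : ℕ → ℝ) (σ : ℕ → E) :
    IsMeans T x α σ ↔ σ = mean T x R α := by
  have key : ∀ n, Tendsto (fun J => ∑ j ∈ Finset.range J,
      T n j • ∑ i ∈ Finset.range (j + 1), α i • x i) atTop (𝓝 (mean T x R α n)) := by
    intro n
    refine tendsto_atTop_of_eventually_const (i₀ := R n) (fun J hJ => ?_)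
    rw [← sum_swap hR]
    symm
    refine Finset.sum_subset (by intro a ha; simp at ha ⊢; omega) (fun j _ hj => ?_)
    rw [hR n j (by simpa using hj), zero_smul]
  constructor
  · intro h
    funext n
    exact tendsto_nhds_unique (h n) (key n)
  · rintro rfl
    exact key

lemma mean_add (α β : ℕ → ℝ) (n : ℕ) :
    mean T x R (α + β) n = mean T x R α n + mean T x R β n := by
  unfold mean
  rw [← Finset.sum_add_distrib]
  refine Finset.sum_congr rfl (fun i _ => ?_)
  rw [Pi.add_apply, mul_add, add_smul]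

lemma mean_smul (c : ℝ) (α : ℕ → ℝ) (n : ℕ) :
    mean T x R (c • α) n = c • mean T x R α n := by
  unfold mean
  rw [Finset.smul_sum]
  refine Finset.sum_congr rfl (fun i _ => ?_)
  rw [Pi.smul_apply, smul_eq_mul, ← mul_smul]
  congr 1
  ring

lemma mean_mem (α : ℕ → ℝ) (n : ℕ) :
    mean T x R α n ∈ Submodule.span ℝ (x '' (Finset.range (R n) : Set ℕ)) := by
  unfold mean
  refine Submodule.sum_mem _ (fun i hi => Submodule.smul_mem _ _ (Submodule.subset_span ⟨i, ?_, rfl⟩))
  exact_mod_cast hi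

end rows

section main

variable {T : ℕ → ℕ → ℝ} {x : ℕ → E} {R : ℕ → ℕ}

/-- the coefficient sequence -/
noncomputable def co (hx : IsTBasis T x) (y : E) : ℕ → ℝ := Classical.choose (hx y)

lemma co_mean (hR : ∀ n j, R n ≤ j → T n j = 0) (hx : IsTBasis T x) (y : E) :
    Tendsto (mean T x R (co hx y)) atTop (𝓝 y) := by
  obtain ⟨⟨σ, h1, h2⟩, _⟩ := Classical.choose_spec (hx y)
  rw [(isMeans_iff hR _ _).mp h1] at h2
  exact h2

lemma co_unique (hR : ∀ n j, R n ≤ j → T n j = 0) (hx : IsTBasis T x) (y : E) (α : ℕ → ℝ)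
    (h : Tendsto (mean T x R α) atTop (𝓝 y)) : α = co hx y :=
  (Classical.choose_spec (hx y)).2 α ⟨_, (isMeans_iff hR _ _).mpr rfl, h⟩

lemma co_add (hR : ∀ n j, R n ≤ j → T n j = 0) (hx : IsTBasis T x) (y z : E) :
    co hx (y + z) = co hx y + co hx z := by
  symm
  refine co_unique hR hx _ _ ?_
  have h := (co_mean hR hx y).add (co_mean hR hx z)
  refine h.congr (fun n => ?_)
  rw [mean_add]

lemma co_smul (hR : ∀ n j, R n ≤ j → T n j = 0) (hx : IsTBasis T x) (c : ℝ) (y : E) :
    co hx (c • y) = c • co hx y := by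
  symm
  refine co_unique hR hx _ _ ?_
  have h := (co_mean hR hx y).const_smul c
  refine h.congr (fun n => ?_)
  rw [mean_smul]

lemma indep (hT : IsConsistent T) (hR : ∀ n j, R n ≤ j → T n j = 0) (hx : IsTBasis T x) :
    LinearIndependent ℝ x := by
  rw [linearIndependent_iff']
  intro s g hg i hi
  classical
  set β : ℕ → ℝ := fun j => if j ∈ s then g j else 0 with hβ
  have h1 : Tendsto (mean T x R β) atTop (𝓝 0) := by
    have h2 : ∀ n, mean T x R β n = ∑ j ∈ s, tau T n j • g j • x j := by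
      intro n
      unfold mean
      have e1 : ∑ j ∈ s, tau T n j • g j • x j = ∑ j ∈ s ∪ Finset.range (R n), (tau T n j * β j) • x j := by
        have e2 : ∑ j ∈ s, tau T n j • g j • x j = ∑ j ∈ s, (tau T n j * β j) • x j := by
          refine Finset.sum_congr rfl (fun j hj => ?_)
          simp [hβ, hj, mul_smul]
        rw [e2]
        refine Finset.sum_subset Finset.subset_union_left (fun j _ hj => ?_)
        simp [hβ, hj]
      rw [e1]
      refine Finset.sum_subset Finset.subset_union_right (fun j _ hj => ?_)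
      rw [tau_zero hR n j (by simpa using hj)]
      simp
    have h3 : Tendsto (fun n => ∑ j ∈ s, tau T n j • g j • x j) atTop
        (𝓝 (∑ j ∈ s, (1 : ℝ) • g j • x j)) :=
      tendsto_finsetSum _ (fun j _ => (tendsto_tau hT j).smul_const _)
    have h4 : ∑ j ∈ s, (1 : ℝ) • g j • x j = 0 := by simpa using hg
    rw [h4] at h3
    exact h3.congr (fun n => (h2 n).symm)
  have h5 : Tendsto (mean T x R 0) atTop (𝓝 0) := by
    have : mean T x R 0 = fun _ => 0 := by
      funext n; simp [mean]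
    rw [this]; exact tendsto_const_nhds
  have h6 : β = 0 := (co_unique hR hx 0 β h1).trans (co_unique hR hx 0 0 h5).symm
  have h7 := congrFun h6 i
  simpa [hβ, hi] using h7

/-- the means as a bounded sequence -/
noncomputable def Phi (hR : ∀ n j, R n ≤ j → T n j = 0) (hx : IsTBasis T x) :
    E →ₗ[ℝ] lp (fun _ : ℕ => E) ∞ where
  toFun y := ⟨mean T x R (co hx y), memℓp_infty (co_mean hR hx y).norm.bddAbove_range⟩
  map_add' y z := by
    ext n
    show mean T x R (co hx (y + z)) n = mean T x R (co hx y) n + mean T x R (co hx z) n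
    rw [co_add hR, mean_add]
  map_smul' c y := by
    ext n
    show mean T x R (co hx (c • y)) n = c • mean T x R (co hx y) n
    rw [co_smul hR, mean_smul]

lemma Phi_apply (hR : ∀ n j, R n ≤ j → T n j = 0) (hx : IsTBasis T x) (y : E) (n : ℕ) :
    Phi hR hx y n = mean T x R (co hx y) n := rfl

omit [NormedSpace ℝ E] in
lemma lp_dist (u w : lp (fun _ : ℕ => E) ∞) (n : ℕ) : ‖u n - w n‖ ≤ ‖u - w‖ := by
  have h := lp.norm_apply_le_norm (by simp : (∞ : ℝ≥0∞) ≠ 0) (u - w) n
  simpa using h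

omit [NormedSpace ℝ E] in
lemma tendsto_coord {u : ℕ → lp (fun _ : ℕ => E) ∞} {w : lp (fun _ : ℕ => E) ∞}
    (h : Tendsto u atTop (𝓝 w)) (n : ℕ) : Tendsto (fun k => u k n) atTop (𝓝 (w n)) := by
  rw [tendsto_iff_norm_sub_tendsto_zero] at h ⊢
  exact squeeze_zero (fun _ => norm_nonneg _) (fun k => lp_dist _ _ n) h

lemma Phi_continuous [CompleteSpace E] (hT : IsConsistent T) (hR : ∀ n j, R n ≤ j → T n j = 0)
    (hx : IsTBasis T x) : Continuous (Phi hR hx) := by
  refine LinearMap.continuous_of_seq_closed_graph (Phi hR hx) (fun u y w hu hw => ?_)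
  have hli := indep hT hR hx
  -- coordinates converge
  have hcoord : ∀ n, ∃ β : Fin (R n) → ℝ,
      ∀ i : Fin (R n), Tendsto (fun k => tau T n i * co hx (u k) i) atTop (𝓝 (β i)) := by
    intro n
    set L : (Fin (R n) → ℝ) →ₗ[ℝ] E := Fintype.linearCombination ℝ (fun i : Fin (R n) => x i) with hL
    have hinj : Function.Injective L := by
      have h1 : LinearIndependent ℝ (fun i : Fin (R n) => x i) := hli.comp _ Fin.val_injective
      exact linearIndependent_iff_injective_fintypeLinearCombination.mp h1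
    have hemb : Topology.IsClosedEmbedding L := LinearMap.isClosedEmbedding_of_injective
      (LinearMap.ker_eq_bot.mpr hinj)
    have hLk : ∀ k, L (fun i => tau T n i * co hx (u k) i) = Phi hR hx (u k) n := by
      intro k
      rw [Phi_apply, hL, Fintype.linearCombination_apply]
      unfold mean
      rw [Finset.sum_range]
    have hlim : Tendsto (fun k => L (fun i => tau T n i * co hx (u k) i)) atTop (𝓝 (w n)) := by
      have := tendsto_coord hw n
      exact this.congr (fun k => (hLk k).symm)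
    have hmem : w n ∈ Set.range L :=
      hemb.isClosed_range.mem_of_tendsto hlim (Eventually.of_forall (fun k => ⟨_, rfl⟩))
    obtain ⟨β, hβ⟩ := hmem
    rw [← hβ] at hlim
    have h2 : Tendsto (fun k => (fun i : Fin (R n) => tau T n i * co hx (u k) i)) atTop (𝓝 β) :=
      (hemb.tendsto_nhds_iff).mpr hlim
    exact ⟨β, fun i => (tendsto_pi_nhds.mp h2) i⟩
  have hco : ∀ i, ∃ a : ℝ, Tendsto (fun k => co hx (u k) i) atTop (𝓝 a) := by
    intro i
    obtain ⟨n, hn⟩ := ((tendsto_tau hT i).eventually_ne one_ne_zero).exists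
    have hi : i < R n := by
      by_contra h
      exact hn (tau_zero hR n i (by omega))
    obtain ⟨β, hβ⟩ := hcoord n
    refine ⟨β ⟨i, hi⟩ / tau T n i, ?_⟩
    have h1 := (hβ ⟨i, hi⟩).div_const (tau T n i)
    refine h1.congr (fun k => ?_)
    show tau T n i * co hx (u k) i / tau T n i = co hx (u k) i
    field_simp
  choose α hα using hco
  have hmean : ∀ n, w n = mean T x R α n := by
    intro n
    refine tendsto_nhds_unique (tendsto_coord hw n) ?_
    show Tendsto (fun k => mean T x R (co hx (u k)) n) atTop (𝓝 (mean T x R α n))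
    unfold mean
    exact tendsto_finsetSum _ (fun i _ => ((hα i).const_mul _).smul_const _)
  have hwy : Tendsto (fun n => w n) atTop (𝓝 y) := by
    rw [Metric.tendsto_atTop]
    intro ε hε
    rw [Metric.tendsto_atTop] at hu hw
    obtain ⟨k1, hk1⟩ := hu (ε / 3) (by positivity)
    obtain ⟨k2, hk2⟩ := hw (ε / 3) (by positivity)
    set k := max k1 k2
    have b1 := hk1 k (le_max_left _ _)
    have b2 := hk2 k (le_max_right _ _)
    obtain ⟨N, hN⟩ := (Metric.tendsto_atTop.mp (co_mean hR hx (u k))) (ε / 3) (by positivity)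
    refine ⟨N, fun n hn => ?_⟩
    have b3 := hN n hn
    rw [dist_eq_norm] at b1 b2 b3 ⊢
    have b4 := lp_dist (Phi hR hx (u k)) w n
    have b5 : ‖Phi hR hx (u k) n - w n‖ < ε / 3 := b4.trans_lt b2
    rw [Phi_apply] at b5
    have e1 : w n - y = -(mean T x R (co hx (u k)) n - w n) + (mean T x R (co hx (u k)) n - u k)
        + (u k - y) := by abel
    rw [e1]
    refine (norm_add_le _ _).trans_lt ?_
    refine (add_le_add_left (norm_add_le _ _) _).trans_lt ?_
    rw [norm_neg]
    linarith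
  have h8 : α = co hx y := co_unique hR hx y α (by
    refine hwy.congr (fun n => ?_)
    exact hmean n)
  ext n
  rw [hmean n, Phi_apply, h8]

/-- A Banach space with a `T`-basis, `T` consistent with finitely supported rows, has the BAP. -/
theorem bap_of_tbasis [CompleteSpace E] (hT : IsConsistent T)
    (hR : ∀ n j, R n ≤ j → T n j = 0) (hx : IsTBasis T x) : BAP E := by
  set F : E →L[ℝ] lp (fun _ : ℕ => E) ∞ := ⟨Phi hR hx, Phi_continuous hT hR hx⟩ with hF
  have hb : ∀ n y, ‖mean T x R (co hx y) n‖ ≤ ‖F‖ * ‖y‖ := by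
    intro n y
    have h1 : ‖F y n‖ ≤ ‖F y‖ := lp.norm_apply_le_norm (by simp : (∞ : ℝ≥0∞) ≠ 0) (F y) n
    exact h1.trans (F.le_opNorm y)
  let S : ℕ → E →L[ℝ] E := fun n => LinearMap.mkContinuous
    { toFun := fun y => mean T x R (co hx y) n
      map_add' := fun y z => by rw [co_add hR, mean_add]
      map_smul' := fun c y => by rw [co_smul hR, mean_smul]; rfl } ‖F‖ (hb n)
  refine bap_of_seq S ‖F‖ (fun n => ?_) (fun n => ?_) (fun y => co_mean hR hx y)
  · have hfin : FiniteDimensional ℝ (Submodule.span ℝ (x '' (Finset.range (R n) : Set ℕ))) :=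
      FiniteDimensional.span_of_finite ℝ ((Finset.finite_toSet _).image _)
    refine Submodule.finiteDimensional_of_le (S₂ := Submodule.span ℝ (x '' (Finset.range (R n) : Set ℕ))) ?_
    rintro _ ⟨y, rfl⟩
    exact mean_mem _ n
  · exact LinearMap.mkContinuous_norm_le _ (norm_nonneg F) _

end main

end Pool.Agent.Helper572.TB
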